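import Pool.Agent.E8helper86.NS.Seq

/-! Automorphisms: the closed span of the elements with null twisted spectrum. -/

set_option autoImplicit false

open MeasureTheory Topology Filter Finset
open scoped ENNReal

namespace Pool.Agent.E8helper86.NS

open Pool.Agent.TH327.Thin (SpecIn)
open Pool.Agent.Y958.U (LZ)

universe u v

/-- orbit of `x` disjoint in norm from `c`, uniformly in the twist, along the numbers outside `E` -/
def PN {A : Type u} [NonUnitalCStarAlgebra A] (E : Set ℕ) (c : ℕ → ℂ) (α : A ≃⋆ₐ[ℂ] A) (x : A) : Prop :=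
  ∀ ε : ℝ, 0 < ε → ∀ᶠ N : ℕ in Lf E, ∀ θ : ℝ, ‖twa c θ α x N‖ ≤ ε * N

/-- the logarithmic version -/
def PL {A : Type u} [NonUnitalCStarAlgebra A] (c : ℕ → ℂ) (α : A ≃⋆ₐ[ℂ] A) (x : A) : Prop :=
  ∀ ε : ℝ, 0 < ε → ∀ᶠ X : ℕ in atTop, ∀ θ : ℝ, ‖twl c θ α x X‖ ≤ ε * Real.log X

section

variable {A : Type u} [NonUnitalCStarAlgebra A] {E : Set ℕ} {c : ℕ → ℂ} {α : A ≃⋆ₐ[ℂ] A}

theorem twa_add (θ : ℝ) (x y : A) (N : ℕ) : twa c θ α (x + y) N = twa c θ α x N + twa c θ α y N := by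
  unfold twa
  rw [← Finset.sum_add_distrib]
  refine Finset.sum_congr rfl fun n _ => ?_
  rw [map_add, smul_add]

theorem twa_smul (θ : ℝ) (z : ℂ) (x : A) (N : ℕ) : twa c θ α (z • x) N = z • twa c θ α x N := by
  unfold twa
  rw [Finset.smul_sum]
  refine Finset.sum_congr rfl fun n _ => ?_
  rw [map_smul, smul_comm]

theorem twa_norm (hc : ∀ n, ‖c n‖ ≤ 1) (θ : ℝ) (x : A) (N : ℕ) : ‖twa c θ α x N‖ ≤ N * ‖x‖ := by
  unfold twa
  calc ‖∑ n ∈ Icc 1 N, (c n * Complex.exp (2 * Real.pi * Complex.I * n * θ)) • (α ^ n) x‖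
      ≤ ∑ n ∈ Icc 1 N, ‖x‖ := by
        refine (norm_sum_le _ _).trans (Finset.sum_le_sum fun n _ => ?_)
        rw [norm_smul, norm_mul, norm_exp_one, mul_one, norm_auto]
        exact mul_le_of_le_one_left (norm_nonneg _) (hc n)
    _ = N * ‖x‖ := by simp

/-- the disjoint elements form a subspace -/
def PNsub (E : Set ℕ) (c : ℕ → ℂ) (α : A ≃⋆ₐ[ℂ] A) : Submodule ℂ A where
  carrier := {x | PN E c α x}
  add_mem' := by
    intro x y hx hy ε hε
    filter_upwards [hx (ε / 2) (by positivity), hy (ε / 2) (by positivity)] with N h1 h2 θ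
    rw [twa_add]
    refine (norm_add_le _ _).trans ?_
    linarith [h1 θ, h2 θ]
  zero_mem' := by
    intro ε hε
    refine Eventually.of_forall fun N θ => ?_
    have : twa c θ α (0 : A) N = 0 := by
      unfold twa
      simp
    rw [this, norm_zero]
    positivity
  smul_mem' := by
    intro z x hx ε hε
    filter_upwards [hx (ε / (‖z‖ + 1)) (by positivity)] with N h1 θ
    rw [twa_smul, norm_smul]
    calc ‖z‖ * ‖twa c θ α x N‖ ≤ (‖z‖ + 1) * (ε / (‖z‖ + 1) * N) := by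
          gcongr
          · linarith
          · exact h1 θ
      _ = ε * N := by field_simp

theorem PN_closed (hc : ∀ n, ‖c n‖ ≤ 1) {S : Set A} (hS : ∀ x ∈ S, PN E c α x) {x : A}
    (hx : x ∈ closure (Submodule.span ℂ S : Set A)) : PN E c α x := by
  intro ε hε
  obtain ⟨y, hy, hxy⟩ := Metric.mem_closure_iff.1 hx (ε / 2) (by positivity)
  have hy' : y ∈ PNsub E c α := (Submodule.span_le (p := PNsub E c α)).2 hS hy
  filter_upwards [hy' (ε / 2) (by positivity)] with N h1 θ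
  have h2 : twa c θ α x N = twa c θ α y N + twa c θ α (x - y) N := by
    rw [← twa_add, add_sub_cancel]
  rw [h2]
  refine (norm_add_le _ _).trans ?_
  have h3 := twa_norm (α := α) hc θ (x - y) N
  rw [← dist_eq_norm] at h3
  have h4 : (N : ℝ) * dist x y ≤ N * (ε / 2) := by gcongr
  linarith [h1 θ]

theorem PL_of (hLZ : LZ E) (hc : ∀ n, ‖c n‖ ≤ 1) {x : A} (h : PN E c α x) : PL c α x := by
  intro ε hε
  rcases eq_or_ne x 0 with rfl | hx
  · refine Eventually.of_forall fun X θ => ?_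
    have : twl c θ α (0 : A) X = 0 := by
      unfold twl
      simp
    rw [this, norm_zero]
    exact mul_nonneg hε.le (Real.log_natCast_nonneg X)
  · have hx0 : 0 < ‖x‖ := norm_pos_iff.2 hx
    obtain ⟨N₀, hN₀⟩ := ev_Lf.1 (h (ε / ‖x‖ / 4 * ‖x‖) (by positivity))
    obtain ⟨X₀, hX₀⟩ := twl_of.{u} hLZ (ε / ‖x‖) (by positivity) N₀
    filter_upwards [eventually_ge_atTop X₀] with X hX θ
    have h1 := hX₀ X hX A α c x θ hc (fun N hN hNE => (hN₀ N hN hNE θ).trans (le_of_eq (by ring)))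
    refine h1.trans (le_of_eq ?_)
    field_simp

theorem fun_of (hLZ : LZ E) (hc : ∀ n, ‖c n‖ ≤ 1) {x : A} (h : PN E c α x) (ρ : A →L[ℂ] ℂ) :
    Tendsto (fun N : ℕ => (1 / (N : ℂ)) * ∑ n ∈ Icc 1 N, c n * ρ ((α ^ n) x)) (Lf E) (𝓝 0) ∧
    Tendsto (fun X : ℕ => (1 / (Real.log X : ℂ)) * ∑ n ∈ Icc 1 X, c n / n * ρ ((α ^ n) x)) atTop (𝓝 0) := by
  have hL := PL_of hLZ hc h
  rcases eq_or_ne x 0 with rfl | hx
  · simp only [map_zero, mul_zero, Finset.sum_const_zero]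
    exact ⟨tendsto_const_nhds, tendsto_const_nhds⟩
  · have hx0 : 0 < ‖x‖ := norm_pos_iff.2 hx
    refine fun_tend (fun ε hε => ?_) (fun ε hε => ?_) ρ
    · filter_upwards [h (ε * ‖x‖) (by positivity)] with N hN
      exact (hN 0).trans (le_of_eq (by ring))
    · filter_upwards [hL (ε * ‖x‖) (by positivity)] with N hN
      exact (hN 0).trans (le_of_eq (by ring))

/-- the uniform bound for elements with null twisted spectrum -/
theorem twist_unif (K : Set UnitAddCircle) (hK : IsClosed K) (hK0 : volume K = 0) (hc : ∀ n, ‖c n‖ ≤ 1)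
    (hE : CorrZero E c) (ε : ℝ) (hε : 0 < ε) :
    ∀ᶠ N : ℕ in Lf E, ∀ (A : Type u) [NonUnitalCStarAlgebra A] (B : Type v) [CStarAlgebra B] (α : A ≃⋆ₐ[ℂ] A)
      (ι : A →⋆ₙₐ[ℂ] B) (w : unitary B) (x : A) (θ : ℝ), Function.Injective ι →
      SpecIn K (fun n : ℤ => ι ((α ^ n) x) * ((w ^ n : unitary B) : B)) → ‖twa c θ α x N‖ ≤ ε * N * ‖x‖ := by
  filter_upwards [seq_main.{v} K hK hc hE ε hε] with N hN A _ B _ α ι w x θ hι hs
  rcases eq_or_ne x 0 with rfl | hx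
  · have : twa c θ α (0 : A) N = 0 := by
      unfold twa
      simp
    rw [this]
    simp
  have hx0 : 0 < ‖x‖ := norm_pos_iff.2 hx
  have hxC : ((‖x‖ : ℝ) : ℂ) ≠ 0 := by exact_mod_cast hx0.ne'
  have hnz : ∀ n : ℤ, ‖(α ^ n) x‖ = ‖x‖ := fun n => Pool.Agent.TH327.Thin.norm_orb α x n
  have h1 := (hN B (fun n : ℤ => ((‖x‖ : ℂ))⁻¹ • (ι ((α ^ n) x) * ((w ^ n : unitary B) : B))) w⁻¹ (θ : UnitAddCircle)
    (fun n => by
      rw [norm_smul, norm_inv, Complex.norm_real, norm_norm, inv_mul_le_iff₀ hx0, mul_one]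
      refine (norm_mul_le _ _).trans ?_
      rw [NonUnitalStarAlgHom.norm_map ι hι, hnz]
      exact mul_le_of_le_one_right (norm_nonneg _) (norm_zpow_le w n))
    (fun h hh hU => by
      have h2 := hs h hh hU
      have h3 : ∀ n : ℤ, h n • (((‖x‖ : ℂ))⁻¹ • (ι ((α ^ n) x) * ((w ^ n : unitary B) : B))) =
          ((‖x‖ : ℂ))⁻¹ • (h n • (ι ((α ^ n) x) * ((w ^ n : unitary B) : B))) := fun n => smul_comm _ _ _
      simp_rw [h3]
      rw [tsum_const_smul'', h2, smul_zero])).1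
  have h4 : ∑ n ∈ Icc (1 : ℤ) N, cut c (θ : UnitAddCircle) N n •
      ((((‖x‖ : ℂ))⁻¹ • (ι ((α ^ n) x) * ((w ^ n : unitary B) : B))) * (((w⁻¹ : unitary B) ^ n : unitary B) : B)) =
      ((‖x‖ : ℂ))⁻¹ • ι (twa c θ α x N) := by
    rw [sum_int_nat]
    unfold twa
    rw [map_sum, Finset.smul_sum]
    refine Finset.sum_congr rfl fun n hn => ?_
    have e1 : ((w ^ (n : ℤ) : unitary B) : B) * (((w⁻¹ : unitary B) ^ (n : ℤ) : unitary B) : B) = 1 := by
      have : (w ^ (n : ℤ) : unitary B) * ((w⁻¹ : unitary B) ^ (n : ℤ) : unitary B) = 1 := by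
        rw [inv_zpow, mul_inv_cancel]
      have h6 := congrArg (fun z : unitary B => (z : B)) this
      exact h6
    rw [cut_at c θ hn, smul_mul_assoc, mul_assoc (ι ((α ^ (n : ℤ)) x)), e1, mul_one, map_smul, smul_comm, zpow_natCast]
  rw [h4, norm_smul, norm_inv, Complex.norm_real, norm_norm, NonUnitalStarAlgHom.norm_map ι hι, hK0,
    ENNReal.toReal_zero, Real.sqrt_zero, zero_add, inv_mul_le_iff₀ hx0] at h1
  linarith

end

end Pool.Agent.E8helper86.NS
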