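import Mathlib

/-! The Cauchy-Schwarz inequality for finite families in a C*-algebra. -/

set_option autoImplicit false

open Finset

namespace Pool.Agent.E8helper86.NS

open scoped ComplexOrder WithCStarModule

section
variable {A : Type*} [CStarAlgebra A] [PartialOrder A] [StarOrderedRing A]

theorem cs_fintype {ι : Type*} [Fintype ι] (x y : ι → A) :
    ‖∑ i, x i * y i‖ ≤ √‖∑ i, x i * star (x i)‖ * √‖∑ i, star (y i) * y i‖ := by
  have h := CStarModule.norm_inner_le (A := A) (C⋆ᵐᵒᵈ(A, ι → A))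
    (x := (WithCStarModule.equiv A (ι → A)).symm fun i => star (y i))
    (y := (WithCStarModule.equiv A (ι → A)).symm x)
  rw [WithCStarModule.pi_inner, WithCStarModule.pi_norm, WithCStarModule.pi_norm] at h
  simp only [WithCStarModule.inner_def] at h
  simp only [WithCStarModule.equiv_symm_pi_apply, star_star] at h
  rw [mul_comm] at h
  exact h

theorem cs_finset {ι : Type*} (s : Finset ι) (x y : ι → A) :
    ‖∑ i ∈ s, x i * y i‖ ≤ √‖∑ i ∈ s, x i * star (x i)‖ * √‖∑ i ∈ s, star (y i) * y i‖ := by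
  have h := cs_fintype (ι := s) (fun i => x i) (fun i => y i)
  rw [Finset.sum_coe_sort s (fun i => x i * y i), Finset.sum_coe_sort s (fun i => x i * star (x i)),
    Finset.sum_coe_sort s (fun i => star (y i) * y i)] at h
  exact h

/-- domination of the norms of sums of squares -/
theorem norm_sum_sq_mono {ι : Type*} (s t : Finset ι) (hst : s ⊆ t) (x y : ι → A)
    (h : ∀ i ∈ s, star (x i) * x i ≤ star (y i) * y i) :
    ‖∑ i ∈ s, star (x i) * x i‖ ≤ ‖∑ i ∈ t, star (y i) * y i‖ := by
  apply CStarAlgebra.norm_le_norm_of_nonneg_of_le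
  · exact Finset.sum_nonneg fun i _ => star_mul_self_nonneg (x i)
  · calc ∑ i ∈ s, star (x i) * x i ≤ ∑ i ∈ s, star (y i) * y i := Finset.sum_le_sum h
      _ ≤ ∑ i ∈ t, star (y i) * y i :=
          Finset.sum_le_sum_of_subset_of_nonneg hst fun i _ _ => star_mul_self_nonneg (y i)

/-- with an element in the middle -/
theorem cs_mid {ι : Type*} (s : Finset ι) (x y : ι → A) (a : A) :
    ‖∑ i ∈ s, x i * a * y i‖ ≤ ‖a‖ * (√‖∑ i ∈ s, x i * star (x i)‖ *
      √‖∑ i ∈ s, star (y i) * y i‖) := by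
  have h1 := cs_finset s x (fun i => a * y i)
  have h2 : ‖∑ i ∈ s, star (a * y i) * (a * y i)‖ ≤ ‖a‖ ^ 2 * ‖∑ i ∈ s, star (y i) * y i‖ := by
    have e : ‖a‖ ^ 2 * ‖∑ i ∈ s, star (y i) * y i‖ = ‖∑ i ∈ s, ((‖a‖ ^ 2 : ℝ) : ℂ) • (star (y i) * y i)‖ := by
      rw [← Finset.smul_sum, norm_smul, Complex.norm_real, Real.norm_of_nonneg (by positivity)]
    rw [e]
    apply CStarAlgebra.norm_le_norm_of_nonneg_of_le
    · exact Finset.sum_nonneg fun i _ => star_mul_self_nonneg _
    · refine Finset.sum_le_sum fun i _ => ?_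
      have h3 : star (y i) * (star a * a) * y i ≤ star (y i) * (algebraMap ℝ A (‖a‖ ^ 2)) * y i := by
        apply star_left_conjugate_le_conjugate
        have := IsSelfAdjoint.le_algebraMap_norm_self (a := star a * a) (IsSelfAdjoint.star_mul_self a)
        rwa [CStarRing.norm_star_mul_self, ← pow_two] at this
      have e1 : star (a * y i) * (a * y i) = star (y i) * (star a * a) * y i := by
        rw [star_mul]; simp only [mul_assoc]
      have e2 : ((‖a‖ ^ 2 : ℝ) : ℂ) • (star (y i) * y i) = star (y i) * (algebraMap ℝ A (‖a‖ ^ 2)) * y i := by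
        rw [Algebra.algebraMap_eq_smul_one, mul_smul_comm, mul_one, smul_mul_assoc]
        exact (Complex.coe_smul _ _)
      rw [e1, e2]
      exact h3
  have e0 : ∑ i ∈ s, x i * a * y i = ∑ i ∈ s, x i * (a * y i) :=
    Finset.sum_congr rfl fun i _ => mul_assoc _ _ _
  rw [e0]
  refine h1.trans ?_
  calc √‖∑ i ∈ s, x i * star (x i)‖ * √‖∑ i ∈ s, star (a * y i) * (a * y i)‖
      ≤ √‖∑ i ∈ s, x i * star (x i)‖ * √(‖a‖ ^ 2 * ‖∑ i ∈ s, star (y i) * y i‖) := by
        gcongr
    _ = _ := by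
        rw [Real.sqrt_mul (by positivity), Real.sqrt_sq (norm_nonneg _)]
        ring

end

end Pool.Agent.E8helper86.NS
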