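import Pool.Agent.E8helper86.NS.Fin

/-! Exponentials of self-adjoint elements with null spectrum. -/

set_option autoImplicit false

open MeasureTheory Topology Filter Finset

namespace Pool.Agent.E8helper86.NS

/-- the unitary `exp(ih)` has null spectrum if the self-adjoint `h` has -/
theorem exp_null {B : Type*} [CStarAlgebra B] (h : selfAdjoint B)
    (h0 : volume {s : ℝ | (s : ℂ) ∈ spectrum ℂ (h : B)} = 0) : volume (uspec (selfAdjoint.expUnitary h)) = 0 := by
  set S : Set ℝ := {s : ℝ | (s : ℂ) ∈ spectrum ℂ (h : B)} with hS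
  set T := uspec (selfAdjoint.expUnitary h) with hT
  have hTc : IsClosed T := (spectrum.isClosed _).preimage (fourier 1).continuous
  have hsub : ((fun r : ℝ => (r : UnitAddCircle)) ⁻¹' T) ⊆
      ⋃ k : ℤ, (fun r : ℝ => r + (-(k : ℝ))) ⁻¹' ((fun r : ℝ => 2 * Real.pi * r) ⁻¹' S) := by
    intro r hr
    have h1 : (fourier 1 (r : UnitAddCircle) : ℂ) ∈ spectrum ℂ (selfAdjoint.expUnitary h : B) := hr
    have hn : IsStarNormal (h : B) := inferInstance
    rw [selfAdjoint.expUnitary_coe, ← CFC.exp_eq_normedSpace_exp (𝕜 := ℂ), ← cfc_comp_smul Complex.I _ (h : B),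
      cfc_map_spectrum ..] at h1
    obtain ⟨z, hz, hz1⟩ := h1
    have hzr : z = ((z.re : ℝ) : ℂ) := by
      have := h.2.mem_spectrum_eq_re hz
      exact this
    have h2 : Complex.exp (Complex.I * z) = Complex.exp (2 * Real.pi * Complex.I * r) := by
      have h3 : (fourier 1 (r : UnitAddCircle) : ℂ) = Complex.exp (2 * Real.pi * Complex.I * r) := by
        rw [fourier_coe_apply]
        congr 1
        push_cast
        ring
      rw [← h3, ← hz1, Complex.exp_eq_exp_ℂ]
      rfl
    rw [Complex.exp_eq_exp_iff_exists_int] at h2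
    obtain ⟨k, hk⟩ := h2
    rw [Set.mem_iUnion]
    refine ⟨-k, ?_⟩
    show ((2 * Real.pi * (r + (-((-k : ℤ) : ℝ))) : ℝ) : ℂ) ∈ spectrum ℂ (h : B)
    have h4 : ((2 * Real.pi * (r + (-((-k : ℤ) : ℝ))) : ℝ) : ℂ) = z := by
      have h5 : Complex.I * z = Complex.I * ((2 * Real.pi * (r + (-((-k : ℤ) : ℝ))) : ℝ) : ℂ) := by
        rw [hk]
        push_cast
        ring
      exact (mul_left_cancel₀ Complex.I_ne_zero h5).symm
    rw [h4]
    exact hz
  have hnull : volume ((fun r : ℝ => (r : UnitAddCircle)) ⁻¹' T) = 0 := by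
    refine measure_mono_null hsub (measure_iUnion_null fun k => ?_)
    rw [measure_preimage_add_right, Real.volume_preimage_mul_left (by positivity), h0, mul_zero]
  have h6 := (AddCircle.measurePreserving_mk (1 : ℝ) 0).measure_preimage hTc.measurableSet.nullMeasurableSet
  rw [← h6]
  exact measure_mono_null (fun _ h => h) (Measure.restrict_apply_le_of_null hnull)
where
  Measure.restrict_apply_le_of_null {s t : Set ℝ} (h : volume s = 0) : (volume.restrict t) s = 0 :=
    nonpos_iff_eq_zero.1 ((Measure.restrict_apply_le _ _).trans h.le)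

end Pool.Agent.E8helper86.NS
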