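import Mathlib

/-! A lower bound for the number of squarefree numbers. -/

set_option autoImplicit false

open Finset

namespace Pool.Agent.E8helper86.NS

theorem sum_inv_sq (M : ℕ) (hM : 2 ≤ M) : ∑ b ∈ Icc 2 M, (1 : ℝ) / (b : ℝ) ^ 2 ≤ 3 / 4 - 1 / M := by
  induction M, hM using Nat.le_induction with
  | base => norm_num
  | succ M hM ih =>
    rw [sum_Icc_succ_top (by omega)]
    have hM0 : (2 : ℝ) ≤ M := by exact_mod_cast hM
    have h1 : (1 : ℝ) / ((M + 1 : ℕ) : ℝ) ^ 2 ≤ 1 / M - 1 / ((M + 1 : ℕ) : ℝ) := by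
      push_cast
      rw [div_sub_div _ _ (by positivity) (by positivity), div_le_div_iff₀ (by positivity) (by positivity)]
      nlinarith
    linarith

theorem sqf_count (N : ℕ) : (N : ℝ) / 4 ≤ ((Icc 1 N).filter Squarefree).card := by
  classical
  rcases Nat.lt_or_ge N 2 with h | h
  · interval_cases N
    · simp
    · have : (Icc 1 1).filter Squarefree = {1} := by
        ext n
        simp only [mem_filter, mem_Icc, mem_singleton]
        constructor
        · rintro ⟨⟨h1, h2⟩, -⟩; omega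
        · rintro rfl; exact ⟨⟨le_rfl, le_rfl⟩, squarefree_one⟩
      rw [this]
      norm_num
  have h1 : (Icc 1 N).filter (fun n => ¬ Squarefree n) ⊆ (Icc 2 N).biUnion fun b => (Ioc 0 N).filter fun n => b * b ∣ n := by
    intro n hn
    rw [mem_filter, mem_Icc] at hn
    obtain ⟨⟨hn1, hn2⟩, hn3⟩ := hn
    unfold Squarefree at hn3
    push Not at hn3
    obtain ⟨b, hb1, hb2⟩ := hn3
    rw [Nat.isUnit_iff] at hb2
    have hb0 : b ≠ 0 := by
      rintro rfl
      rw [zero_mul, zero_dvd_iff] at hb1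
      omega
    have hbn : b ≤ n := (Nat.le_mul_self b).trans (Nat.le_of_dvd (by omega) hb1)
    rw [mem_biUnion]
    refine ⟨b, by rw [mem_Icc]; omega, ?_⟩
    rw [mem_filter, mem_Ioc]
    exact ⟨⟨by omega, hn2⟩, hb1⟩
  have h2 : (((Icc 1 N).filter (fun n => ¬ Squarefree n)).card : ℝ) ≤ 3 / 4 * N := by
    calc (((Icc 1 N).filter (fun n => ¬ Squarefree n)).card : ℝ)
        ≤ (((Icc 2 N).biUnion fun b => (Ioc 0 N).filter fun n => b * b ∣ n).card : ℝ) := by
          exact_mod_cast card_le_card h1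
      _ ≤ ((∑ b ∈ Icc 2 N, ((Ioc 0 N).filter fun n => b * b ∣ n).card : ℕ) : ℝ) := by
          exact_mod_cast card_biUnion_le
      _ = ∑ b ∈ Icc 2 N, ((N / (b * b) : ℕ) : ℝ) := by
          push_cast
          refine sum_congr rfl fun b _ => ?_
          rw [Nat.Ioc_filter_dvd_card_eq_div]
      _ ≤ ∑ b ∈ Icc 2 N, (N : ℝ) * (1 / (b : ℝ) ^ 2) := by
          refine sum_le_sum fun b _ => ?_
          refine (Nat.cast_div_le).trans (le_of_eq ?_)
          push_cast
          ring
      _ = N * ∑ b ∈ Icc 2 N, (1 : ℝ) / (b : ℝ) ^ 2 := (mul_sum _ _ _).symm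
      _ ≤ N * (3 / 4) := by
          gcongr
          refine (sum_inv_sq N h).trans ?_
          have : (0 : ℝ) ≤ 1 / N := by positivity
          linarith
      _ = 3 / 4 * N := mul_comm _ _
  have h3 := card_filter_add_card_filter_not (s := Icc 1 N) Squarefree
  rw [Nat.card_Icc, Nat.add_sub_cancel] at h3
  have h4 : (((Icc 1 N).filter Squarefree).card : ℝ) + ((Icc 1 N).filter (fun n => ¬ Squarefree n)).card = N := by
    exact_mod_cast h3
  linarith

theorem mob_sq (N : ℕ) : (N : ℝ) / 4 ≤ ∑ n ∈ Icc 1 N, ‖((ArithmeticFunction.moebius n : ℤ) : ℂ)‖ ^ 2 := by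
  classical
  refine (sqf_count N).trans (le_of_eq ?_)
  rw [card_filter]
  push_cast
  refine sum_congr rfl fun n _ => ?_
  split_ifs with h
  · rw [ArithmeticFunction.moebius_apply_of_squarefree h]
    simp
  · rw [ArithmeticFunction.moebius_eq_zero_of_not_squarefree h]
    simp

end Pool.Agent.E8helper86.NS
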