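import Pool.Agent.E8helper86.NS.Cons
import Pool.Agent.E8helper86.NS.Exp
import Pool.Agent.E8helper86.NS.Sq

/-! The characterization of the null sets. -/

set_option autoImplicit false

open MeasureTheory Topology Filter Finset
open scoped InnerProductSpace ENNReal

namespace Pool.Agent.E8helper86.NS

open Pool.Agent.Y958.U (LZ)

theorem vol_nu : (volume : Measure UnitAddCircle) = ν := by
  rw [AddCircle.volume_eq_smul_haarAddCircle, ENNReal.ofReal_one, one_smul]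

/-- the unit vector -/
noncomputable def unitInd {K : Set UnitAddCircle} (hK : IsClosed K) : L2T := ((√(ν.real K))⁻¹ : ℂ) • ind hK

theorem unitInd_norm {K : Set UnitAddCircle} (hK : IsClosed K) (hm : 0 < ν.real K) : ‖unitInd hK‖ = 1 := by
  have h1 : ‖ind hK‖ = √(ν.real K) := by rw [← ind_norm hK, Real.sqrt_sq (norm_nonneg _)]
  have h2 : 0 < √(ν.real K) := Real.sqrt_pos.2 hm
  unfold unitInd
  rw [norm_smul, h1, norm_inv, Complex.norm_real, Real.norm_of_nonneg h2.le, inv_mul_cancel₀ h2.ne']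

/-- the asymptotic formula -/
theorem sharp_asym {K : Set UnitAddCircle} (hK : IsClosed K) (x₀ : UnitAddCircle) (hm : 0 < ν.real K) {E : Set ℕ}
    {c : ℕ → ℂ} (hc : ∀ n, ‖c n‖ ≤ 1) (hE : CorrZero E c) (ε : ℝ) (hε : 0 < ε) :
    ∀ᶠ N : ℕ in Lf E, ‖∑ n ∈ Icc 1 N, c n * ⟪unitInd hK, ((wop hK x₀ : L2T →L[ℂ] L2T) ^ n *
      fmul (bb c) (bb_le hc) * (star (wop hK x₀ : L2T →L[ℂ] L2T)) ^ n) (unitInd hK)⟫_ℂ -
      ((ν.real K * ∑ n ∈ Icc 1 N, ‖c n‖ ^ 2 : ℝ) : ℂ)‖ ≤ ε * N := by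
  filter_upwards [sharp_auto hK x₀ hm hc hE ε hε] with N hN
  set m := ν.real K with hmd
  have h2 : 0 < √m := Real.sqrt_pos.2 hm
  have h3 : √m * √m = m := Real.mul_self_sqrt hm.le
  have hmC : (m : ℂ) ≠ 0 := by exact_mod_cast hm.ne'
  have h1 : ∑ n ∈ Icc 1 N, c n * ⟪unitInd hK, ((wop hK x₀ : L2T →L[ℂ] L2T) ^ n *
      fmul (bb c) (bb_le hc) * (star (wop hK x₀ : L2T →L[ℂ] L2T)) ^ n) (unitInd hK)⟫_ℂ =
      (m : ℂ)⁻¹ * ⟪ind hK, (∑ n ∈ Icc 1 N, c n • ((wop hK x₀ : L2T →L[ℂ] L2T) ^ n *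
      fmul (bb c) (bb_le hc) * (star (wop hK x₀ : L2T →L[ℂ] L2T)) ^ n)) (ind hK)⟫_ℂ := by
    rw [_root_.sum_apply, inner_sum, Finset.mul_sum]
    refine Finset.sum_congr rfl fun n _ => ?_
    rw [_root_.smul_apply, inner_smul_right]
    unfold unitInd
    rw [map_smul, inner_smul_left, inner_smul_right]
    have h4 : (starRingEnd ℂ) ((√m : ℂ))⁻¹ * ((√m : ℂ))⁻¹ = (m : ℂ)⁻¹ := by
      rw [map_inv₀, Complex.conj_ofReal, ← mul_inv, ← Complex.ofReal_mul, h3]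
    rw [← h4]
    ring
  have h5 : ((m * ∑ n ∈ Icc 1 N, ‖c n‖ ^ 2 : ℝ) : ℂ) = (m : ℂ)⁻¹ * ((m ^ 2 * ∑ n ∈ Icc 1 N, ‖c n‖ ^ 2 : ℝ) : ℂ) := by
    push_cast
    field_simp
  rw [h1, h5, ← mul_sub, norm_mul, norm_inv, Complex.norm_real, Real.norm_of_nonneg hm.le]
  calc m⁻¹ * _ ≤ m⁻¹ * (ε * m * N) := mul_le_mul_of_nonneg_left hN (by positivity)
    _ = ε * N := by field_simp

theorem log_sq (X : ℕ) :
    (Real.log X - 1) / 4 ≤ ∑ n ∈ Icc 1 X, ‖((ArithmeticFunction.moebius n : ℤ) : ℂ)‖ ^ 2 / n := by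
  rw [Pool.Agent.Y958.U.abel_log (fun n => ‖((ArithmeticFunction.moebius n : ℤ) : ℂ)‖ ^ 2) X]
  have h1 : ∑ N ∈ Icc 1 X, (1 : ℝ) / (4 * (N + 1)) ≤ ∑ N ∈ Icc 1 X,
      (∑ n ∈ Icc 1 N, ‖((ArithmeticFunction.moebius n : ℤ) : ℂ)‖ ^ 2) * (1 / ((N : ℝ) * (N + 1))) := by
    refine Finset.sum_le_sum fun N hN => ?_
    have hN0 : (0 : ℝ) < N := by exact_mod_cast (mem_Icc.1 hN).1
    calc (1 : ℝ) / (4 * (N + 1)) = (N : ℝ) / 4 * (1 / ((N : ℝ) * (N + 1))) := by field_simp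
      _ ≤ _ := by
          gcongr
          exact mob_sq N
  have h2 : 0 ≤ (∑ n ∈ Icc 1 X, ‖((ArithmeticFunction.moebius n : ℤ) : ℂ)‖ ^ 2) / ((X : ℝ) + 1) :=
    div_nonneg (Finset.sum_nonneg fun _ _ => by positivity) (by positivity)
  have h3 : (Real.log X - 1) / 4 ≤ ∑ N ∈ Icc 1 X, (1 : ℝ) / (4 * (N + 1)) := by
    have h4 : ∑ N ∈ Icc 1 X, (1 : ℝ) / (4 * (N + 1)) = (∑ N ∈ Icc 1 X, (1 : ℝ) / ((N : ℝ) + 1)) / 4 := by
      rw [Finset.sum_div]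
      refine Finset.sum_congr rfl fun N _ => ?_
      field_simp
    rw [h4]
    have h5 := log_add_one_le_harmonic X
    rw [harmonic_eq_sum_Icc] at h5
    push_cast at h5
    have h6 : ∑ N ∈ Icc 1 X, ((N : ℝ))⁻¹ ≤ 1 + ∑ N ∈ Icc 1 X, (1 : ℝ) / ((N : ℝ) + 1) := by
      have h7 : ∑ N ∈ Icc 1 (X + 1), ((N : ℝ))⁻¹ = 1 + ∑ N ∈ Icc 1 X, (1 : ℝ) / ((N : ℝ) + 1) := by
        clear h1 h2 h4 h5
        induction X with
        | zero => simp
        | succ X ih =>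
          rw [Finset.sum_Icc_succ_top (by omega), ih, Finset.sum_Icc_succ_top (by omega)]
          push_cast
          rw [one_div, add_assoc]
      rw [← h7]
      exact Finset.sum_le_sum_of_subset_of_nonneg (Finset.Icc_subset_Icc_right (by omega)) fun _ _ _ => by positivity
    have h8 : Real.log X ≤ Real.log ((X : ℝ) + 1) := by
      rcases Nat.eq_zero_or_pos X with rfl | hX
      · simp
      · exact Real.log_le_log (by exact_mod_cast hX) (by linarith)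
    linarith
  linarith

/-- the logarithmic means do not tend to zero if the measure is positive -/
theorem log_fail {K : Set UnitAddCircle} (hK : IsClosed K) (x₀ : UnitAddCircle) (hm : 0 < ν.real K) {E : Set ℕ}
    (hLZ : LZ E) (hE : CorrZero E (fun n => ((ArithmeticFunction.moebius n : ℤ) : ℂ)))
    (hc : ∀ n, ‖((ArithmeticFunction.moebius n : ℤ) : ℂ)‖ ≤ 1) :
    ∀ᶠ X : ℕ in atTop, ν.real K / 16 * Real.log X ≤ ‖∑ n ∈ Icc 1 X, ((ArithmeticFunction.moebius n : ℤ) : ℂ) / n *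
      ⟪unitInd hK, ((wop hK x₀ : L2T →L[ℂ] L2T) ^ n *
      fmul (bb (fun n => ((ArithmeticFunction.moebius n : ℤ) : ℂ))) (bb_le hc) *
        (star (wop hK x₀ : L2T →L[ℂ] L2T)) ^ n) (unitInd hK)⟫_ℂ‖ := by
  set m := ν.real K with hmd
  have hm1 : m ≤ 1 := by
    rw [hmd, measureReal_def]
    exact ENNReal.toReal_le_of_le_ofReal zero_le_one (by simpa using prob_le_one)
  set c : ℕ → ℂ := fun n => ((ArithmeticFunction.moebius n : ℤ) : ℂ) with hcd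
  set F : ℕ → ℂ := fun n => ⟪unitInd hK, ((wop hK x₀ : L2T →L[ℂ] L2T) ^ n *
      fmul (bb c) (bb_le hc) * (star (wop hK x₀ : L2T →L[ℂ] L2T)) ^ n) (unitInd hK)⟫_ℂ with hF
  have hu := unitInd_norm hK hm
  have hwn : ∀ n : ℕ, ‖(wop hK x₀ : L2T →L[ℂ] L2T) ^ n‖ ≤ 1 := fun n => by
    have h := norm_zpow_le (wop hK x₀) (n : ℤ)
    rw [zpow_natCast] at h
    exact h
  have hF1 : ∀ n, ‖F n‖ ≤ 1 := by
    intro n
    rw [hF]
    simp only
    refine (norm_inner_le_norm _ _).trans ?_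
    rw [hu, one_mul]
    refine (ContinuousLinearMap.le_opNorm _ _).trans ?_
    rw [hu, mul_one]
    refine (norm_mul_le _ _).trans ?_
    have h1 : ‖(star (wop hK x₀ : L2T →L[ℂ] L2T)) ^ n‖ ≤ 1 := by
      have h := norm_zpow_le (wop hK x₀)⁻¹ (n : ℤ)
      rw [zpow_natCast] at h
      exact h
    have h2 : ‖(wop hK x₀ : L2T →L[ℂ] L2T) ^ n * fmul (bb c) (bb_le hc)‖ ≤ 1 :=
      (norm_mul_le _ _).trans (mul_le_one₀ (hwn n) (norm_nonneg _) (fmul_norm _ _))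
    exact mul_le_one₀ h2 (norm_nonneg _) h1
  obtain ⟨N₀, hN₀⟩ := ev_Lf.1 (sharp_asym hK x₀ hm hc hE (m / 64) (by positivity))
  obtain ⟨X₀, hX₀⟩ := log_unif.{0} hLZ (m / 128) (by positivity) N₀
  have hlog : Tendsto (fun X : ℕ => Real.log X) atTop atTop :=
    Real.tendsto_log_atTop.comp tendsto_natCast_atTop_atTop
  filter_upwards [eventually_ge_atTop X₀, hlog.eventually_ge_atTop 4] with X hX hX4
  have h1 := hX₀ X hX ℂ (fun n => c n * F n - ((m * ‖c n‖ ^ 2 : ℝ) : ℂ)) 2 (by norm_num) (fun n => by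
      refine (norm_sub_le _ _).trans ?_
      have h2 : ‖c n * F n‖ ≤ 1 := by
        rw [norm_mul]; exact mul_le_one₀ (hc n) (norm_nonneg _) (hF1 n)
      have h3 : ‖((m * ‖c n‖ ^ 2 : ℝ) : ℂ)‖ ≤ 1 := by
        rw [Complex.norm_real, Real.norm_of_nonneg (by positivity)]
        exact mul_le_one₀ hm1 (by positivity) (pow_le_one₀ (norm_nonneg _) (hc n))
      linarith) (fun N hN hNE => by
      have h4 := hN₀ N hN hNE
      rw [Finset.sum_sub_distrib, ← Complex.ofReal_sum, ← Finset.mul_sum]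
      refine h4.trans (le_of_eq ?_)
      ring)
  have h5 : ∑ n ∈ Icc 1 X, ((1 / (n : ℝ) : ℝ) : ℂ) • (c n * F n - ((m * ‖c n‖ ^ 2 : ℝ) : ℂ)) =
      ∑ n ∈ Icc 1 X, c n / n * F n - ((m * ∑ n ∈ Icc 1 X, ‖c n‖ ^ 2 / n : ℝ) : ℂ) := by
    rw [Finset.mul_sum, Complex.ofReal_sum, ← Finset.sum_sub_distrib]
    refine Finset.sum_congr rfl fun n _ => ?_
    rw [smul_eq_mul]
    push_cast
    ring
  rw [h5] at h1
  have h6 := log_sq X
  have h7 : m * ∑ n ∈ Icc 1 X, ‖c n‖ ^ 2 / n ≤ ‖∑ n ∈ Icc 1 X, c n / n * F n‖ +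
      ‖∑ n ∈ Icc 1 X, c n / n * F n - ((m * ∑ n ∈ Icc 1 X, ‖c n‖ ^ 2 / n : ℝ) : ℂ)‖ := by
    have h8 : ‖((m * ∑ n ∈ Icc 1 X, ‖c n‖ ^ 2 / n : ℝ) : ℂ)‖ = m * ∑ n ∈ Icc 1 X, ‖c n‖ ^ 2 / n := by
      rw [Complex.norm_real, Real.norm_of_nonneg]
      exact mul_nonneg hm.le (Finset.sum_nonneg fun _ _ => by positivity)
    have := norm_sub_le (∑ n ∈ Icc 1 X, c n / n * F n)
      (∑ n ∈ Icc 1 X, c n / n * F n - ((m * ∑ n ∈ Icc 1 X, ‖c n‖ ^ 2 / n : ℝ) : ℂ))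
    rw [sub_sub_cancel] at this
    exact h8.symm.le.trans this
  have h9 : m * ((Real.log X - 1) / 4) ≤ m * ∑ n ∈ Icc 1 X, ‖c n‖ ^ 2 / n := mul_le_mul_of_nonneg_left h6 hm.le
  have h10 : 0 ≤ m * (Real.log X - 4) := mul_nonneg hm.le (by linarith)
  nlinarith

end Pool.Agent.E8helper86.NS
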