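import Pool.Agent.E8helper86.NS.Det

/-! Trigonometric polynomials of small mean square which are at least one near a closed set. -/

set_option autoImplicit false

open Finset MeasureTheory Set Topology

namespace Pool.Agent.E8helper86.NS

theorem trig_cont (S : Finset ℤ) (l : ℤ → ℂ) : Continuous (trig S l) := by
  unfold trig
  fun_prop

/-- Parseval for trigonometric polynomials -/
theorem trig_parseval (S : Finset ℤ) (l : ℤ → ℂ) :
    ∑ k ∈ S, ‖l k‖ ^ 2 = ∫ x, ‖trig S l x‖ ^ 2 ∂(AddCircle.haarAddCircle (T := 1)) := by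
  have hF : ∀ d : ℤ, ∫ x, (fourier d x : ℂ) ∂(AddCircle.haarAddCircle (T := 1)) = if d = 0 then 1 else 0 := by
    intro d
    have h := (orthonormal_iff_ite.1 (orthonormal_fourier (T := 1))) 0 d
    rw [ContinuousMap.inner_toLp] at h
    simp_rw [← fourier_neg, ← fourier_add] at h
    simp only [neg_zero, add_zero] at h
    rw [h]
    simp [eq_comm]
  have h1 : ∀ x : UnitAddCircle, ((‖trig S l x‖ ^ 2 : ℝ) : ℂ) =
      ∑ k ∈ S, ∑ k' ∈ S, (l k * star (l k')) * (fourier (k - k') x : ℂ) := by
    intro x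
    rw [← Complex.normSq_eq_norm_sq, ← Complex.mul_conj]
    unfold trig
    rw [map_sum, Finset.sum_mul_sum]
    refine Finset.sum_congr rfl fun k _ => Finset.sum_congr rfl fun k' _ => ?_
    rw [map_mul, ← fourier_neg, sub_eq_add_neg, fourier_add, Complex.star_def]
    ring
  have h2 : ((∫ x, ‖trig S l x‖ ^ 2 ∂(AddCircle.haarAddCircle (T := 1)) : ℝ) : ℂ) =
      ∑ k ∈ S, ∑ k' ∈ S, (l k * star (l k')) * if k - k' = 0 then 1 else 0 := by
    rw [← integral_complex_ofReal]
    simp_rw [h1]
    have hint : ∀ k k' : ℤ, Integrable (fun x : UnitAddCircle => (l k * star (l k')) * (fourier (k - k') x : ℂ))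
        (AddCircle.haarAddCircle (T := 1)) := fun k k' => by
      apply Continuous.integrable_of_hasCompactSupport
      · fun_prop
      · exact HasCompactSupport.of_compactSpace _
    rw [integral_finsetSum _ fun k _ => integrable_finsetSum _ fun k' _ => hint k k']
    refine Finset.sum_congr rfl fun k _ => ?_
    rw [integral_finsetSum _ fun k' _ => hint k k']
    refine Finset.sum_congr rfl fun k' _ => ?_
    rw [integral_const_mul, hF]
  have h3 : ∑ k ∈ S, ∑ k' ∈ S, ((l k * star (l k')) * if k - k' = 0 then 1 else 0) =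
      ((∑ k ∈ S, ‖l k‖ ^ 2 : ℝ) : ℂ) := by
    push_cast
    refine Finset.sum_congr rfl fun k hk => ?_
    rw [Finset.sum_eq_single_of_mem k hk]
    · rw [sub_self, if_pos rfl, mul_one, Complex.star_def, Complex.mul_conj, Complex.normSq_eq_norm_sq]
      push_cast
      rfl
    · intro k' _ hne
      rw [if_neg (sub_ne_zero.2 hne.symm), mul_zero]
  rw [h3] at h2
  exact_mod_cast h2.symm

theorem exists_trig (g : C(UnitAddCircle, ℂ)) {ε : ℝ} (hε : 0 < ε) :
    ∃ (S : Finset ℤ) (l : ℤ → ℂ), ∀ x, ‖trig S l x - g x‖ ≤ ε := by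
  have h1 : g ∈ (Submodule.span ℂ (Set.range (@fourier 1))).topologicalClosure := by
    rw [span_fourier_closure_eq_top]
    exact Submodule.mem_top
  have h2 : g ∈ closure (Submodule.span ℂ (Set.range (@fourier 1)) : Set C(UnitAddCircle, ℂ)) := h1
  obtain ⟨p, hp, hpg⟩ := Metric.mem_closure_iff.1 h2 ε hε
  obtain ⟨c, rfl⟩ := (Finsupp.mem_span_range_iff_exists_finsupp).1 hp
  refine ⟨c.support, c, fun x => ?_⟩
  rw [dist_comm] at hpg
  have h3 := (ContinuousMap.dist_apply_le_dist (f := c.sum fun i a => a • (fourier i : C(UnitAddCircle, ℂ))) (g := g) x).trans hpg.le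
  rw [dist_eq_norm] at h3
  have h4 : (c.sum fun i a => a • (fourier i : C(UnitAddCircle, ℂ))) x = trig c.support c x := by
    unfold Finsupp.sum trig
    rw [ContinuousMap.sum_apply]
    rfl
  rw [h4] at h3
  exact h3

/-- the trigonometric polynomial for a closed set -/
theorem exists_near (K : Set UnitAddCircle) (hK : IsClosed K) {ε : ℝ} (hε : 0 < ε) :
    ∃ (S : Finset ℤ) (l : ℤ → ℂ) (δ : ℝ), 0 < δ ∧
      ∑ k ∈ S, ‖l k‖ ^ 2 ≤ (volume K).toReal + ε ∧
      ∀ x : UnitAddCircle, ∀ y ∈ K, ‖x - y‖ < δ → 1 ≤ ‖trig S l x‖ := by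
  wlog hε1 : ε ≤ 1 generalizing ε
  · obtain ⟨S, l, δ, h1, h2, h3⟩ := this (ε := 1) one_pos le_rfl
    exact ⟨S, l, δ, h1, by linarith [not_le.1 hε1], h3⟩
  have hvol : (volume : Measure UnitAddCircle) = AddCircle.haarAddCircle (T := 1) := by
    rw [AddCircle.volume_eq_smul_haarAddCircle, ENNReal.ofReal_one, one_smul]
  rw [hvol]
  set ν := (AddCircle.haarAddCircle (T := 1)) with hν
  set m := (ν K).toReal with hm
  have hm0 : 0 ≤ m := ENNReal.toReal_nonneg
  have hm1 : m ≤ 1 := by
    rw [hm]
    exact ENNReal.toReal_le_of_le_ofReal zero_le_one (by simpa using prob_le_one)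
  have hKr : ν K < ENNReal.ofReal (m + ε / 4) := by
    rw [ENNReal.lt_ofReal_iff_toReal_lt (measure_ne_top _ _)]
    linarith
  obtain ⟨U, hKU, hU, hUm⟩ := K.exists_isOpen_lt_of_lt _ hKr
  obtain ⟨f, hf0, hf1, hf01⟩ := exists_continuous_zero_one_of_isClosed hU.isClosed_compl hK
    (by rw [Set.disjoint_compl_left_iff_subset]; exact hKU)
  set t : ℝ := ε / 40 with ht
  have ht0 : 0 < t := by positivity
  set g : C(UnitAddCircle, ℂ) := ⟨fun x => (((1 + 2 * t) * f x : ℝ) : ℂ), by fun_prop⟩ with hg
  obtain ⟨S, l, hS⟩ := exists_trig g ht0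
  have hgn : ∀ x, ‖g x‖ = (1 + 2 * t) * f x := by
    intro x
    rw [hg, ContinuousMap.coe_mk, Complex.norm_real, Real.norm_of_nonneg]
    have := (hf01 x).1
    positivity
  have hup : ∀ x, ‖trig S l x‖ ≤ (1 + 2 * t) * f x + t := by
    intro x
    have h1 : ‖trig S l x‖ ≤ ‖trig S l x - g x‖ + ‖g x‖ := by
      simpa using norm_add_le (trig S l x - g x) (g x)
    have := hS x
    rw [hgn] at h1
    linarith
  have hlow : ∀ x ∈ K, 1 < ‖trig S l x‖ := by
    intro x hx
    have h1 : ‖g x‖ ≤ ‖trig S l x - g x‖ + ‖trig S l x‖ := by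
      have := norm_sub_norm_le (g x) (trig S l x)
      rw [norm_sub_rev] at this
      linarith
    have h2 := hS x
    rw [hgn] at h1
    have h3 : f x = 1 := hf1 hx
    rw [h3] at h1
    linarith
  -- the neighbourhood
  have hVo : IsOpen {x : UnitAddCircle | 1 < ‖trig S l x‖} := isOpen_lt continuous_const (trig_cont S l).norm
  obtain ⟨δ, hδ, hth⟩ := hK.isCompact.exists_thickening_subset_open hVo hlow
  refine ⟨S, l, δ, hδ, ?_, ?_⟩
  · rw [trig_parseval]
    have hUR : (ν U).toReal ≤ m + ε / 4 := by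
      exact ENNReal.toReal_le_of_le_ofReal (by positivity) hUm.le
    have h1 : ∀ x, ‖trig S l x‖ ^ 2 ≤ U.indicator (fun _ => (1 + 3 * t) ^ 2) x + t ^ 2 := by
      intro x
      by_cases hx : x ∈ U
      · rw [indicator_of_mem hx]
        have h2 := hup x
        have h3 := (hf01 x).2
        have h4 : ‖trig S l x‖ ≤ 1 + 3 * t := by nlinarith
        have := pow_le_pow_left₀ (norm_nonneg _) h4 2
        nlinarith [sq_nonneg t]
      · rw [indicator_of_notMem hx, zero_add]
        have h2 := hup x
        have h3 : f x = 0 := hf0 hx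
        rw [h3] at h2
        exact pow_le_pow_left₀ (norm_nonneg _) (by linarith) 2
    calc ∫ x, ‖trig S l x‖ ^ 2 ∂ν ≤ ∫ x, (U.indicator (fun _ => (1 + 3 * t) ^ 2) x + t ^ 2) ∂ν := by
          apply integral_mono
          · apply Continuous.integrable_of_hasCompactSupport
            · exact (trig_cont S l).norm.pow 2
            · exact HasCompactSupport.of_compactSpace _
          · exact ((integrable_const _).indicator hU.measurableSet).add (integrable_const _)
          · exact h1
      _ = (1 + 3 * t) ^ 2 * (ν U).toReal + t ^ 2 := by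
          rw [integral_add ((integrable_const _).indicator hU.measurableSet) (integrable_const _),
            integral_indicator hU.measurableSet]
          simp only [integral_const, smul_eq_mul, Measure.restrict_apply_univ, measure_univ,
            one_mul, measureReal_def, ENNReal.toReal_one]
          ring
      _ ≤ (1 + 3 * t) ^ 2 * (m + ε / 4) + t ^ 2 := by gcongr
      _ ≤ m + ε := by
          have e : ε = 40 * t := by rw [ht]; ring
          have ht1 : t ≤ 1 / 40 := by rw [ht]; linarith
          rw [e]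
          nlinarith [mul_nonneg ht0.le hm0, mul_nonneg (mul_nonneg ht0.le ht0.le) hm0,
            mul_nonneg ht0.le (sub_nonneg.2 hm1), mul_nonneg (mul_nonneg ht0.le ht0.le) (sub_nonneg.2 hm1),
            mul_nonneg ht0.le (sub_nonneg.2 ht1), mul_nonneg (mul_nonneg ht0.le ht0.le) (sub_nonneg.2 ht1)]
  · intro x y hy hxy
    have h1 : x ∈ Metric.thickening δ K := by
      rw [Metric.mem_thickening_iff]
      exact ⟨y, hy, by rwa [dist_eq_norm]⟩
    exact (hth h1).le

end Pool.Agent.E8helper86.NS
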