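import Pool.Agent.E8helper86.NS.Fin

/-! Consequences for automorphisms and for covariant representations. -/

set_option autoImplicit false

open MeasureTheory Topology Filter Finset
open scoped InnerProductSpace ENNReal

namespace Pool.Agent.E8helper86.NS

open Pool.Agent.Y958.U (LZ)

universe u v

theorem uspec_closed {B : Type*} [CStarAlgebra B] (w : unitary B) : IsClosed (uspec w) :=
  (spectrum.isClosed (w : B)).preimage (fourier 1).continuous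

/-- the sum of `c n e(nθ) αⁿ(x)` -/
noncomputable def twa {A : Type u} [NonUnitalCStarAlgebra A] (c : ℕ → ℂ) (θ : ℝ) (α : A ≃⋆ₐ[ℂ] A) (x : A)
    (N : ℕ) : A :=
  ∑ n ∈ Icc 1 N, (c n * Complex.exp (2 * Real.pi * Complex.I * n * θ)) • (α ^ n) x

/-- the logarithmic sum -/
noncomputable def twl {A : Type u} [NonUnitalCStarAlgebra A] (c : ℕ → ℂ) (θ : ℝ) (α : A ≃⋆ₐ[ℂ] A) (x : A)
    (N : ℕ) : A :=
  ∑ n ∈ Icc 1 N, (c n * Complex.exp (2 * Real.pi * Complex.I * n * θ) / n) • (α ^ n) x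

theorem norm_exp_one (n : ℕ) (θ : ℝ) : ‖Complex.exp (2 * Real.pi * Complex.I * n * θ)‖ = 1 := by
  rw [← exp_fourier]
  exact norm_fourier _ _

theorem auto_pow {A : Type u} [NonUnitalCStarAlgebra A] {B : Type v} [CStarAlgebra B] {α : A ≃⋆ₐ[ℂ] A}
    {ι : A →⋆ₙₐ[ℂ] B} {w : unitary B} (h : ∀ x, ι (α x) = (w : B) * ι x * star (w : B)) (n : ℕ) (x : A) :
    ι ((α ^ n) x) = (w : B) ^ n * ι x * star (w : B) ^ n := by
  induction n generalizing x with
  | zero => simp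
  | succ n ih =>
    rw [pow_succ' α n, pow_succ' (w : B) n, pow_succ (star (w : B)) n]
    show ι (α ((α ^ n) x)) = _
    rw [h, ih]
    simp only [mul_assoc]

theorem norm_auto {A : Type u} [NonUnitalCStarAlgebra A] (α : A ≃⋆ₐ[ℂ] A) (n : ℕ) (x : A) : ‖(α ^ n) x‖ = ‖x‖ := by
  induction n generalizing x with
  | zero => rfl
  | succ n ih =>
    rw [pow_succ' α n]
    show ‖α ((α ^ n) x)‖ = ‖x‖
    rw [NonUnitalStarAlgHom.norm_map α α.injective, ih]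

/-- (C) automorphisms implemented by a unitary with null spectrum -/
theorem auto_part (K : Set UnitAddCircle) (hK : IsClosed K) (hK0 : volume K = 0) {E : Set ℕ} {c : ℕ → ℂ}
    (hc : ∀ n, ‖c n‖ ≤ 1) (hE : CorrZero E c) (ε : ℝ) (hε : 0 < ε) :
    ∀ᶠ N : ℕ in Lf E, ∀ (A : Type u) [NonUnitalCStarAlgebra A] (B : Type v) [CStarAlgebra B] (α : A ≃⋆ₐ[ℂ] A)
      (ι : A →⋆ₙₐ[ℂ] B) (w : unitary B), Function.Injective ι →
      (∀ x, ι (α x) = (w : B) * ι x * star (w : B)) → uspec w ⊆ K → ∀ (x : A) (θ : ℝ),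
      ‖twa c θ α x N‖ ≤ ε * N * ‖x‖ := by
  filter_upwards [norm_both.{v} K hK hc hE ε hε] with N hN A _ B _ α ι w hι h hw x θ
  have h1 := (hN B w w⁻¹ (ι x) θ hw).1
  have h2 : sand c θ w w⁻¹ (ι x) N = ι (twa c θ α x N) := by
    unfold sand twa
    rw [map_sum]
    refine Finset.sum_congr rfl fun n _ => ?_
    rw [map_smul, auto_pow h]
    rfl
  rw [h2, NonUnitalStarAlgHom.norm_map ι hι, NonUnitalStarAlgHom.norm_map ι hι, hK0, ENNReal.toReal_zero,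
    Real.sqrt_zero, zero_add] at h1
  exact h1

/-- from natural to logarithmic sums -/
theorem twl_of {E : Set ℕ} (hLZ : LZ E) (ε : ℝ) (hε : 0 < ε) (N₀ : ℕ) :
    ∃ X₀ : ℕ, ∀ X ≥ X₀, ∀ (A : Type u) [NonUnitalCStarAlgebra A] (α : A ≃⋆ₐ[ℂ] A) (c : ℕ → ℂ) (x : A) (θ : ℝ),
      (∀ n, ‖c n‖ ≤ 1) → (∀ N ≥ N₀, N ∉ E → ‖twa c θ α x N‖ ≤ ε / 4 * N * ‖x‖) →
      ‖twl c θ α x X‖ ≤ ε * Real.log X * ‖x‖ := by
  obtain ⟨X₀, h⟩ := log_unif.{u} hLZ (ε / 4) (by positivity) N₀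
  refine ⟨X₀, fun X hX A _ α c x θ hc h1 => ?_⟩
  have h2 := h X hX A (fun n => (c n * Complex.exp (2 * Real.pi * Complex.I * n * θ)) • (α ^ n) x) ‖x‖ (norm_nonneg _)
    (fun n => by
      rw [norm_smul, norm_mul, norm_exp_one, mul_one, norm_auto]
      exact mul_le_of_le_one_left (norm_nonneg _) (hc n)) h1
  have h3 : twl c θ α x X = ∑ n ∈ Icc 1 X, ((1 / (n : ℝ) : ℝ) : ℂ) •
      ((c n * Complex.exp (2 * Real.pi * Complex.I * n * θ)) • (α ^ n) x) := by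
    unfold twl
    refine Finset.sum_congr rfl fun n _ => ?_
    rw [smul_smul]
    congr 1
    push_cast
    ring
  rw [h3]
  refine h2.trans (le_of_eq ?_)
  ring

/-- the same for a family of functionals: the two kinds of averages -/
theorem fun_tend {E : Set ℕ} {A : Type u} [NonUnitalCStarAlgebra A] {α : A ≃⋆ₐ[ℂ] A} {c : ℕ → ℂ} {x : A}
    (h1 : ∀ ε : ℝ, 0 < ε → ∀ᶠ N : ℕ in Lf E, ‖twa c 0 α x N‖ ≤ ε * N * ‖x‖)
    (h2 : ∀ ε : ℝ, 0 < ε → ∀ᶠ X : ℕ in atTop, ‖twl c 0 α x X‖ ≤ ε * Real.log X * ‖x‖) (ρ : A →L[ℂ] ℂ) :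
    Tendsto (fun N : ℕ => (1 / (N : ℂ)) * ∑ n ∈ Icc 1 N, c n * ρ ((α ^ n) x)) (Lf E) (𝓝 0) ∧
    Tendsto (fun X : ℕ => (1 / (Real.log X : ℂ)) * ∑ n ∈ Icc 1 X, c n / n * ρ ((α ^ n) x)) atTop (𝓝 0) := by
  have e1 : ∀ N, ∑ n ∈ Icc 1 N, c n * ρ ((α ^ n) x) = ρ (twa c 0 α x N) := by
    intro N
    unfold twa
    rw [map_sum]
    refine Finset.sum_congr rfl fun n _ => ?_
    rw [map_smul, smul_eq_mul]
    simp
  have e2 : ∀ N, ∑ n ∈ Icc 1 N, c n / n * ρ ((α ^ n) x) = ρ (twl c 0 α x N) := by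
    intro N
    unfold twl
    rw [map_sum]
    refine Finset.sum_congr rfl fun n _ => ?_
    rw [map_smul, smul_eq_mul]
    simp
  have hM : 0 < (‖ρ‖ + 1) * (‖x‖ + 1) := by positivity
  constructor
  · rw [Metric.tendsto_nhds]
    intro ε hε
    have hpos : ∀ᶠ N : ℕ in Lf E, 1 ≤ N := (eventually_ge_atTop 1).filter_mono inf_le_left
    filter_upwards [h1 (ε / (2 * ((‖ρ‖ + 1) * (‖x‖ + 1)))) (by positivity), hpos] with N hN hN1
    have hN0 : (0 : ℝ) < N := by exact_mod_cast hN1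
    rw [dist_zero_right, e1, norm_mul, norm_div, norm_one, Complex.norm_natCast]
    calc 1 / (N : ℝ) * ‖ρ (twa c 0 α x N)‖ ≤ 1 / (N : ℝ) * (‖ρ‖ * (ε / (2 * ((‖ρ‖ + 1) * (‖x‖ + 1))) * N * ‖x‖)) := by
          gcongr
          exact (ρ.le_opNorm _).trans (mul_le_mul_of_nonneg_left hN (norm_nonneg _))
      _ = ε / 2 * ((‖ρ‖ / (‖ρ‖ + 1)) * (‖x‖ / (‖x‖ + 1))) := by
          have : ‖ρ‖ + 1 ≠ 0 := by positivity
          have : ‖x‖ + 1 ≠ 0 := by positivity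
          field_simp
      _ ≤ ε / 2 * (1 * 1) := by
          gcongr
          · rw [div_le_one (by positivity)]; linarith
          · rw [div_le_one (by positivity)]; linarith
      _ < ε := by linarith
  · rw [Metric.tendsto_nhds]
    intro ε hε
    filter_upwards [h2 (ε / (2 * ((‖ρ‖ + 1) * (‖x‖ + 1)))) (by positivity), eventually_ge_atTop 2] with N hN hN1
    have hN0 : (0 : ℝ) < Real.log N := Real.log_pos (by exact_mod_cast (by omega : 1 < N))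
    rw [dist_zero_right, e2, norm_mul, norm_div, norm_one, Complex.norm_real, Real.norm_of_nonneg hN0.le]
    calc 1 / Real.log N * ‖ρ (twl c 0 α x N)‖ ≤
        1 / Real.log N * (‖ρ‖ * (ε / (2 * ((‖ρ‖ + 1) * (‖x‖ + 1))) * Real.log N * ‖x‖)) := by
          gcongr
          exact (ρ.le_opNorm _).trans (mul_le_mul_of_nonneg_left hN (norm_nonneg _))
      _ = ε / 2 * ((‖ρ‖ / (‖ρ‖ + 1)) * (‖x‖ / (‖x‖ + 1))) := by
          have : ‖ρ‖ + 1 ≠ 0 := by positivity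
          have : ‖x‖ + 1 ≠ 0 := by positivity
          field_simp
      _ ≤ ε / 2 * (1 * 1) := by
          gcongr
          · rw [div_le_one (by positivity)]; linarith
          · rw [div_le_one (by positivity)]; linarith
      _ < ε := by linarith

/-- (C') vectors of singular type in a covariant representation -/
theorem rep_part (σ : Measure UnitAddCircle) [IsFiniteMeasure σ] (hσ : σ ⟂ₘ volume) {E : Set ℕ} {c : ℕ → ℂ}
    (hc : ∀ n, ‖c n‖ ≤ 1) (hE : CorrZero E c) (ε : ℝ) (hε : 0 < ε) :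
    ∀ᶠ N : ℕ in Lf E, ∀ (A : Type v) [NonUnitalCStarAlgebra A] (α : A ≃⋆ₐ[ℂ] A)
      (H : Type u) [NormedAddCommGroup H] [InnerProductSpace ℂ H] [CompleteSpace H]
      (π : A →⋆ₙₐ[ℂ] (H →L[ℂ] H)) (U : unitary (H →L[ℂ] H)) (ξ : H),
      (∀ x, π (α x) = (U : H →L[ℂ] H) * π x * star (U : H →L[ℂ] H)) → SpecMeas U ξ σ → ∀ (x : A) (θ : ℝ),
      ‖π (twa c θ α x N) ξ‖ ≤ ε * N * ‖x‖ := by
  have : IsFiniteMeasure (σ.map fun z => -z) := inferInstance
  filter_upwards [vec_both.{u} (σ.map fun z => -z) (sing_neg hσ) hc hE ε hε] with N hN A _ α H _ _ _ π U ξ h hξ x θ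
  have h1 := hN H U U⁻¹ (π x) ξ θ hξ.inv
  have h2 : π (twa c θ α x N) ξ = ∑ n ∈ Icc 1 N, (c n * Complex.exp (2 * Real.pi * Complex.I * n * θ)) •
        ((U : H →L[ℂ] H) ^ n) (π x ((((U⁻¹ : unitary (H →L[ℂ] H)) : H →L[ℂ] H) ^ n) ξ)) := by
    unfold twa
    rw [map_sum, _root_.sum_apply]
    refine Finset.sum_congr rfl fun n _ => ?_
    rw [map_smul, auto_pow h]
    rfl
  rw [h2]
  refine h1.trans ?_
  gcongr
  exact NonUnitalStarAlgHom.norm_apply_le π x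

end Pool.Agent.E8helper86.NS
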