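import Pool.Agent.E8helper86.NS.Det

/-! Small self correlations make the quadratic form small. -/

set_option autoImplicit false

open Finset Filter Topology

namespace Pool.Agent.E8helper86.NS

/-- the self correlations of `c` tend to zero along the numbers outside `E` -/
def CorrZero (E : Set ℕ) (c : ℕ → ℂ) : Prop :=
  ∀ h : ℕ, 1 ≤ h → ∀ δ : ℝ, 0 < δ → ∃ N₀ : ℕ, ∀ N ≥ N₀, N ∉ E →
    ‖∑ n ∈ Icc 1 N, star (c n) * c (n + h)‖ ≤ δ * N

/-- the twisted sequence, cut off at `N` -/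
noncomputable def cut (c : ℕ → ℂ) (θ : UnitAddCircle) (N : ℕ) (n : ℤ) : ℂ :=
  if n ∈ Icc (1 : ℤ) N then c n.toNat * (fourier n θ : ℂ) else 0

theorem cut_out (c : ℕ → ℂ) (θ : UnitAddCircle) (N : ℕ) : ∀ n, n ∉ Icc (1 : ℤ) N → cut c θ N n = 0 :=
  fun n hn => by unfold cut; rw [if_neg hn]

theorem norm_fourier' (n : ℤ) (x : UnitAddCircle) : ‖(fourier n x : ℂ)‖ = 1 := by
  rw [fourier_apply]
  exact Circle.norm_coe _

theorem cut_le {c : ℕ → ℂ} (hc : ∀ n, ‖c n‖ ≤ 1) (θ : UnitAddCircle) (N : ℕ) (n : ℤ) : ‖cut c θ N n‖ ≤ 1 := by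
  unfold cut
  split_ifs
  · rw [norm_mul, norm_fourier', mul_one]
    exact hc _
  · simp

theorem sum_int_nat {M : Type*} [AddCommMonoid M] (N : ℕ) (F : ℤ → M) :
    ∑ n ∈ Icc (1 : ℤ) N, F n = ∑ n ∈ Icc 1 N, F (n : ℤ) := by
  refine Finset.sum_nbij' Int.toNat (fun n : ℕ => (n : ℤ)) ?_ ?_ ?_ ?_ ?_
  · intro n hn
    rw [mem_Icc] at *
    constructor <;> omega
  · intro n hn
    rw [mem_Icc] at *
    constructor <;> omega
  · intro n hn
    rw [mem_Icc] at hn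
    omega
  · intro n _
    omega
  · intro n hn
    rw [mem_Icc] at hn
    rw [Int.toNat_of_nonneg (by omega)]

theorem cor_pos {c : ℕ → ℂ} (hc : ∀ n, ‖c n‖ ≤ 1) (θ : UnitAddCircle) (N h : ℕ) :
    ‖cor (cut c θ N) N h‖ ≤ ‖∑ n ∈ Icc 1 N, star (c n) * c (n + h)‖ + h := by
  unfold cor
  rw [sum_int_nat]
  have h1 : ∀ n ∈ Icc 1 N, star (cut c θ N (n : ℤ)) * cut c θ N ((n : ℤ) + h) =
      (fourier (h : ℤ) θ : ℂ) * (star (c n) * c (n + h)) -
        (if N < n + h then (fourier (h : ℤ) θ : ℂ) * (star (c n) * c (n + h)) else 0) := by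
    intro n hn
    rw [mem_Icc] at hn
    have h2 : cut c θ N (n : ℤ) = c n * (fourier (n : ℤ) θ : ℂ) := by
      unfold cut
      rw [if_pos (by rw [mem_Icc]; constructor <;> omega), Int.toNat_natCast]
    rw [h2]
    split_ifs with h3
    · unfold cut
      rw [if_neg (by rw [mem_Icc]; omega)]
      ring
    · have h4 : cut c θ N ((n : ℤ) + h) = c (n + h) * (fourier ((n : ℤ) + h) θ : ℂ) := by
        unfold cut
        rw [if_pos (by rw [mem_Icc]; constructor <;> omega)]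
        congr 2
      rw [h4, fourier_add]
      have h5 : star ((fourier (n : ℤ) θ : ℂ)) * (fourier (n : ℤ) θ : ℂ) = 1 := by
        rw [Complex.star_def, ← Complex.normSq_eq_conj_mul_self, Complex.normSq_eq_norm_sq, norm_fourier']
        simp
      rw [star_mul', sub_zero]
      linear_combination (star (c n) * c (n + h) * (fourier (h : ℤ) θ : ℂ)) * h5
  rw [Finset.sum_congr rfl h1, Finset.sum_sub_distrib, ← Finset.mul_sum]
  refine (norm_sub_le _ _).trans ?_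
  rw [norm_mul, norm_fourier', one_mul]
  gcongr
  rw [← Finset.sum_filter]
  calc ‖∑ n ∈ (Icc 1 N).filter (fun n => N < n + h), (fourier (h : ℤ) θ : ℂ) * (star (c n) * c (n + h))‖
      ≤ ∑ n ∈ (Icc 1 N).filter (fun n => N < n + h), (1 : ℝ) := by
        refine (norm_sum_le _ _).trans (Finset.sum_le_sum fun n _ => ?_)
        rw [norm_mul, norm_mul, norm_fourier', one_mul, norm_star]
        exact mul_le_one₀ (hc _) (norm_nonneg _) (hc _)
    _ = ((Icc 1 N).filter (fun n => N < n + h)).card := by simp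
    _ ≤ h := by
        have h6 : (Icc 1 N).filter (fun n => N < n + h) ⊆ Ioc (N - h) N := by
          intro n hn
          rw [mem_filter, mem_Icc] at hn
          rw [mem_Ioc]
          omega
        have h7 := Finset.card_le_card h6
        rw [Nat.card_Ioc] at h7
        exact_mod_cast (by omega : ((Icc 1 N).filter (fun n => N < n + h)).card ≤ h)

theorem cor_neg (c : ℕ → ℂ) (θ : UnitAddCircle) (N : ℕ) (h : ℤ) :
    cor (cut c θ N) N (-h) = star (cor (cut c θ N) N h) := by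
  unfold cor
  rw [star_sum]
  obtain ⟨D, hD⟩ : ∃ D : ℕ, |h| ≤ (D : ℤ) := ⟨h.natAbs, by rw [Int.abs_eq_natAbs]⟩
  have h0 := cut_out c θ N
  rw [← sum_shift (fun n => star (cut c θ N n) * cut c θ N (n + -h)) N D 0 (by simp)
      (fun n hn => by rw [h0 n hn, star_zero, zero_mul]),
    ← sum_shift (fun n => star (star (cut c θ N n) * cut c θ N (n + h))) N D h hD
      (fun n hn => by rw [h0 n hn, star_zero, zero_mul, star_zero])]
  refine Finset.sum_congr rfl fun m _ => ?_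
  rw [star_mul', star_star, sub_zero, sub_add_cancel, mul_comm]
  rfl

theorem cor_zero_le {c : ℕ → ℂ} (hc : ∀ n, ‖c n‖ ≤ 1) (θ : UnitAddCircle) (N : ℕ) :
    ‖cor (cut c θ N) N 0‖ ≤ N := by
  unfold cor
  calc ‖∑ n ∈ Icc (1 : ℤ) N, star (cut c θ N n) * cut c θ N (n + 0)‖ ≤ ∑ n ∈ Icc (1 : ℤ) N, (1 : ℝ) := by
        refine (norm_sum_le _ _).trans (Finset.sum_le_sum fun n _ => ?_)
        rw [norm_mul, norm_star]
        exact mul_le_one₀ (cut_le hc _ _ _) (norm_nonneg _) (cut_le hc _ _ _)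
    _ = N := by simp

/-- the filter of the large numbers outside `E` -/
def Lf (E : Set ℕ) : Filter ℕ := atTop ⊓ 𝓟 Eᶜ

theorem ev_Lf {E : Set ℕ} {p : ℕ → Prop} : (∀ᶠ N in Lf E, p N) ↔ ∃ N₀, ∀ N ≥ N₀, N ∉ E → p N := by
  unfold Lf
  rw [eventually_inf_principal, eventually_atTop]
  rfl

theorem cor_ev {E : Set ℕ} {c : ℕ → ℂ} (hc : ∀ n, ‖c n‖ ≤ 1) (hE : CorrZero E c) (h : ℤ) (hh : h ≠ 0)
    (δ : ℝ) (hδ : 0 < δ) : ∀ᶠ N in Lf E, ∀ θ, ‖cor (cut c θ N) N h‖ ≤ δ * N := by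
  rw [ev_Lf]
  obtain ⟨N₀, hN₀⟩ := hE h.natAbs (by omega) (δ / 2) (by positivity)
  obtain ⟨N₁, hN₁⟩ := exists_nat_gt (2 * h.natAbs / δ)
  refine ⟨max N₀ N₁, fun N hN hNE θ => ?_⟩
  have h1 := hN₀ N (le_trans (le_max_left _ _) hN) hNE
  have h2 : (2 * h.natAbs / δ : ℝ) ≤ N := hN₁.le.trans (by exact_mod_cast le_trans (le_max_right _ _) hN)
  rw [div_le_iff₀ hδ] at h2
  have h3 := cor_pos hc θ N h.natAbs
  have h4 : ‖cor (cut c θ N) N h‖ = ‖cor (cut c θ N) N (h.natAbs : ℤ)‖ := by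
    rcases Int.natAbs_eq h with h5 | h5
    · rw [← h5]
    · conv_lhs => rw [h5]
      rw [cor_neg, norm_star]
  rw [h4]
  linarith

theorem Gam_ev {E : Set ℕ} {c : ℕ → ℂ} (hc : ∀ n, ‖c n‖ ≤ 1) (hE : CorrZero E c) (S : Finset ℤ) (l : ℤ → ℂ)
    (ε : ℝ) (hε : 0 < ε) :
    ∀ᶠ N in Lf E, ∀ θ, Gam S l (cut c θ N) N ≤ (∑ k ∈ S, ‖l k‖ ^ 2 + ε) * N := by
  set T : ℝ := (∑ k ∈ S, ‖l k‖) ^ 2 + 1 with hT
  have hT0 : 0 < T := by positivity
  have h1 : ∀ᶠ N in Lf E, ∀ k ∈ S, ∀ k' ∈ S, k ≠ k' → ∀ θ, ‖cor (cut c θ N) N (k - k')‖ ≤ ε / T * N := by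
    rw [Finset.eventually_all]
    intro k _
    rw [Finset.eventually_all]
    intro k' _
    by_cases hk : k = k'
    · exact Eventually.of_forall fun N h => absurd hk h
    · filter_upwards [cor_ev hc hE (k - k') (sub_ne_zero.2 hk) (ε / T) (by positivity)] with N hN _ using hN
  filter_upwards [h1] with N hN θ
  have h2 : Gam S l (cut c θ N) N ≤ ∑ k ∈ S, ∑ k' ∈ S,
      ((if k = k' then ‖l k‖ ^ 2 * N else 0) + ‖l k‖ * ‖l k'‖ * (ε / T * N)) := by
    unfold Gam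
    refine Finset.sum_le_sum fun k hk => Finset.sum_le_sum fun k' hk' => ?_
    have hpos : 0 ≤ ‖l k‖ * ‖l k'‖ * (ε / T * N) := by positivity
    split_ifs with h3
    · subst h3
      rw [sub_self]
      have := cor_zero_le hc θ N
      nlinarith [mul_le_mul_of_nonneg_left this (mul_nonneg (norm_nonneg (l k)) (norm_nonneg (l k)))]
    · rw [zero_add]
      gcongr
      exact hN k hk k' hk' h3 θ
  refine h2.trans ?_
  simp_rw [Finset.sum_add_distrib]
  have h3 : ∑ k ∈ S, ∑ k' ∈ S, (if k = k' then ‖l k‖ ^ 2 * (N : ℝ) else 0) = (∑ k ∈ S, ‖l k‖ ^ 2) * N := by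
    rw [Finset.sum_mul]
    refine Finset.sum_congr rfl fun k hk => ?_
    rw [Finset.sum_ite_eq S k, if_pos hk]
  have h4 : ∑ k ∈ S, ∑ k' ∈ S, ‖l k‖ * ‖l k'‖ * (ε / T * (N : ℝ)) = (∑ k ∈ S, ‖l k‖) ^ 2 * (ε / T * N) := by
    rw [pow_two, Finset.sum_mul_sum, Finset.sum_mul]
    refine Finset.sum_congr rfl fun k _ => ?_
    rw [Finset.sum_mul]
  rw [h3, h4, add_mul]
  refine add_le_add le_rfl ?_
  calc (∑ k ∈ S, ‖l k‖) ^ 2 * (ε / T * N) ≤ T * (ε / T * N) := by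
        gcongr
        rw [hT]; linarith
    _ = ε * N := by field_simp

end Pool.Agent.E8helper86.NS
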