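import Mathlib

/-! Orthogonality of the characters at the points `j / Q`, and the finite Parseval identities. -/

set_option autoImplicit false

open Finset

namespace Pool.Agent.E8helper86.NS

/-- the point `j / Q` of the circle -/
noncomputable def pt (Q j : ℕ) : UnitAddCircle := (((j : ℝ) / (Q : ℝ) : ℝ) : UnitAddCircle)

theorem fourier_pt (Q j : ℕ) (d : ℤ) :
    (fourier d (pt Q j) : ℂ) = (Complex.exp (2 * Real.pi * Complex.I * (d / Q))) ^ j := by
  unfold pt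
  rw [fourier_coe_apply, ← Complex.exp_nat_mul]
  congr 1
  push_cast
  ring

theorem ortho {Q : ℕ} (hQ : 0 < Q) {d : ℤ} (hd : |d| < Q) :
    ∑ j ∈ range Q, (fourier d (pt Q j) : ℂ) = if d = 0 then (Q : ℂ) else 0 := by
  split_ifs with h
  · subst h
    simp
  · simp_rw [fourier_pt]
    set z := Complex.exp (2 * Real.pi * Complex.I * (d / Q)) with hz
    have hQ' : (Q : ℂ) ≠ 0 := by exact_mod_cast hQ.ne'
    have h1 : z ^ Q = 1 := by
      rw [hz, ← Complex.exp_nat_mul, Complex.exp_eq_one_iff]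
      exact ⟨d, by field_simp⟩
    have h2 : z ≠ 1 := by
      intro h3
      rw [hz, Complex.exp_eq_one_iff] at h3
      obtain ⟨n, hn⟩ := h3
      have h4 : ((d : ℂ) / Q) = n := by
        have : (2 * Real.pi * Complex.I : ℂ) ≠ 0 := Complex.two_pi_I_ne_zero
        apply mul_left_cancel₀ this
        rw [hn]; ring
      have h5 : (d : ℂ) = n * Q := by
        rw [← h4]; field_simp
      have h6 : d = n * Q := by exact_mod_cast h5
      have h7 : n ≠ 0 := by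
        rintro rfl
        exact h (by simpa using h6)
      have h8 : (1 : ℤ) ≤ |n| := Int.one_le_abs h7
      have h9 : |d| = |n| * Q := by
        rw [h6, abs_mul, abs_of_nonneg (by positivity : (0 : ℤ) ≤ (Q : ℤ))]
      have hQZ : (0 : ℤ) < Q := by exact_mod_cast hQ
      nlinarith
    have h3 := mul_neg_geom_sum z Q
    rw [h1, sub_self] at h3
    exact (mul_eq_zero.1 h3).resolve_left (sub_ne_zero.2 h2.symm)

theorem parseval_bilin {A : Type*} [Ring A] [Algebra ℂ A] {I : Finset ℤ} {Q : ℕ} (hQ : 0 < Q)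
    (hI : ∀ m ∈ I, ∀ n ∈ I, |n - m| < Q) (f g : ℤ → A) :
    ∑ j ∈ range Q, (∑ m ∈ I, (fourier (-m) (pt Q j) : ℂ) • f m) *
      (∑ n ∈ I, (fourier n (pt Q j) : ℂ) • g n) = (Q : ℂ) • ∑ m ∈ I, f m * g m := by
  have h1 : ∀ j, (∑ m ∈ I, (fourier (-m) (pt Q j) : ℂ) • f m) *
      (∑ n ∈ I, (fourier n (pt Q j) : ℂ) • g n) =
      ∑ m ∈ I, ∑ n ∈ I, (fourier (n - m) (pt Q j) : ℂ) • (f m * g n) := by
    intro j
    rw [Finset.sum_mul_sum]
    refine Finset.sum_congr rfl fun m _ => Finset.sum_congr rfl fun n _ => ?_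
    rw [smul_mul_smul_comm, ← fourier_add, neg_add_eq_sub]
  simp_rw [h1]
  rw [Finset.sum_comm]
  rw [Finset.smul_sum]
  refine Finset.sum_congr rfl fun m hm => ?_
  rw [Finset.sum_comm]
  rw [Finset.sum_eq_single_of_mem m hm]
  · rw [← Finset.sum_smul, ortho hQ (hI m hm m hm)]
    simp
  · intro n hn hnm
    rw [← Finset.sum_smul, ortho hQ (hI m hm n hn), if_neg (sub_ne_zero.2 hnm), zero_smul]

section
variable {A : Type*} [CStarAlgebra A]

theorem star_char_sum (I : Finset ℤ) (x : UnitAddCircle) (g : ℤ → A) :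
    star (∑ n ∈ I, (fourier n x : ℂ) • g n) = ∑ n ∈ I, (fourier (-n) x : ℂ) • star (g n) := by
  rw [star_sum]
  refine Finset.sum_congr rfl fun n _ => ?_
  rw [star_smul, fourier_neg]
  rfl

theorem parseval_star {I : Finset ℤ} {Q : ℕ} (hQ : 0 < Q)
    (hI : ∀ m ∈ I, ∀ n ∈ I, |n - m| < Q) (g : ℤ → A) :
    ∑ j ∈ range Q, star (∑ n ∈ I, (fourier n (pt Q j) : ℂ) • g n) *
      (∑ n ∈ I, (fourier n (pt Q j) : ℂ) • g n) = (Q : ℂ) • ∑ m ∈ I, star (g m) * g m := by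
  simp_rw [star_char_sum]
  exact parseval_bilin hQ hI (fun m => star (g m)) g

theorem parseval_star' {I : Finset ℤ} {Q : ℕ} (hQ : 0 < Q)
    (hI : ∀ m ∈ I, ∀ n ∈ I, |n - m| < Q) (f : ℤ → A) :
    ∑ j ∈ range Q, (∑ m ∈ I, (fourier (-m) (pt Q j) : ℂ) • f m) *
      star (∑ m ∈ I, (fourier (-m) (pt Q j) : ℂ) • f m) = (Q : ℂ) • ∑ m ∈ I, f m * star (f m) := by
  have h : ∀ j, star (∑ m ∈ I, (fourier (-m) (pt Q j) : ℂ) • f m) =
      ∑ n ∈ I, (fourier n (pt Q j) : ℂ) • star (f n) := by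
    intro j
    rw [star_sum]
    refine Finset.sum_congr rfl fun n _ => ?_
    rw [star_smul, fourier_neg]
    simp
  simp_rw [h]
  exact parseval_bilin hQ hI f (fun m => star (f m))

end

section
variable {H : Type*} [NormedAddCommGroup H] [InnerProductSpace ℂ H]

open scoped InnerProductSpace

theorem parseval_inner {I : Finset ℤ} {Q : ℕ} (hQ : 0 < Q)
    (hI : ∀ m ∈ I, ∀ n ∈ I, |n - m| < Q) (f g : ℤ → H) :
    ∑ j ∈ range Q, ⟪∑ m ∈ I, (fourier m (pt Q j) : ℂ) • f m,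
      ∑ n ∈ I, (fourier n (pt Q j) : ℂ) • g n⟫_ℂ = (Q : ℂ) * ∑ m ∈ I, ⟪f m, g m⟫_ℂ := by
  have h1 : ∀ j, ⟪∑ m ∈ I, (fourier m (pt Q j) : ℂ) • f m,
      ∑ n ∈ I, (fourier n (pt Q j) : ℂ) • g n⟫_ℂ =
      ∑ m ∈ I, ∑ n ∈ I, (fourier (n - m) (pt Q j) : ℂ) * ⟪f m, g n⟫_ℂ := by
    intro j
    rw [sum_inner]
    refine Finset.sum_congr rfl fun m _ => ?_
    rw [inner_sum]
    refine Finset.sum_congr rfl fun n _ => ?_
    rw [inner_smul_left, inner_smul_right, ← mul_assoc, ← fourier_neg, ← fourier_add, neg_add_eq_sub]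
  simp_rw [h1]
  rw [Finset.sum_comm, Finset.mul_sum]
  refine Finset.sum_congr rfl fun m hm => ?_
  rw [Finset.sum_comm]
  rw [Finset.sum_eq_single_of_mem m hm]
  · rw [← Finset.sum_mul, ortho hQ (hI m hm m hm)]
    simp
  · intro n hn hnm
    rw [← Finset.sum_mul, ortho hQ (hI m hm n hn), if_neg (sub_ne_zero.2 hnm), zero_mul]

theorem parseval_norm {I : Finset ℤ} {Q : ℕ} (hQ : 0 < Q)
    (hI : ∀ m ∈ I, ∀ n ∈ I, |n - m| < Q) (f : ℤ → H) :
    ∑ j ∈ range Q, ‖∑ m ∈ I, (fourier m (pt Q j) : ℂ) • f m‖ ^ 2 = Q * ∑ m ∈ I, ‖f m‖ ^ 2 := by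
  have h := congrArg Complex.re (parseval_inner hQ hI f f)
  rw [Complex.re_sum, ← Complex.ofReal_natCast, Complex.re_ofReal_mul, Complex.re_sum] at h
  have e : ∀ x : H, (⟪x, x⟫_ℂ).re = ‖x‖ ^ 2 := fun x => inner_self_eq_norm_sq (𝕜 := ℂ) x
  simp_rw [e] at h
  exact h

end

end Pool.Agent.E8helper86.NS
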