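import Pool.Agent.E8helper86.NS.CS
import Pool.Agent.E8helper86.NS.Ort

/-! The deterministic inequality: twisted sums of `wⁿ a vⁿ` are controlled by self correlations of
the weights and by the geometric sums of `w` away from the set where a trigonometric polynomial is
at least one. -/

set_option autoImplicit false

open Finset

namespace Pool.Agent.E8helper86.NS

/-- a trigonometric polynomial -/
noncomputable def trig (S : Finset ℤ) (l : ℤ → ℂ) (x : UnitAddCircle) : ℂ :=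
  ∑ k ∈ S, l k * (fourier k x : ℂ)

/-- self correlation of a sequence supported on `[1, N]` -/
noncomputable def cor (c : ℤ → ℂ) (N : ℕ) (h : ℤ) : ℂ :=
  ∑ n ∈ Icc (1 : ℤ) N, star (c n) * c (n + h)

/-- the quadratic form of the self correlations -/
noncomputable def Gam (S : Finset ℤ) (l : ℤ → ℂ) (c : ℤ → ℂ) (N : ℕ) : ℝ :=
  ∑ k ∈ S, ∑ k' ∈ S, ‖l k‖ * ‖l k'‖ * ‖cor c N (k - k')‖

theorem Gam_nonneg (S : Finset ℤ) (l : ℤ → ℂ) (c : ℤ → ℂ) (N : ℕ) : 0 ≤ Gam S l c N :=
  Finset.sum_nonneg fun _ _ => Finset.sum_nonneg fun _ _ => by positivity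

theorem sum_shift {M : Type*} [AddCommMonoid M] (F : ℤ → M) (N D : ℕ) (k : ℤ) (hk : |k| ≤ D)
    (hF : ∀ n, n ∉ Icc (1 : ℤ) N → F n = 0) :
    ∑ m ∈ Icc (-(D : ℤ)) (N + D), F (m - k) = ∑ n ∈ Icc (1 : ℤ) N, F n := by
  have h1 : ∑ m ∈ Icc (-(D : ℤ)) (N + D), F (m - k) = ∑ m ∈ Icc (1 + k) (N + k), F (m - k) := by
    symm
    apply Finset.sum_subset
    · intro m hm
      rw [mem_Icc] at *
      have := abs_le.1 hk
      constructor <;> omega
    · intro m _ hm
      apply hF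
      intro h
      apply hm
      rw [mem_Icc] at *
      constructor <;> omega
  rw [h1]
  refine Finset.sum_nbij' (fun m => m - k) (fun n => n + k) ?_ ?_ ?_ ?_ ?_
  · intro m hm
    rw [mem_Icc] at *
    constructor <;> omega
  · intro m hm
    rw [mem_Icc] at *
    constructor <;> omega
  · intro m _; ring
  · intro m _; ring
  · intro m _; rfl

/-- multiplication by the trigonometric polynomial -/
theorem trig_smul {M : Type*} [AddCommGroup M] [Module ℂ M] (S : Finset ℤ) (l : ℤ → ℂ) (N D : ℕ)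
    (hD : ∀ k ∈ S, |k| ≤ (D : ℤ)) (g : ℤ → M) (hg : ∀ n, n ∉ Icc (1 : ℤ) N → g n = 0)
    (x : UnitAddCircle) :
    trig S l x • ∑ n ∈ Icc (1 : ℤ) N, (fourier n x : ℂ) • g n =
      ∑ m ∈ Icc (-(D : ℤ)) (N + D), (fourier m x : ℂ) • ∑ k ∈ S, l k • g (m - k) := by
  unfold trig
  rw [Finset.sum_smul]
  simp_rw [Finset.smul_sum]
  conv_rhs => rw [Finset.sum_comm]
  refine Finset.sum_congr rfl fun k hk => ?_
  rw [← Finset.smul_sum]
  rw [← sum_shift (fun n => (fourier n x : ℂ) • g n) N D k (hD k hk)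
    (fun n hn => by rw [hg n hn, smul_zero]), Finset.smul_sum]
  refine Finset.sum_congr rfl fun m _ => ?_
  rw [smul_smul, smul_smul, mul_assoc, ← fourier_add, mul_comm (l k)]
  congr 3
  ring_nf

theorem full_sum {M : Type*} [AddCommGroup M] [Module ℂ M] (N D : ℕ) (F : ℤ → M)
    (hF : ∀ n, n ∉ Icc (1 : ℤ) N → F n = 0) :
    ∑ m ∈ Icc (-(D : ℤ)) (N + D), F m = ∑ n ∈ Icc (1 : ℤ) N, F n := by
  have := sum_shift F N D 0 (by simp) hF
  simpa using this

theorem cor_eq {c : ℤ → ℂ} {N : ℕ} (hc0 : ∀ n, n ∉ Icc (1 : ℤ) N → c n = 0) {D : ℕ} {k : ℤ}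
    (hk : |k| ≤ (D : ℤ)) (k' : ℤ) :
    ∑ m ∈ Icc (-(D : ℤ)) (N + D), star (c (m - k)) * c (m - k') = cor c N (k - k') := by
  unfold cor
  rw [← sum_shift (fun n => star (c n) * c (n + (k - k'))) N D k hk
    (fun n hn => by rw [hc0 n hn, star_zero, zero_mul])]
  refine Finset.sum_congr rfl fun m _ => ?_
  congr 2
  ring

theorem natCast_le_of {N : ℕ} (c : ℤ → ℂ) (hc1 : ∀ n, ‖c n‖ ≤ 1) :
    ∑ n ∈ Icc (1 : ℤ) N, ‖c n‖ ^ 2 ≤ N := by
  calc ∑ n ∈ Icc (1 : ℤ) N, ‖c n‖ ^ 2 ≤ ∑ n ∈ Icc (1 : ℤ) N, (1 : ℝ) := by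
        refine Finset.sum_le_sum fun n _ => ?_
        exact pow_le_one₀ (norm_nonneg _) (hc1 n)
    _ = N := by simp

section
variable {A : Type*} [CStarAlgebra A]

theorem coe_zpow_star_mul (v : unitary A) (n n' : ℤ) :
    star ((v ^ n : unitary A) : A) * ((v ^ n' : unitary A) : A) = ((v ^ (n' - n) : unitary A) : A) := by
  have h : (v ^ (n' - n) : unitary A) = (v ^ n)⁻¹ * v ^ n' := by
    rw [zpow_sub, mul_comm_of_zpow]
  rw [h]
  rfl
where
  mul_comm_of_zpow {v : unitary A} {n n' : ℤ} : v ^ n' * (v ^ n)⁻¹ = (v ^ n)⁻¹ * v ^ n' := by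
    rw [← zpow_neg, ← zpow_add, ← zpow_add, add_comm]

theorem norm_zpow_le (u : unitary A) (n : ℤ) : ‖((u ^ n : unitary A) : A)‖ ≤ 1 := by
  rcases subsingleton_or_nontrivial A with h | h
  · rw [Subsingleton.elim ((u ^ n : unitary A) : A) 0, norm_zero]; exact zero_le_one
  · exact (CStarRing.norm_coe_unitary (u ^ n)).le

/-- the sum of squares of the convolution -/
theorem sq_conv (v : unitary A) {N D : ℕ} {c : ℤ → ℂ} (hc0 : ∀ n, n ∉ Icc (1 : ℤ) N → c n = 0)
    (S : Finset ℤ) (l : ℤ → ℂ) (hD : ∀ k ∈ S, |k| ≤ (D : ℤ)) :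
    ‖∑ m ∈ Icc (-(D : ℤ)) (N + D),
      star (∑ k ∈ S, l k • (c (m - k) • ((v ^ (m - k) : unitary A) : A))) *
        (∑ k ∈ S, l k • (c (m - k) • ((v ^ (m - k) : unitary A) : A)))‖ ≤ Gam S l c N := by
  have h1 : ∀ m : ℤ, star (∑ k ∈ S, l k • (c (m - k) • ((v ^ (m - k) : unitary A) : A))) *
        (∑ k ∈ S, l k • (c (m - k) • ((v ^ (m - k) : unitary A) : A))) =
      ∑ k ∈ S, ∑ k' ∈ S, (star (l k) * l k') • ((star (c (m - k)) * c (m - k')) •
        ((v ^ (k - k') : unitary A) : A)) := by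
    intro m
    rw [star_sum, Finset.sum_mul_sum]
    refine Finset.sum_congr rfl fun k _ => Finset.sum_congr rfl fun k' _ => ?_
    rw [star_smul, star_smul, smul_mul_smul_comm, smul_mul_smul_comm, coe_zpow_star_mul]
    congr 4
    ring_nf
  simp_rw [h1]
  rw [Finset.sum_comm]
  unfold Gam
  refine (norm_sum_le _ _).trans (Finset.sum_le_sum fun k hk => ?_)
  rw [Finset.sum_comm]
  refine (norm_sum_le _ _).trans (Finset.sum_le_sum fun k' _ => ?_)
  rw [← Finset.smul_sum, ← Finset.sum_smul, cor_eq hc0 (hD k hk) k', norm_smul, norm_smul, norm_mul,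
    norm_star]
  calc ‖l k‖ * ‖l k'‖ * (‖cor c N (k - k')‖ * ‖((v ^ (k - k') : unitary A) : A)‖)
      ≤ ‖l k‖ * ‖l k'‖ * (‖cor c N (k - k')‖ * 1) := by
        gcongr
        exact norm_zpow_le v _
    _ = _ := by ring

theorem exists_D (S : Finset ℤ) : ∃ D : ℕ, ∀ k ∈ S, |k| ≤ (D : ℤ) := by
  refine ⟨S.sup Int.natAbs, fun k hk => ?_⟩
  have := Finset.le_sup (f := Int.natAbs) hk
  rw [Int.abs_eq_natAbs]
  exact_mod_cast this

end

section
variable {A : Type*} [CStarAlgebra A] [PartialOrder A] [StarOrderedRing A]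

theorem det (w v : unitary A) (a : A) (N : ℕ) (c : ℤ → ℂ)
    (hc0 : ∀ n, n ∉ Icc (1 : ℤ) N → c n = 0) (hc1 : ∀ n, ‖c n‖ ≤ 1) (S : Finset ℤ) (l : ℤ → ℂ)
    (C : ℝ) (hC0 : 0 ≤ C) (hC : ∀ x : UnitAddCircle, ‖trig S l x‖ < 1 →
      ‖∑ m ∈ Icc (1 : ℤ) N, (fourier (-m) x : ℂ) • ((w ^ m : unitary A) : A)‖ ≤ C) :
    ‖∑ n ∈ Icc (1 : ℤ) N, c n • (((w ^ n : unitary A) : A) * a * ((v ^ n : unitary A) : A))‖ ≤
      ‖a‖ * (C * √N + √N * √(Gam S l c N)) := by
  obtain ⟨D, hD⟩ := exists_D S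
  set I : Finset ℤ := Icc (-(D : ℤ)) (N + D) with hI
  set Q : ℕ := N + 2 * D + 1 with hQ
  have hQ0 : 0 < Q := by omega
  have hQR : (0 : ℝ) < Q := by exact_mod_cast hQ0
  have hIQ : ∀ m ∈ I, ∀ n ∈ I, |n - m| < Q := by
    intro m hm n hn
    rw [hI, mem_Icc] at hm hn
    rw [abs_lt, hQ]
    push_cast
    constructor <;> omega
  set f : ℤ → A := fun m => if m ∈ Icc (1 : ℤ) N then ((w ^ m : unitary A) : A) else 0 with hf
  set g : ℤ → A := fun n => c n • ((v ^ n : unitary A) : A) with hg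
  have hf0 : ∀ n, n ∉ Icc (1 : ℤ) N → f n = 0 := fun n hn => by rw [hf]; simp only [if_neg hn]
  have hg0 : ∀ n, n ∉ Icc (1 : ℤ) N → g n = 0 := fun n hn => by
    rw [hg]; simp only [hc0 n hn, zero_smul]
  set P : ℕ → A := fun j => ∑ m ∈ I, (fourier (-m) (pt Q j) : ℂ) • f m with hP
  set R : ℕ → A := fun j => ∑ n ∈ I, (fourier n (pt Q j) : ℂ) • g n with hR
  have hPs : ∀ j, P j = ∑ m ∈ Icc (1 : ℤ) N, (fourier (-m) (pt Q j) : ℂ) • ((w ^ m : unitary A) : A) := by
    intro j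
    rw [hP]
    simp only
    rw [full_sum N D (fun m => (fourier (-m) (pt Q j) : ℂ) • f m) (fun n hn => by
      rw [hf0 n hn, smul_zero])]
    refine Finset.sum_congr rfl fun m hm => ?_
    rw [hf]
    simp only [if_pos hm]
  have hRs : ∀ j, R j = ∑ n ∈ Icc (1 : ℤ) N, (fourier n (pt Q j) : ℂ) • g n := by
    intro j
    rw [hR]
    exact full_sum N D (fun m => (fourier m (pt Q j) : ℂ) • g m) (fun n hn => by
      rw [hg0 n hn, smul_zero])
  -- the total
  have htot : ∑ j ∈ range Q, P j * a * R j = (Q : ℂ) • ∑ n ∈ Icc (1 : ℤ) N,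
      c n • (((w ^ n : unitary A) : A) * a * ((v ^ n : unitary A) : A)) := by
    have h1 := parseval_bilin hQ0 hIQ (fun m => f m * a) g
    have h2 : ∀ j, ∑ m ∈ I, (fourier (-m) (pt Q j) : ℂ) • (f m * a) = P j * a := by
      intro j
      rw [hP]
      simp only
      rw [Finset.sum_mul]
      exact Finset.sum_congr rfl fun m _ => (smul_mul_assoc _ _ _).symm
    simp_rw [h2] at h1
    rw [h1]
    congr 1
    rw [full_sum N D (fun m => f m * a * g m) (fun n hn => by rw [hg0 n hn, mul_zero])]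
    refine Finset.sum_congr rfl fun m hm => ?_
    rw [hf, hg]
    simp only [if_pos hm]
    rw [mul_smul_comm]
  -- full sums of squares
  have hPP : ‖∑ j ∈ range Q, P j * star (P j)‖ ≤ Q * N := by
    rw [parseval_star' hQ0 hIQ f, full_sum N D (fun m => f m * star (f m)) (fun n hn => by
      rw [hf0 n hn, zero_mul])]
    rw [norm_smul, Complex.norm_natCast]
    gcongr
    calc ‖∑ m ∈ Icc (1 : ℤ) N, f m * star (f m)‖ ≤ ∑ m ∈ Icc (1 : ℤ) N, (1 : ℝ) := by
          refine (norm_sum_le _ _).trans (Finset.sum_le_sum fun m hm => ?_)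
          rw [CStarRing.norm_self_mul_star]
          have h3 : ‖f m‖ ≤ 1 := by
            rw [hf]; simp only [if_pos hm]; exact norm_zpow_le w m
          exact mul_le_one₀ h3 (norm_nonneg _) h3
      _ = N := by simp
  have hRR : ‖∑ j ∈ range Q, star (R j) * R j‖ ≤ Q * N := by
    rw [parseval_star hQ0 hIQ g, full_sum N D (fun m => star (g m) * g m) (fun n hn => by
      rw [hg0 n hn, mul_zero])]
    rw [norm_smul, Complex.norm_natCast]
    gcongr
    calc ‖∑ m ∈ Icc (1 : ℤ) N, star (g m) * g m‖ ≤ ∑ m ∈ Icc (1 : ℤ) N, (1 : ℝ) := by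
          refine (norm_sum_le _ _).trans (Finset.sum_le_sum fun m hm => ?_)
          rw [CStarRing.norm_star_mul_self]
          have h3 : ‖g m‖ ≤ 1 := by
            rw [hg]
            simp only
            rw [norm_smul]
            exact mul_le_one₀ (hc1 m) (norm_nonneg _) (norm_zpow_le v m)
          exact mul_le_one₀ h3 (norm_nonneg _) h3
      _ = N := by simp
  -- the two parts
  set near : Finset ℕ := (range Q).filter fun j => 1 ≤ ‖trig S l (pt Q j)‖ with hnear
  set far : Finset ℕ := (range Q).filter fun j => ¬ 1 ≤ ‖trig S l (pt Q j)‖ with hfar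
  have hsplit : ∑ j ∈ range Q, P j * a * R j = ∑ j ∈ near, P j * a * R j + ∑ j ∈ far, P j * a * R j :=
    (Finset.sum_filter_add_sum_filter_not (range Q) _ _).symm
  have hPPm : ∀ s ⊆ range Q, ‖∑ j ∈ s, P j * star (P j)‖ ≤ Q * N := by
    intro s hs
    have := norm_sum_sq_mono s (range Q) hs (fun j => star (P j)) (fun j => star (P j)) (fun _ _ => le_rfl)
    simp only [star_star] at this
    exact this.trans hPP
  have hRRm : ∀ s ⊆ range Q, ‖∑ j ∈ s, star (R j) * R j‖ ≤ Q * N := by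
    intro s hs
    exact (norm_sum_sq_mono s (range Q) hs R R (fun _ _ => le_rfl)).trans hRR
  have hfarP : ‖∑ j ∈ far, P j * star (P j)‖ ≤ Q * C ^ 2 := by
    calc ‖∑ j ∈ far, P j * star (P j)‖ ≤ ∑ j ∈ far, C ^ 2 := by
          refine (norm_sum_le _ _).trans (Finset.sum_le_sum fun j hj => ?_)
          rw [CStarRing.norm_self_mul_star, ← pow_two]
          have h4 : ‖P j‖ ≤ C := by
            rw [hPs]
            apply hC
            rw [hfar, mem_filter] at hj
            exact not_le.1 hj.2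
          exact pow_le_pow_left₀ (norm_nonneg _) h4 2
      _ ≤ Q * C ^ 2 := by
          rw [Finset.sum_const, nsmul_eq_mul]
          have : (far.card : ℝ) ≤ Q := by
            have h5 := Finset.card_le_card (Finset.filter_subset (fun j => ¬ 1 ≤ ‖trig S l (pt Q j)‖) (range Q))
            rw [card_range] at h5
            exact_mod_cast h5
          gcongr
  have hnearR : ‖∑ j ∈ near, star (R j) * R j‖ ≤ Q * Gam S l c N := by
    have h1 := norm_sum_sq_mono near (range Q) (Finset.filter_subset _ _) R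
      (fun j => trig S l (pt Q j) • R j) (fun j hj => by
        rw [hnear, mem_filter] at hj
        rw [star_smul, smul_mul_smul_comm]
        have h2 : star (trig S l (pt Q j)) * trig S l (pt Q j) = ((‖trig S l (pt Q j)‖ ^ 2 : ℝ) : ℂ) := by
          rw [← starRingEnd_apply, ← Complex.normSq_eq_conj_mul_self, Complex.normSq_eq_norm_sq]
        rw [h2]
        have h3 : 0 ≤ (((‖trig S l (pt Q j)‖ ^ 2 - 1 : ℝ) : ℂ)) • (star (R j) * R j) := by
          have h5 : (0 : ℝ) ≤ ‖trig S l (pt Q j)‖ ^ 2 - 1 := by nlinarith [hj.2]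
          have h6 := star_mul_self_nonneg (((√(‖trig S l (pt Q j)‖ ^ 2 - 1) : ℝ) : ℂ) • R j)
          rw [star_smul, smul_mul_smul_comm, Complex.star_def, Complex.conj_ofReal, ← Complex.ofReal_mul,
            Real.mul_self_sqrt h5] at h6
          exact h6
        have h4 : (((‖trig S l (pt Q j)‖ ^ 2 - 1 : ℝ) : ℂ)) • (star (R j) * R j) =
            ((‖trig S l (pt Q j)‖ ^ 2 : ℝ) : ℂ) • (star (R j) * R j) - star (R j) * R j := by
          rw [Complex.ofReal_sub, sub_smul, Complex.ofReal_one, one_smul]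
        rw [h4, sub_nonneg] at h3
        exact h3)
    have h2 : ∀ j, trig S l (pt Q j) • R j = ∑ m ∈ I, (fourier m (pt Q j) : ℂ) • ∑ k ∈ S, l k • g (m - k) := by
      intro j
      rw [hRs]
      exact trig_smul S l N D hD g hg0 _
    simp_rw [h2] at h1
    rw [parseval_star hQ0 hIQ (fun m => ∑ k ∈ S, l k • g (m - k)), norm_smul, Complex.norm_natCast] at h1
    refine h1.trans ?_
    gcongr
    exact sq_conv v hc0 S l hD
  -- conclusion
  have hG := Gam_nonneg S l c N
  have hmain : (Q : ℝ) * ‖∑ n ∈ Icc (1 : ℤ) N, c n • (((w ^ n : unitary A) : A) * a * ((v ^ n : unitary A) : A))‖ ≤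
      Q * (‖a‖ * (C * √N + √N * √(Gam S l c N))) := by
    have e : (Q : ℝ) * ‖∑ n ∈ Icc (1 : ℤ) N, c n • (((w ^ n : unitary A) : A) * a * ((v ^ n : unitary A) : A))‖ =
        ‖∑ j ∈ range Q, P j * a * R j‖ := by
      rw [htot, norm_smul, Complex.norm_natCast]
    rw [e, hsplit]
    have h1 := cs_mid near P R a
    have h2 := cs_mid far P R a
    have hN0 : (0 : ℝ) ≤ N := by positivity
    have h3 : √‖∑ i ∈ near, P i * star (P i)‖ * √‖∑ i ∈ near, star (R i) * R i‖ ≤
        Q * (√N * √(Gam S l c N)) := by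
      calc _ ≤ √((Q : ℝ) * N) * √(Q * Gam S l c N) := by
            gcongr
            exact hPPm _ (Finset.filter_subset _ _)
        _ = (√Q * √Q) * (√N * √(Gam S l c N)) := by
            rw [Real.sqrt_mul hQR.le, Real.sqrt_mul hQR.le]; ring
        _ = _ := by rw [Real.mul_self_sqrt hQR.le]
    have h4 : √‖∑ i ∈ far, P i * star (P i)‖ * √‖∑ i ∈ far, star (R i) * R i‖ ≤
        Q * (C * √N) := by
      calc _ ≤ √((Q : ℝ) * C ^ 2) * √(Q * N) := by
            gcongr
            exact hRRm _ (Finset.filter_subset _ _)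
        _ = (√Q * √Q) * (C * √N) := by
            rw [Real.sqrt_mul hQR.le, Real.sqrt_mul hQR.le, Real.sqrt_sq hC0]; ring
        _ = _ := by rw [Real.mul_self_sqrt hQR.le]
    calc ‖∑ j ∈ near, P j * a * R j + ∑ j ∈ far, P j * a * R j‖
        ≤ ‖a‖ * (Q * (√N * √(Gam S l c N))) + ‖a‖ * (Q * (C * √N)) :=
          (norm_add_le _ _).trans (add_le_add
            (h1.trans (mul_le_mul_of_nonneg_left h3 (norm_nonneg _)))
            (h2.trans (mul_le_mul_of_nonneg_left h4 (norm_nonneg _))))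
      _ = _ := by ring
  exact le_of_mul_le_mul_left hmain hQR

end

end Pool.Agent.E8helper86.NS
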