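import Pool.Agent.E8helper86.NS.MulS

/-! Measures which dominate a multiple of the Lebesgue measure on a closed set. -/

set_option autoImplicit false

open MeasureTheory Topology Filter Finset
open scoped InnerProductSpace ENNReal NNReal

namespace Pool.Agent.E8helper86.NS

open Pool.Agent.Y958.U (LZ)

section

variable {σ : Measure UnitAddCircle} [IsFiniteMeasure σ] {K : Set UnitAddCircle} {δ : ℝ}

theorem dom_memLp (hK : IsClosed K) (hd : ν.restrict K ≤ ENNReal.ofReal δ⁻¹ • σ) (h : Lp ℂ 2 σ) :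
    MemLp (K.indicator h) 2 ν :=
  (memLp_indicator_iff_restrict hK.measurableSet).2 ((Lp.memLp h).of_measure_le_smul ENNReal.ofReal_ne_top hd)

theorem dom_ae (hK : IsClosed K) (hd : ν.restrict K ≤ ENNReal.ofReal δ⁻¹ • σ) {f g : UnitAddCircle → ℂ}
    (h : f =ᵐ[σ] g) : K.indicator f =ᵐ[ν] K.indicator g := by
  have h1 : ν.restrict K ≪ σ := Measure.absolutelyContinuous_of_le_smul hd
  exact (ae_eq_restrict_iff_indicator_ae_eq hK.measurableSet).1 (h1.ae_le h)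

/-- restriction to `K` -/
noncomputable def cutOp (hK : IsClosed K) (hd : ν.restrict K ≤ ENNReal.ofReal δ⁻¹ • σ) : Lp ℂ 2 σ →L[ℂ] L2T :=
  LinearMap.mkContinuous
    { toFun := fun h => (dom_memLp hK hd h).toLp (K.indicator h)
      map_add' := fun f g => by
        apply Lp.ext
        filter_upwards [(dom_memLp hK hd (f + g)).coeFn_toLp, (dom_memLp hK hd f).coeFn_toLp,
          (dom_memLp hK hd g).coeFn_toLp, dom_ae hK hd (Lp.coeFn_add f g),
          Lp.coeFn_add ((dom_memLp hK hd f).toLp (K.indicator f)) ((dom_memLp hK hd g).toLp (K.indicator g))]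
          with x h1 h2 h3 h4 h5
        rw [h1, h5, Pi.add_apply, h2, h3, h4, Set.indicator_add']
        rfl
      map_smul' := fun z f => by
        apply Lp.ext
        filter_upwards [(dom_memLp hK hd (z • f)).coeFn_toLp, (dom_memLp hK hd f).coeFn_toLp,
          dom_ae hK hd (Lp.coeFn_smul z f), Lp.coeFn_smul z ((dom_memLp hK hd f).toLp (K.indicator f))]
          with x h1 h2 h4 h5
        rw [RingHom.id_apply, h1, h5, Pi.smul_apply, h2, h4]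
        by_cases hx : x ∈ K
        · rw [Set.indicator_of_mem hx, Set.indicator_of_mem hx]
          rfl
        · rw [Set.indicator_of_notMem hx, Set.indicator_of_notMem hx, smul_zero] }
    (ENNReal.ofReal δ⁻¹ ^ (1 / (2 : ℝ≥0∞)).toReal).toReal (fun h => by
      show ‖(dom_memLp hK hd h).toLp (K.indicator h)‖ ≤ _ * ‖h‖
      rw [Lp.norm_toLp, eLpNorm_indicator_eq_eLpNorm_restrict hK.measurableSet, Lp.norm_def,
        ← ENNReal.toReal_mul]
      apply ENNReal.toReal_mono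
      · apply ENNReal.mul_ne_top
        · exact ENNReal.rpow_ne_top_of_nonneg ENNReal.toReal_nonneg ENNReal.ofReal_ne_top
        · exact (Lp.memLp h).2.ne
      · have h1 := eLpNorm_le_of_measure_le_smul (p := 2) (f := (h : UnitAddCircle → ℂ)) hd
        rwa [smul_eq_mul] at h1)

theorem cutOp_norm (hK : IsClosed K) (hd : ν.restrict K ≤ ENNReal.ofReal δ⁻¹ • σ) (hδ : 0 < δ) :
    ‖cutOp hK hd‖ ≤ √δ⁻¹ := by
  refine (LinearMap.mkContinuous_norm_le _ ENNReal.toReal_nonneg _).trans (le_of_eq ?_)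
  have h1 : (1 / (2 : ℝ≥0∞)).toReal = 1 / (2 : ℝ) := by simp
  rw [h1, ← ENNReal.toReal_rpow, ENNReal.toReal_ofReal (by positivity), Real.sqrt_eq_rpow]

theorem cutOp_ae (hK : IsClosed K) (hd : ν.restrict K ≤ ENNReal.ofReal δ⁻¹ • σ) (h : Lp ℂ 2 σ) :
    cutOp hK hd h =ᵐ[ν] K.indicator h := (dom_memLp hK hd h).coeFn_toLp

/-- the operator -/
noncomputable def bop (hK : IsClosed K) (hd : ν.restrict K ≤ ENNReal.ofReal δ⁻¹ • σ) {c : ℕ → ℂ} (hc : ∀ n, ‖c n‖ ≤ 1) :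
    Lp ℂ 2 σ →L[ℂ] Lp ℂ 2 σ :=
  (δ : ℂ) • ((ContinuousLinearMap.adjoint (cutOp hK hd)).comp ((fmul (bb c) (bb_le hc)).comp (cutOp hK hd)))

theorem bop_norm (hK : IsClosed K) (hd : ν.restrict K ≤ ENNReal.ofReal δ⁻¹ • σ) (hδ : 0 < δ) {c : ℕ → ℂ}
    (hc : ∀ n, ‖c n‖ ≤ 1) : ‖bop hK hd hc‖ ≤ 1 := by
  unfold bop
  rw [norm_smul, Complex.norm_real, Real.norm_of_nonneg hδ.le]
  calc δ * _ ≤ δ * (‖ContinuousLinearMap.adjoint (cutOp hK hd)‖ * (‖fmul (bb c) (bb_le hc)‖ * ‖cutOp hK hd‖)) := by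
        gcongr
        exact (ContinuousLinearMap.opNorm_comp_le _ _).trans (by gcongr; exact ContinuousLinearMap.opNorm_comp_le _ _)
    _ ≤ δ * (√δ⁻¹ * (1 * √δ⁻¹)) := by
        gcongr
        · rw [LinearIsometryEquiv.norm_map]
          exact cutOp_norm hK hd hδ
        · exact fmul_norm _ _
        · exact cutOp_norm hK hd hδ
    _ = 1 := by
        rw [one_mul, Real.mul_self_sqrt (by positivity)]
        exact mul_inv_cancel₀ hδ.ne'

/-- the transported vector -/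
theorem cut_vec (hK : IsClosed K) (hd : ν.restrict K ≤ ENNReal.ofReal δ⁻¹ • σ) (x₀ : UnitAddCircle) (n : ℕ) :
    cutOp hK hd (((star ((cyc σ : unitary (Lp ℂ 2 σ →L[ℂ] Lp ℂ 2 σ)) : Lp ℂ 2 σ →L[ℂ] Lp ℂ 2 σ)) ^ n) (one' σ)) =
      ((star (wop hK x₀ : L2T →L[ℂ] L2T)) ^ n) (ind hK) := by
  have h3 : (wop hK x₀ : L2T →L[ℂ] L2T) ^ n = mulOp fun x => sym K x₀ x ^ n :=
    mulOp_pow (sym_meas hK x₀) (sym_norm K x₀) n
  have hs1 : MemLp (fun x => sym K x₀ x ^ n) ⊤ ν := memTop ((sym_meas hK x₀).pow_const n) 1 fun x => by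
        rw [norm_pow, sym_norm, one_pow]
  have hs2 : MemLp (fun x => star (sym K x₀ x ^ n)) ⊤ ν :=
    memTop (continuous_star.measurable.comp ((sym_meas hK x₀).pow_const n)) 1 fun x => by
        rw [norm_star, norm_pow, sym_norm, one_pow]
  have h4 : (star (wop hK x₀ : L2T →L[ℂ] L2T)) ^ n = mulOp fun x => star (sym K x₀ x ^ n) := by
    rw [← star_pow, h3, mulOp_star hs1 hs2]
  have h5 : ((cyc σ : unitary (Lp ℂ 2 σ →L[ℂ] Lp ℂ 2 σ)) : Lp ℂ 2 σ →L[ℂ] Lp ℂ 2 σ) ^ n =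
      mulS σ fun x => (fourier 1 x : ℂ) ^ n :=
    mulS_pow (fourier 1).continuous.measurable (fun x => norm_fourier _ _) n
  have ht1 : MemLp (fun x => (fourier 1 x : ℂ) ^ n) ⊤ σ := memTopS ((fourier 1).continuous.measurable.pow_const n) 1 fun x => by
        rw [norm_pow, norm_fourier, one_pow]
  have ht2 : MemLp (fun x => star ((fourier 1 x : ℂ) ^ n)) ⊤ σ :=
    memTopS (continuous_star.measurable.comp ((fourier 1).continuous.measurable.pow_const n)) 1 fun x => by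
        rw [norm_star, norm_pow, norm_fourier, one_pow]
  have h6 : (star ((cyc σ : unitary (Lp ℂ 2 σ →L[ℂ] Lp ℂ 2 σ)) : Lp ℂ 2 σ →L[ℂ] Lp ℂ 2 σ)) ^ n =
      mulS σ fun x => star ((fourier 1 x : ℂ) ^ n) := by
    rw [← star_pow, h5, mulS_star ht1 ht2]
  rw [h4, h6]
  apply Lp.ext
  have h7 : (mulS σ (fun x => star ((fourier 1 x : ℂ) ^ n)) (one' σ) : UnitAddCircle → ℂ) =ᵐ[σ]
      fun x => star ((fourier 1 x : ℂ) ^ n) := by
    filter_upwards [mulS_ae ht2 (one' σ), one'_ae (σ := σ)] with x hx1 hx2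
    rw [hx1, hx2, mul_one]
  filter_upwards [cutOp_ae hK hd (mulS σ (fun x => star ((fourier 1 x : ℂ) ^ n)) (one' σ)), dom_ae hK hd h7,
    mulOp_ae hs2 (ind hK), ind_ae hK] with x h8 h9 h10 h11
  rw [h8, h9, h10, h11]
  by_cases hx : x ∈ K
  · rw [Set.indicator_of_mem hx, Set.indicator_of_mem hx]
    unfold sym
    rw [if_pos hx, mul_one]
  · rw [Set.indicator_of_notMem hx, Set.indicator_of_notMem hx, mul_zero]

/-- the coefficient -/
theorem bop_coeff (hK : IsClosed K) (hd : ν.restrict K ≤ ENNReal.ofReal δ⁻¹ • σ) (x₀ : UnitAddCircle) {c : ℕ → ℂ}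
    (hc : ∀ n, ‖c n‖ ≤ 1) (hm : 0 < ν.real K) (n : ℕ) :
    ⟪((star ((cyc σ : unitary (Lp ℂ 2 σ →L[ℂ] Lp ℂ 2 σ)) : Lp ℂ 2 σ →L[ℂ] Lp ℂ 2 σ)) ^ n) (one' σ),
      bop hK hd hc (((star ((cyc σ : unitary (Lp ℂ 2 σ →L[ℂ] Lp ℂ 2 σ)) : Lp ℂ 2 σ →L[ℂ] Lp ℂ 2 σ)) ^ n) (one' σ))⟫_ℂ =
    ((δ * ν.real K : ℝ) : ℂ) * ⟪unitInd hK, ((wop hK x₀ : L2T →L[ℂ] L2T) ^ n *
      fmul (bb c) (bb_le hc) * (star (wop hK x₀ : L2T →L[ℂ] L2T)) ^ n) (unitInd hK)⟫_ℂ := by
  set y := ((star ((cyc σ : unitary (Lp ℂ 2 σ →L[ℂ] Lp ℂ 2 σ)) : Lp ℂ 2 σ →L[ℂ] Lp ℂ 2 σ)) ^ n) (one' σ) with hy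
  set W : L2T →L[ℂ] L2T := (wop hK x₀ : L2T →L[ℂ] L2T) with hW
  have h1 : ⟪y, bop hK hd hc y⟫_ℂ = (δ : ℂ) * ⟪cutOp hK hd y, fmul (bb c) (bb_le hc) (cutOp hK hd y)⟫_ℂ := by
    show ⟪y, (δ : ℂ) • (ContinuousLinearMap.adjoint (cutOp hK hd)) (fmul (bb c) (bb_le hc) (cutOp hK hd y))⟫_ℂ = _
    rw [inner_smul_right, ContinuousLinearMap.adjoint_inner_right]
  have h2 : ind hK = ((√(ν.real K) : ℝ) : ℂ) • unitInd hK := by
    unfold unitInd
    have h3 : ((√(ν.real K) : ℝ) : ℂ) ≠ 0 := by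
      have := Real.sqrt_pos.2 hm
      exact_mod_cast this.ne'
    rw [smul_smul, mul_inv_cancel₀ h3, one_smul]
  have h3 : ⟪ind hK, (W ^ n * fmul (bb c) (bb_le hc) * (star W) ^ n) (ind hK)⟫_ℂ =
      ⟪((star W) ^ n) (ind hK), fmul (bb c) (bb_le hc) (((star W) ^ n) (ind hK))⟫_ℂ := by
    show ⟪ind hK, (W ^ n) (fmul (bb c) (bb_le hc) (((star W) ^ n) (ind hK)))⟫_ℂ = _
    have h6 : (star W) ^ n = ContinuousLinearMap.adjoint (W ^ n) := by
      rw [← star_pow, ContinuousLinearMap.star_eq_adjoint]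
    rw [← ContinuousLinearMap.adjoint_inner_left, ← h6]
  have h4 : ⟪ind hK, (W ^ n * fmul (bb c) (bb_le hc) * (star W) ^ n) (ind hK)⟫_ℂ = (ν.real K : ℂ) *
      ⟪unitInd hK, (W ^ n * fmul (bb c) (bb_le hc) * (star W) ^ n) (unitInd hK)⟫_ℂ := by
    rw [h2, map_smul, inner_smul_left, inner_smul_right, ← mul_assoc, Complex.conj_ofReal, ← Complex.ofReal_mul,
      Real.mul_self_sqrt hm.le]
  rw [h1, hy, cut_vec hK hd x₀ n, ← h3, h4]
  push_cast
  ring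

end

end Pool.Agent.E8helper86.NS
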