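import Pool.Agent.Y958.U.Diag

/-! From almost all scales to logarithmic means, uniformly for vector valued sequences. -/

set_option autoImplicit false

open Finset Filter Topology

namespace Pool.Agent.E8helper86.NS

open Pool.Agent.Y958.U (LZ LZ_iff LZ_union LZ_bdd ls li ls_eq li_mem li_not ls_nonneg)

universe u

/-- Abel summation -/
theorem abel_vec {V : Type*} [AddCommGroup V] [Module ℂ V] (x : ℕ → V) (X : ℕ) :
    ∑ n ∈ Icc 1 X, ((1 / (n : ℝ) : ℝ) : ℂ) • x n =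
    ∑ N ∈ Icc 1 X, ((1 / ((N : ℝ) * (N + 1)) : ℝ) : ℂ) • (∑ n ∈ Icc 1 N, x n) +
      ((1 / ((X : ℝ) + 1) : ℝ) : ℂ) • (∑ n ∈ Icc 1 X, x n) := by
  induction X with
  | zero => simp
  | succ X ih =>
    rw [sum_Icc_succ_top (by omega), sum_Icc_succ_top (by omega), ih, sum_Icc_succ_top (by omega)]
    have h1 : (X : ℝ) + 1 ≠ 0 := by positivity
    have h2 : (X : ℝ) + 1 + 1 ≠ 0 := by positivity
    have e1 : (1 / ((X : ℝ) + 1) : ℝ) = 1 / (((X + 1 : ℕ) : ℝ) * (((X + 1 : ℕ) : ℝ) + 1)) + 1 / (((X + 1 : ℕ) : ℝ) + 1) := by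
      push_cast
      field_simp
      ring
    have e2 : (1 / ((X + 1 : ℕ) : ℝ) : ℝ) = 1 / (((X + 1 : ℕ) : ℝ) * (((X + 1 : ℕ) : ℝ) + 1)) + 1 / (((X + 1 : ℕ) : ℝ) + 1) := by
      push_cast
      field_simp
      ring
    rw [e1, e2]
    simp only [smul_add, Complex.ofReal_add, add_smul]
    abel

theorem log_unif {E : Set ℕ} (hE : LZ E) (ε : ℝ) (hε : 0 < ε) (N₀ : ℕ) :
    ∃ X₀ : ℕ, ∀ X ≥ X₀, ∀ (V : Type u) [NormedAddCommGroup V] [NormedSpace ℂ V] (x : ℕ → V) (M : ℝ), 0 ≤ M →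
      (∀ n, ‖x n‖ ≤ M) → (∀ N ≥ N₀, N ∉ E → ‖∑ n ∈ Icc 1 N, x n‖ ≤ ε * N * M) →
      ‖∑ n ∈ Icc 1 X, ((1 / (n : ℝ) : ℝ) : ℂ) • x n‖ ≤ 4 * ε * Real.log X * M := by
  classical
  have hE1 : LZ (E ∪ {n | n < N₀}) := LZ_union hE (LZ_bdd _ N₀ fun n hn => hn)
  obtain ⟨X₁, hX₁⟩ := (LZ_iff _).1 hE1 ε hε
  have hlog : Tendsto (fun X : ℕ => Real.log X) atTop atTop :=
    Real.tendsto_log_atTop.comp tendsto_natCast_atTop_atTop
  obtain ⟨X₂, hX₂⟩ := eventually_atTop.1 (hlog.eventually_ge_atTop ((1 + ε) / ε))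
  refine ⟨X₁ + X₂ + 2, fun X hX V _ _ x M hM hx h => ?_⟩
  have h1 := hX₁ X (by omega)
  have h2 := hX₂ X (by omega)
  rw [div_le_iff₀ hε] at h2
  have hlog0 : 0 ≤ Real.log X := Real.log_natCast_nonneg X
  have hS : ∀ N : ℕ, ‖∑ n ∈ Icc 1 N, x n‖ ≤ N * M := by
    intro N
    refine (norm_sum_le _ _).trans ((sum_le_sum fun k _ => hx _).trans (le_of_eq ?_))
    simp
  rw [abel_vec]
  have h3 : ‖((1 / ((X : ℝ) + 1) : ℝ) : ℂ) • (∑ n ∈ Icc 1 X, x n)‖ ≤ M := by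
    rw [norm_smul, Complex.norm_real, Real.norm_of_nonneg (by positivity)]
    calc 1 / ((X : ℝ) + 1) * ‖∑ n ∈ Icc 1 X, x n‖ ≤ 1 / ((X : ℝ) + 1) * (X * M) := by
          gcongr
          exact hS X
      _ = X / ((X : ℝ) + 1) * M := by ring
      _ ≤ 1 * M := by
          gcongr
          rw [div_le_one (by positivity)]
          linarith
      _ = M := one_mul M
  have h4 : ‖∑ N ∈ Icc 1 X, ((1 / ((N : ℝ) * (N + 1)) : ℝ) : ℂ) • (∑ n ∈ Icc 1 N, x n)‖ ≤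
      (ε * (1 + Real.log X) + ls (E ∪ {n | n < N₀}) X) * M := by
    refine (norm_sum_le _ _).trans ?_
    have h5 : ∀ N ∈ Icc 1 X, ‖((1 / ((N : ℝ) * (N + 1)) : ℝ) : ℂ) • (∑ n ∈ Icc 1 N, x n)‖ ≤
        (ε * (1 / (N : ℝ)) + li (E ∪ {n | n < N₀}) N) * M := by
      intro N hN
      rw [mem_Icc] at hN
      have hN0 : (0 : ℝ) < N := by exact_mod_cast (by omega : 0 < N)
      have e1 : (0 : ℝ) < 1 / ((N : ℝ) * (N + 1)) := by positivity
      rw [norm_smul, Complex.norm_real, Real.norm_of_nonneg e1.le]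
      have e2 : (N : ℝ) * (1 / ((N : ℝ) * (N + 1))) ≤ 1 / N := by
        rw [mul_one_div, div_le_div_iff₀ (by positivity) hN0]
        nlinarith
      by_cases hNE : N ∈ E ∪ {n | n < N₀}
      · rw [li_mem hNE]
        have h6 : 0 ≤ ε * (1 / (N : ℝ)) := by positivity
        calc 1 / ((N : ℝ) * (N + 1)) * ‖∑ n ∈ Icc 1 N, x n‖ ≤ 1 / ((N : ℝ) * (N + 1)) * (N * M) := by
              gcongr
              exact hS N
          _ = (N * (1 / ((N : ℝ) * (N + 1)))) * M := by ring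
          _ ≤ (ε * (1 / (N : ℝ)) + 1 / N) * M := by
              apply mul_le_mul_of_nonneg_right _ hM
              linarith
      · rw [li_not hNE, add_zero]
        have h6 : N ∉ E := fun hh => hNE (Or.inl hh)
        have h7 : N₀ ≤ N := by
          by_contra hcc
          exact hNE (Or.inr (not_le.1 hcc))
        calc 1 / ((N : ℝ) * (N + 1)) * ‖∑ n ∈ Icc 1 N, x n‖ ≤ 1 / ((N : ℝ) * (N + 1)) * (ε * N * M) :=
              mul_le_mul_of_nonneg_left (h N h7 h6) e1.le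
          _ = ε * (N * (1 / ((N : ℝ) * (N + 1)))) * M := by ring
          _ ≤ ε * (1 / N) * M := by gcongr
    refine (sum_le_sum h5).trans ?_
    rw [← sum_mul, sum_add_distrib, ← mul_sum, ls_eq]
    apply mul_le_mul_of_nonneg_right _ hM
    apply add_le_add _ le_rfl
    apply mul_le_mul_of_nonneg_left _ hε.le
    have h8 := harmonic_le_one_add_log X
    rw [harmonic_eq_sum_Icc] at h8
    push_cast at h8
    simpa only [one_div] using h8
  calc _ ≤ (ε * (1 + Real.log X) + ls (E ∪ {n | n < N₀}) X) * M + M := (norm_add_le _ _).trans (add_le_add h4 h3)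
    _ = (ε * (1 + Real.log X) + ls (E ∪ {n | n < N₀}) X + 1) * M := by ring
    _ ≤ (4 * ε * Real.log X) * M := by
        apply mul_le_mul_of_nonneg_right _ hM
        nlinarith

end Pool.Agent.E8helper86.NS
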