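import Pool.Agent.E8helper86.NS.Mul
import Pool.Agent.E8helper86.NS.Corr

/-! Sharpness: for closed sets of positive measure the averages do not tend to zero. -/

set_option autoImplicit false

open MeasureTheory Topology Filter Finset
open scoped InnerProductSpace ENNReal

namespace Pool.Agent.E8helper86.NS

/-- the entries of the multiplier -/
noncomputable def bb (c : ℕ → ℂ) (k : ℤ) : ℂ := if k ≤ -1 then star (c (-k).toNat) else 0

theorem bb_le {c : ℕ → ℂ} (hc : ∀ n, ‖c n‖ ≤ 1) (k : ℤ) : ‖bb c k‖ ≤ 1 := by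
  unfold bb
  split_ifs
  · rw [norm_star]; exact hc _
  · simp

theorem bb_neg (c : ℕ → ℂ) {n : ℕ} (hn : 1 ≤ n) : bb c (-(n : ℤ)) = star (c n) := by
  unfold bb
  rw [if_pos (by omega), neg_neg, Int.toNat_natCast]

open Classical in
/-- the symbol -/
noncomputable def sym (K : Set UnitAddCircle) (x₀ : UnitAddCircle) (x : UnitAddCircle) : ℂ :=
  if x ∈ K then fourier 1 x else fourier 1 x₀

theorem sym_meas {K : Set UnitAddCircle} (hK : IsClosed K) (x₀ : UnitAddCircle) : Measurable (sym K x₀) := by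
  unfold sym
  exact Measurable.ite hK.measurableSet (fourier 1).continuous.measurable measurable_const

theorem sym_norm (K : Set UnitAddCircle) (x₀ x : UnitAddCircle) : ‖sym K x₀ x‖ = 1 := by
  unfold sym
  split_ifs <;> exact norm_fourier _ _

/-- the unitary -/
noncomputable def wop {K : Set UnitAddCircle} (hK : IsClosed K) (x₀ : UnitAddCircle) : unitary (L2T →L[ℂ] L2T) :=
  ⟨mulOp (sym K x₀), mulOp_unitary (sym_meas hK x₀) (sym_norm K x₀)⟩

theorem wop_spec {K : Set UnitAddCircle} (hK : IsClosed K) {x₀ : UnitAddCircle} (hx₀ : x₀ ∈ K) :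
    uspec (wop hK x₀) ⊆ K := by
  intro θ hθ
  by_contra hcon
  obtain ⟨y₀, hy₀, hmin⟩ := hK.isCompact.exists_isMinOn ⟨x₀, hx₀⟩
    (f := fun y : UnitAddCircle => ‖(fourier 1 y : ℂ) - (fourier 1 θ : ℂ)‖) (by fun_prop)
  have hpos : 0 < ‖(fourier 1 y₀ : ℂ) - (fourier 1 θ : ℂ)‖ := by
    rw [norm_pos_iff, sub_ne_zero, fourier_one, fourier_one]
    intro h
    have := AddCircle.injective_toCircle one_ne_zero (Subtype.ext h)
    exact hcon (this ▸ hy₀)
  refine mulOp_spectrum (sym_meas hK x₀) (sym_norm K x₀) hpos (fun x => ?_) hθ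
  unfold sym
  split_ifs with h
  · exact hmin h
  · exact hmin hx₀

/-- the second unitary -/
noncomputable def vop : unitary (L2T →L[ℂ] L2T) :=
  ⟨mulOp (fun x => (fourier (-1) x : ℂ)), mulOp_unitary (fourier (-1)).continuous.measurable (fun _ => norm_fourier _ _)⟩

/-- the indicator of `K` -/
noncomputable def ind {K : Set UnitAddCircle} (hK : IsClosed K) : L2T :=
  indicatorConstLp 2 (μ := ν) hK.measurableSet (measure_ne_top _ _) (1 : ℂ)

theorem ind_ae {K : Set UnitAddCircle} (hK : IsClosed K) : ind hK =ᵐ[ν] K.indicator fun _ => (1 : ℂ) :=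
  indicatorConstLp_coeFn

theorem ind_norm {K : Set UnitAddCircle} (hK : IsClosed K) : ‖ind hK‖ ^ 2 = ν.real K := by
  unfold ind
  rw [norm_indicatorConstLp (by norm_num) (by norm_num)]
  simp only [norm_one, one_mul, ENNReal.toReal_ofNat]
  rw [← Real.rpow_natCast, ← Real.rpow_mul measureReal_nonneg]
  norm_num

theorem ind_inner {K : Set UnitAddCircle} (hK : IsClosed K) (f : L2T) : ⟪ind hK, f⟫_ℂ = ∫ x in K, f x ∂ν :=
  L2.inner_indicatorConstLp_one hK.measurableSet (measure_ne_top _ _) f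

theorem char_norm (k : ℤ) : ‖(fourierLp 2 k : L2T)‖ = 1 := (orthonormal_fourier (T := 1)).1 k

theorem fourier_pow' (k : ℤ) (n : ℕ) (x : UnitAddCircle) : (fourier k x : ℂ) ^ n = (fourier (n * k) x : ℂ) := by
  induction n with
  | zero => simp
  | succ n ih =>
    rw [pow_succ, ih, ← fourier_add]
    congr 2
    push_cast
    ring

/-- the matrix coefficient for the pair -/
theorem coeff_pair {K : Set UnitAddCircle} (hK : IsClosed K) (x₀ : UnitAddCircle) {c : ℕ → ℂ} (hc : ∀ n, ‖c n‖ ≤ 1)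
    {n : ℕ} (hn : 1 ≤ n) :
    ⟪ind hK, ((wop hK x₀ : L2T →L[ℂ] L2T) ^ n * fmul (bb c) (bb_le hc) * (vop : L2T →L[ℂ] L2T) ^ n) (fourierLp 2 0)⟫_ℂ =
      star (c n) * ν.real K := by
  have h1 : ((vop : L2T →L[ℂ] L2T) ^ n) (fourierLp 2 0) = fourierLp 2 (-(n : ℤ)) := by
    apply Lp.ext
    have h2 : (vop : L2T →L[ℂ] L2T) ^ n = mulOp fun x => (fourier (-1) x : ℂ) ^ n :=
      mulOp_pow (fourier (-1)).continuous.measurable (fun x => norm_fourier _ _) n
    rw [h2]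
    filter_upwards [mulOp_ae (g := fun x => (fourier (-1) x : ℂ) ^ n)
      (memTop ((fourier (-1)).continuous.measurable.pow_const n) 1 fun x => by
        rw [norm_pow, norm_fourier, one_pow]) (fourierLp 2 0), coeFn_fourierLp (T := 1) 2 0,
        coeFn_fourierLp (T := 1) 2 (-(n : ℤ))] with x hx1 hx2 hx3
    rw [hx1, hx2, hx3, fourier_pow']
    simp
  have h3 : (wop hK x₀ : L2T →L[ℂ] L2T) ^ n = mulOp fun x => sym K x₀ x ^ n :=
    mulOp_pow (sym_meas hK x₀) (sym_norm K x₀) n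
  show ⟪ind hK, ((wop hK x₀ : L2T →L[ℂ] L2T) ^ n) (fmul (bb c) (bb_le hc) (((vop : L2T →L[ℂ] L2T) ^ n) (fourierLp 2 0)))⟫_ℂ = _
  rw [h1, fmul_char, map_smul, inner_smul_right, bb_neg c hn, h3, ind_inner]
  congr 1
  have h4 : ∀ᵐ x ∂(ν.restrict K), (mulOp (fun x => sym K x₀ x ^ n) (fourierLp 2 (-(n : ℤ)) : L2T)) x = 1 := by
    rw [ae_restrict_iff' hK.measurableSet]
    filter_upwards [mulOp_ae (g := fun x => sym K x₀ x ^ n)
      (memTop ((sym_meas hK x₀).pow_const n) 1 fun x => by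
        rw [norm_pow, sym_norm, one_pow]) (fourierLp 2 (-(n : ℤ))), coeFn_fourierLp (T := 1) 2 (-(n : ℤ))] with x hx1 hx2 hxK
    rw [hx1, hx2]
    unfold sym
    rw [if_pos hxK, fourier_pow', ← fourier_add]
    simp
  rw [integral_congr_ae h4]
  simp

theorem sharp_pair {K : Set UnitAddCircle} (hK : IsClosed K) (x₀ : UnitAddCircle) {c : ℕ → ℂ} (hc : ∀ n, ‖c n‖ ≤ 1)
    (N : ℕ) :
    √(ν.real K) * ∑ n ∈ Icc 1 N, ‖c n‖ ^ 2 ≤ ‖∑ n ∈ Icc 1 N, c n • ((wop hK x₀ : L2T →L[ℂ] L2T) ^ n *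
      fmul (bb c) (bb_le hc) * (vop : L2T →L[ℂ] L2T) ^ n)‖ := by
  set T : L2T →L[ℂ] L2T := ∑ n ∈ Icc 1 N, c n • ((wop hK x₀ : L2T →L[ℂ] L2T) ^ n *
      fmul (bb c) (bb_le hc) * (vop : L2T →L[ℂ] L2T) ^ n) with hT
  have h1 : ⟪ind hK, T (fourierLp 2 0)⟫_ℂ = ((ν.real K * ∑ n ∈ Icc 1 N, ‖c n‖ ^ 2 : ℝ) : ℂ) := by
    rw [hT, _root_.sum_apply, inner_sum, Finset.mul_sum, Complex.ofReal_sum]
    refine Finset.sum_congr rfl fun n hn => ?_
    rw [_root_.smul_apply, inner_smul_right, coeff_pair hK x₀ hc (mem_Icc.1 hn).1, ← mul_assoc,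
      Complex.star_def, Complex.mul_conj, Complex.normSq_eq_norm_sq, ← Complex.ofReal_mul, mul_comm]
  have h0 : (0 : ℝ) ≤ ∑ n ∈ Icc 1 N, ‖c n‖ ^ 2 := Finset.sum_nonneg fun _ _ => by positivity
  have hm : 0 ≤ ν.real K := measureReal_nonneg
  have h2 : ν.real K * ∑ n ∈ Icc 1 N, ‖c n‖ ^ 2 ≤ √(ν.real K) * ‖T‖ := by
    calc ν.real K * ∑ n ∈ Icc 1 N, ‖c n‖ ^ 2 = ‖⟪ind hK, T (fourierLp 2 0)⟫_ℂ‖ := by
          rw [h1, Complex.norm_real, Real.norm_of_nonneg (by positivity)]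
      _ ≤ ‖ind hK‖ * ‖T (fourierLp 2 0)‖ := norm_inner_le_norm _ _
      _ ≤ ‖ind hK‖ * (‖T‖ * 1) := by
          gcongr
          have h7 := T.le_opNorm (fourierLp 2 0)
          rwa [char_norm] at h7
      _ = √(ν.real K) * ‖T‖ := by
          rw [← ind_norm hK, Real.sqrt_sq (norm_nonneg _), mul_one]
  rcases hm.eq_or_lt with h3 | h3
  · rw [← h3]; simp
  · have h4 : 0 < √(ν.real K) := Real.sqrt_pos.2 h3
    have h5 : √(ν.real K) * (√(ν.real K) * ∑ n ∈ Icc 1 N, ‖c n‖ ^ 2) ≤ √(ν.real K) * ‖T‖ := by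
      rw [← mul_assoc, Real.mul_self_sqrt hm]
      exact h2
    exact le_of_mul_le_mul_left h5 h4

/-- the squares of the Fourier coefficients of the indicator -/
noncomputable def gam {K : Set UnitAddCircle} (hK : IsClosed K) (h : ℤ) : ℝ := ‖fourierCoeff (ind hK) h‖ ^ 2

theorem gam_sum {K : Set UnitAddCircle} (hK : IsClosed K) : HasSum (gam hK) (ν.real K) := by
  have h := hasSum_sq_fourierCoeff (ind hK)
  have h2 : ∫ t, ‖ind hK t‖ ^ 2 ∂ν = ν.real K := by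
    rw [← ind_norm hK]
    have h3 := inner_self_eq_norm_sq_to_K (𝕜 := ℂ) (ind hK)
    rw [L2.inner_def] at h3
    have h4 : ∫ a, ⟪ind hK a, ind hK a⟫_ℂ ∂ν = ((∫ t, ‖ind hK t‖ ^ 2 ∂ν : ℝ) : ℂ) := by
      rw [← integral_complex_ofReal]
      refine integral_congr_ae (Eventually.of_forall fun t => ?_)
      show ⟪ind hK t, ind hK t⟫_ℂ = _
      rw [inner_self_eq_norm_sq_to_K]
      push_cast
      rfl
    rw [h4] at h3
    have h5 : ((∫ t, ‖ind hK t‖ ^ 2 ∂ν : ℝ) : ℂ) = ((‖ind hK‖ ^ 2 : ℝ) : ℂ) := by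
      rw [h3]
      push_cast
      rfl
    exact Complex.ofReal_injective h5
  rw [h2] at h
  exact h

theorem gam_zero {K : Set UnitAddCircle} (hK : IsClosed K) : gam hK 0 = (ν.real K) ^ 2 := by
  unfold gam fourierCoeff
  have h1 : ∫ t : UnitAddCircle, (fourier (-0) t : ℂ) • ind hK t ∂ν = ν.real K := by
    have h2 : ∀ᵐ t ∂ν, (fourier (-0) t : ℂ) • ind hK t = K.indicator (fun _ => (1 : ℂ)) t := by
      filter_upwards [ind_ae hK] with t ht
      rw [ht]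
      simp
    rw [integral_congr_ae h2, integral_indicator hK.measurableSet]
    simp
  rw [h1, Complex.norm_real, Real.norm_of_nonneg measureReal_nonneg]

theorem coeff_auto {K : Set UnitAddCircle} (hK : IsClosed K) (x₀ : UnitAddCircle) {c : ℕ → ℂ} (hc : ∀ n, ‖c n‖ ≤ 1)
    (n : ℕ) :
    ⟪ind hK, ((wop hK x₀ : L2T →L[ℂ] L2T) ^ n * fmul (bb c) (bb_le hc) * (star (wop hK x₀ : L2T →L[ℂ] L2T)) ^ n) (ind hK)⟫_ℂ =
      ∑' h : ℤ, bb c (h - n) * ((gam hK h : ℝ) : ℂ) := by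
  set W : L2T →L[ℂ] L2T := (wop hK x₀ : L2T →L[ℂ] L2T) with hW
  have h3 : W ^ n = mulOp fun x => sym K x₀ x ^ n :=
    mulOp_pow (sym_meas hK x₀) (sym_norm K x₀) n
  have hs1 : MemLp (fun x => sym K x₀ x ^ n) ⊤ ν := memTop ((sym_meas hK x₀).pow_const n) 1 fun x => by
        rw [norm_pow, sym_norm, one_pow]
  have hs2 : MemLp (fun x => star (sym K x₀ x ^ n)) ⊤ ν :=
    memTop (continuous_star.measurable.comp ((sym_meas hK x₀).pow_const n)) 1 fun x => by
        rw [norm_star, norm_pow, sym_norm, one_pow]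
  have h4 : (star W) ^ n = mulOp fun x => star (sym K x₀ x ^ n) := by
    rw [← star_pow, h3, mulOp_star hs1 hs2]
  have h5 : ⟪ind hK, (W ^ n * fmul (bb c) (bb_le hc) * (star W) ^ n) (ind hK)⟫_ℂ =
      ⟪((star W) ^ n) (ind hK), fmul (bb c) (bb_le hc) (((star W) ^ n) (ind hK))⟫_ℂ := by
    show ⟪ind hK, (W ^ n) (fmul (bb c) (bb_le hc) (((star W) ^ n) (ind hK)))⟫_ℂ = _
    have h6 : (star W) ^ n = ContinuousLinearMap.adjoint (W ^ n) := by
      rw [← star_pow, ContinuousLinearMap.star_eq_adjoint]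
    rw [← ContinuousLinearMap.adjoint_inner_left, ← h6]
  rw [h5, fmul_form]
  have h7 : ∀ k : ℤ, fourierCoeff (((star W) ^ n) (ind hK)) k = fourierCoeff (ind hK) (k + n) := by
    intro k
    unfold fourierCoeff
    apply integral_congr_ae
    rw [h4]
    filter_upwards [mulOp_ae hs2 (ind hK), ind_ae hK] with t ht1 ht2
    rw [ht1, ht2]
    by_cases ht : t ∈ K
    · rw [Set.indicator_of_mem ht]
      unfold sym
      rw [if_pos ht, fourier_pow', smul_eq_mul, smul_eq_mul, mul_one, mul_one, Complex.star_def, ← fourier_neg,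
        ← fourier_add, mul_one, show (-k + -(n : ℤ)) = -(k + n) by ring]
    · rw [Set.indicator_of_notMem ht]
      simp
  simp_rw [h7]
  rw [← (Equiv.addRight (n : ℤ)).tsum_eq (fun h => bb c (h - n) * ((gam hK h : ℝ) : ℂ))]
  refine tsum_congr fun k => ?_
  rw [Equiv.coe_addRight, add_sub_cancel_right]
  rfl

/-- shifted correlations, positive shifts -/
theorem C_pos {c : ℕ → ℂ} (hc : ∀ n, ‖c n‖ ≤ 1) (N j : ℕ) :
    ‖∑ n ∈ Icc 1 N, c n * bb c ((j : ℤ) - n)‖ ≤ ‖∑ n ∈ Icc 1 N, star (c n) * c (n + j)‖ + j := by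
  have h1 : ∑ n ∈ Icc 1 N, c n * bb c ((j : ℤ) - n) = ∑ n ∈ (Icc 1 N).filter (fun m => m + j ≤ N), star (c n) * c (n + j) := by
    have h2 : ∑ n ∈ Icc 1 N, c n * bb c ((j : ℤ) - n) = ∑ n ∈ (Icc 1 N).filter (fun n => j < n), c n * bb c ((j : ℤ) - n) := by
      symm
      apply Finset.sum_filter_of_ne
      intro n _ hne
      by_contra hcon
      apply hne
      unfold bb
      rw [if_neg (by omega), mul_zero]
    rw [h2]
    refine Finset.sum_nbij' (fun n => n - j) (fun n => n + j) ?_ ?_ ?_ ?_ ?_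
    · intro n hn
      rw [mem_filter, mem_Icc] at *
      omega
    · intro n hn
      rw [mem_filter, mem_Icc] at *
      omega
    · intro n hn
      rw [mem_filter, mem_Icc] at hn
      omega
    · intro n hn
      simp
    · intro n hn
      rw [mem_filter, mem_Icc] at hn
      unfold bb
      rw [if_pos (by omega), show (-((j : ℤ) - n)).toNat = n - j by omega, show n - j + j = n by omega, mul_comm]
  have h3 : ∑ n ∈ Icc 1 N, star (c n) * c (n + j) = ∑ n ∈ (Icc 1 N).filter (fun m => m + j ≤ N), star (c n) * c (n + j) +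
      ∑ n ∈ (Icc 1 N).filter (fun m => ¬ m + j ≤ N), star (c n) * c (n + j) :=
    (Finset.sum_filter_add_sum_filter_not _ _ _).symm
  have h4 : ‖∑ n ∈ (Icc 1 N).filter (fun m => ¬ m + j ≤ N), star (c n) * c (n + j)‖ ≤ j := by
    calc ‖∑ n ∈ (Icc 1 N).filter (fun m => ¬ m + j ≤ N), star (c n) * c (n + j)‖
        ≤ ∑ n ∈ (Icc 1 N).filter (fun m => ¬ m + j ≤ N), (1 : ℝ) := by
          refine (norm_sum_le _ _).trans (Finset.sum_le_sum fun n _ => ?_)
          rw [norm_mul, norm_star]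
          exact mul_le_one₀ (hc _) (norm_nonneg _) (hc _)
      _ = ((Icc 1 N).filter (fun m => ¬ m + j ≤ N)).card := by simp
      _ ≤ j := by
          have h6 : (Icc 1 N).filter (fun m => ¬ m + j ≤ N) ⊆ Ioc (N - j) N := by
            intro n hn
            rw [mem_filter, mem_Icc] at hn
            rw [mem_Ioc]
            omega
          have h7 := Finset.card_le_card h6
          rw [Nat.card_Ioc] at h7
          exact_mod_cast (by omega : ((Icc 1 N).filter (fun m => ¬ m + j ≤ N)).card ≤ j)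
  rw [h1, h3]
  set X := ∑ n ∈ (Icc 1 N).filter (fun m => m + j ≤ N), star (c n) * c (n + j)
  set Y := ∑ n ∈ (Icc 1 N).filter (fun m => ¬ m + j ≤ N), star (c n) * c (n + j)
  have h5 : ‖X‖ ≤ ‖X + Y‖ + ‖Y‖ := by
    have := norm_sub_le (X + Y) Y
    rwa [add_sub_cancel_right] at this
  linarith

theorem C_neg (c : ℕ → ℂ) (N j : ℕ) :
    ∑ n ∈ Icc 1 N, c n * bb c (-(j : ℤ) - n) = star (∑ n ∈ Icc 1 N, star (c n) * c (n + j)) := by
  rw [star_sum]
  refine Finset.sum_congr rfl fun n hn => ?_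
  rw [mem_Icc] at hn
  unfold bb
  rw [if_pos (by omega), show (-(-(j : ℤ) - n)).toNat = n + j by omega, star_mul', star_star]

theorem C_zero (c : ℕ → ℂ) (N : ℕ) :
    ∑ n ∈ Icc 1 N, c n * bb c ((0 : ℤ) - n) = ((∑ n ∈ Icc 1 N, ‖c n‖ ^ 2 : ℝ) : ℂ) := by
  push_cast
  refine Finset.sum_congr rfl fun n hn => ?_
  rw [zero_sub, bb_neg c (mem_Icc.1 hn).1, Complex.star_def, Complex.mul_conj, Complex.normSq_eq_norm_sq]
  push_cast
  rfl

theorem C_ev {E : Set ℕ} {c : ℕ → ℂ} (hc : ∀ n, ‖c n‖ ≤ 1) (hE : CorrZero E c) (h : ℤ) (hh : h ≠ 0)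
    (δ : ℝ) (hδ : 0 < δ) : ∀ᶠ N : ℕ in Lf E, ‖∑ n ∈ Icc 1 N, c n * bb c (h - n)‖ ≤ δ * N := by
  rw [ev_Lf]
  obtain ⟨N₀, hN₀⟩ := hE h.natAbs (by omega) (δ / 2) (by positivity)
  obtain ⟨N₁, hN₁⟩ := exists_nat_gt (2 * h.natAbs / δ)
  refine ⟨max N₀ N₁, fun N hN hNE => ?_⟩
  have h1 := hN₀ N (le_trans (le_max_left _ _) hN) hNE
  have h2 : (2 * h.natAbs / δ : ℝ) ≤ N := hN₁.le.trans (by exact_mod_cast le_trans (le_max_right _ _) hN)
  rw [div_le_iff₀ hδ] at h2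
  rcases Int.natAbs_eq h with h5 | h5
  · have h3 := C_pos hc N h.natAbs
    rw [← h5] at h3
    linarith
  · have h3 := C_neg c N h.natAbs
    rw [← h5] at h3
    rw [h3, norm_star]
    have : (0 : ℝ) ≤ δ / 2 * N := by positivity
    linarith

theorem sharp_auto {K : Set UnitAddCircle} (hK : IsClosed K) (x₀ : UnitAddCircle) (hm : 0 < ν.real K) {E : Set ℕ}
    {c : ℕ → ℂ} (hc : ∀ n, ‖c n‖ ≤ 1) (hE : CorrZero E c) (ε : ℝ) (hε : 0 < ε) :
    ∀ᶠ N : ℕ in Lf E, ‖⟪ind hK, (∑ n ∈ Icc 1 N, c n • ((wop hK x₀ : L2T →L[ℂ] L2T) ^ n *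
      fmul (bb c) (bb_le hc) * (star (wop hK x₀ : L2T →L[ℂ] L2T)) ^ n)) (ind hK)⟫_ℂ -
      ((ν.real K ^ 2 * ∑ n ∈ Icc 1 N, ‖c n‖ ^ 2 : ℝ) : ℂ)‖ ≤ ε * ν.real K * N := by
  classical
  set m := ν.real K with hmd
  have hm1 : m ≤ 1 := by
    rw [hmd, measureReal_def]
    exact ENNReal.toReal_le_of_le_ofReal zero_le_one (by simpa using prob_le_one)
  have hG := gam_sum hK
  have hG0 : ∀ h, 0 ≤ gam hK h := fun h => by unfold gam; positivity
  have hη : 0 < ε * m / 2 := by positivity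
  obtain ⟨T₀, hT₀⟩ := (summable_iff_vanishing_norm.1 hG.summable) (ε * m / 2) hη
  set T : Finset ℤ := insert 0 T₀ with hTd
  have hTs : ∑' h : {h : ℤ // h ∉ T}, gam hK h ≤ ε * m / 2 := by
    apply Real.tsum_le_of_sum_le (fun h => hG0 _)
    intro s
    have h1 := hT₀ (s.map (Function.Embedding.subtype _)) (by
      rw [Finset.disjoint_left]
      intro a ha haT
      rw [Finset.mem_map] at ha
      obtain ⟨b, _, rfl⟩ := ha
      exact b.2 (Finset.mem_insert_of_mem haT))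
    rw [Finset.sum_map] at h1
    exact (Real.norm_of_nonneg (Finset.sum_nonneg fun _ _ => hG0 _) ▸ h1).le
  have hev : ∀ᶠ N : ℕ in Lf E, ∀ h ∈ T, h ≠ 0 → ‖∑ n ∈ Icc 1 N, c n * bb c (h - n)‖ ≤ ε * m / 2 * N := by
    rw [Finset.eventually_all]
    intro h _
    by_cases hh : h = 0
    · exact Eventually.of_forall fun N h => absurd hh h
    · filter_upwards [C_ev hc hE h hh (ε * m / 2) hη] with N hN _ using hN
  filter_upwards [hev] with N hN
  set R : L2T →L[ℂ] L2T := ∑ n ∈ Icc 1 N, c n • ((wop hK x₀ : L2T →L[ℂ] L2T) ^ n *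
      fmul (bb c) (bb_le hc) * (star (wop hK x₀ : L2T →L[ℂ] L2T)) ^ n) with hR
  have hCle : ∀ h : ℤ, ‖∑ n ∈ Icc 1 N, c n * bb c (h - n)‖ ≤ N := by
    intro h
    calc ‖∑ n ∈ Icc 1 N, c n * bb c (h - n)‖ ≤ ∑ n ∈ Icc 1 N, (1 : ℝ) := by
          refine (norm_sum_le _ _).trans (Finset.sum_le_sum fun n _ => ?_)
          rw [norm_mul]
          exact mul_le_one₀ (hc _) (norm_nonneg _) (bb_le hc _)
      _ = N := by simp
  have hsumC : Summable fun h : ℤ => (∑ n ∈ Icc 1 N, c n * bb c (h - n)) * ((gam hK h : ℝ) : ℂ) := by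
    refine Summable.of_norm_bounded (hG.summable.mul_left (N : ℝ)) fun h => ?_
    rw [norm_mul, Complex.norm_real, Real.norm_of_nonneg (hG0 h)]
    exact mul_le_mul_of_nonneg_right (hCle h) (hG0 h)
  have h1 : ⟪ind hK, R (ind hK)⟫_ℂ = ∑' h : ℤ, (∑ n ∈ Icc 1 N, c n * bb c (h - n)) * ((gam hK h : ℝ) : ℂ) := by
    rw [hR, _root_.sum_apply, inner_sum]
    have h2 : ∀ n ∈ Icc 1 N, ⟪ind hK, (c n • ((wop hK x₀ : L2T →L[ℂ] L2T) ^ n *
        fmul (bb c) (bb_le hc) * (star (wop hK x₀ : L2T →L[ℂ] L2T)) ^ n)) (ind hK)⟫_ℂ =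
        ∑' h : ℤ, (c n * bb c (h - n)) * ((gam hK h : ℝ) : ℂ) := by
      intro n _
      rw [_root_.smul_apply, inner_smul_right, coeff_auto hK x₀ hc n, ← tsum_mul_left]
      exact tsum_congr fun h => by ring
    rw [Finset.sum_congr rfl h2]
    have h3 : ∀ n ∈ Icc 1 N, Summable fun h : ℤ => (c n * bb c (h - n)) * ((gam hK h : ℝ) : ℂ) := by
      intro n _
      refine Summable.of_norm_bounded hG.summable fun h => ?_
      rw [norm_mul, Complex.norm_real, Real.norm_of_nonneg (hG0 h), norm_mul]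
      exact mul_le_of_le_one_left (hG0 h) (mul_le_one₀ (hc _) (norm_nonneg _) (bb_le hc _))
    rw [← Summable.tsum_finsetSum h3]
    exact tsum_congr fun h => by rw [Finset.sum_mul]
  rw [h1, ← hsumC.sum_add_tsum_subtype_compl T]
  rw [← Finset.add_sum_erase T _ (Finset.mem_insert_self 0 T₀), C_zero, gam_zero]
  set A : ℂ := ((∑ n ∈ Icc 1 N, ‖c n‖ ^ 2 : ℝ) : ℂ) * ((ν.real K ^ 2 : ℝ) : ℂ) with hA
  set B : ℂ := ∑ h ∈ T.erase 0, (∑ n ∈ Icc 1 N, c n * bb c (h - n)) * ((gam hK h : ℝ) : ℂ)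
  set D : ℂ := ∑' h : {h : ℤ // h ∉ T}, (∑ n ∈ Icc 1 N, c n * bb c ((h : ℤ) - n)) * ((gam hK h : ℝ) : ℂ)
  have hB : ‖B‖ ≤ ε * m / 2 * N := by
    calc ‖B‖ ≤ ∑ h ∈ T.erase 0, (ε * m / 2 * N) * gam hK h := by
          refine (norm_sum_le _ _).trans (Finset.sum_le_sum fun h hh => ?_)
          rw [norm_mul, Complex.norm_real, Real.norm_of_nonneg (hG0 h)]
          exact mul_le_mul_of_nonneg_right (hN h (Finset.mem_of_mem_erase hh) (Finset.ne_of_mem_erase hh)) (hG0 h)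
      _ = (ε * m / 2 * N) * ∑ h ∈ T.erase 0, gam hK h := (Finset.mul_sum _ _ _).symm
      _ ≤ (ε * m / 2 * N) * 1 := by
          gcongr
          exact (sum_le_hasSum _ (fun h _ => hG0 h) hG).trans hm1
      _ = _ := mul_one _
  have hD : ‖D‖ ≤ ε * m / 2 * N := by
    have hs1 : Summable fun h : {h : ℤ // h ∉ T} => (N : ℝ) * gam hK h := (hG.summable.subtype _).mul_left _
    calc ‖D‖ ≤ ∑' h : {h : ℤ // h ∉ T}, (N : ℝ) * gam hK h := by
          apply tsum_of_norm_bounded hs1.hasSum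
          intro h
          rw [norm_mul, Complex.norm_real, Real.norm_of_nonneg (hG0 h)]
          exact mul_le_mul_of_nonneg_right (hCle h) (hG0 h)
      _ = N * ∑' h : {h : ℤ // h ∉ T}, gam hK h := tsum_mul_left
      _ ≤ N * (ε * m / 2) := by gcongr
      _ = _ := by ring
  have e : A + B + D - ((m ^ 2 * ∑ n ∈ Icc 1 N, ‖c n‖ ^ 2 : ℝ) : ℂ) = B + D := by
    rw [hA, ← Complex.ofReal_mul, mul_comm (∑ n ∈ Icc 1 N, ‖c n‖ ^ 2)]
    ring
  rw [e]
  refine (norm_add_le _ _).trans ?_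
  linarith

end Pool.Agent.E8helper86.NS
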