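import Pool.Agent.Y958.TC.Two
import Pool.Agent.Y958.U.Fin
import Pool.Agent.Y958.U.Diag
import Pool.Agent.E8helper86.NS.Corr

/-! One exceptional set of logarithmic density zero for the two point correlations of the Möbius and
the Liouville function. -/

set_option autoImplicit false

open Finset Filter Topology

namespace Pool.Agent.E8helper86.NS

open Pool.Agent.H376R2.MR (lam)
open Pool.Agent.TH823.MRS (ExpoSmall FlipAll expo_lam expo_mob lam_bdd lam_flip mob mob_bdd mob_flip)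
open Pool.Agent.Y958.U (LZ s_avc diag')
open Pool.Agent.Y958.TC (two Av)

theorem corr_of {E : Set ℕ} (f : ℕ → ℤ) (hb : ∀ n, |f n| ≤ 1)
    (hf : ∀ h : ℕ, ∀ j : ℕ, ∃ N₀ : ℕ, ∀ n ∈ {N : ℕ | 1 / ((j : ℝ) + 1) <
      |Av N (fun n => (1 : ℝ) * f n * f (n + (h + 1)))|}, N₀ ≤ n → n ∈ E) :
    CorrZero E (fun n => (f n : ℂ)) := by
  intro h hh δ hδ
  obtain ⟨j, hj⟩ := exists_nat_one_div_lt (show (0 : ℝ) < δ / 2 by positivity)
  obtain ⟨N₀, hN₀⟩ := hf (h - 1) j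
  obtain ⟨N₁, hN₁⟩ := exists_nat_gt (4 / δ)
  refine ⟨max N₀ (N₁ + 1), fun N hN hNE => ?_⟩
  have hN1 : N₁ + 1 ≤ N := le_trans (le_max_right _ _) hN
  have hNpos : (0 : ℝ) < N := by exact_mod_cast (by omega : 0 < N)
  have h1 : |Av N (fun n => (1 : ℝ) * f n * f (n + (h - 1 + 1)))| ≤ 1 / ((j : ℝ) + 1) := by
    by_contra hcon
    exact hNE (hN₀ N (not_le.1 hcon) (le_trans (le_max_left _ _) hN))
  rw [show h - 1 + 1 = h by omega] at h1
  unfold Av at h1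
  rw [abs_div, abs_of_pos hNpos, div_le_iff₀ hNpos] at h1
  have hbr : ∀ n, |(f n : ℝ)| ≤ 1 := fun n => by exact_mod_cast hb n
  have h2 : (∑ n ∈ Icc 1 N, star ((f n : ℂ)) * (f (n + h) : ℂ)) =
      ((∑ n ∈ range N, (1 : ℝ) * f n * f (n + h) + f N * f (N + h) - f 0 * f (0 + h) : ℝ) : ℂ) := by
    have h3 : ∑ n ∈ range (N + 1), (f n : ℝ) * f (n + h) = f 0 * f (0 + h) + ∑ n ∈ Icc 1 N, (f n : ℝ) * f (n + h) := by
      rw [Finset.range_eq_Ico, Finset.sum_eq_sum_Ico_succ_bot (by omega)]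
      rfl
    rw [Finset.sum_range_succ] at h3
    have h4 : ∑ n ∈ Icc 1 N, star ((f n : ℂ)) * (f (n + h) : ℂ) = ((∑ n ∈ Icc 1 N, (f n : ℝ) * f (n + h) : ℝ) : ℂ) := by
      push_cast
      refine Finset.sum_congr rfl fun n _ => ?_
      simp
    rw [h4]
    congr 1
    simp_rw [one_mul]
    linarith
  show ‖∑ n ∈ Icc 1 N, star ((f n : ℂ)) * (f (n + h) : ℂ)‖ ≤ δ * N
  rw [h2, Complex.norm_real, Real.norm_eq_abs]
  have h5 : |(f N : ℝ) * f (N + h)| ≤ 1 := by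
    rw [abs_mul]; exact mul_le_one₀ (hbr _) (abs_nonneg _) (hbr _)
  have h6 : |(f 0 : ℝ) * f (0 + h)| ≤ 1 := by
    rw [abs_mul]; exact mul_le_one₀ (hbr _) (abs_nonneg _) (hbr _)
  have h7 : (2 : ℝ) ≤ δ / 2 * N := by
    have h8 : (4 / δ : ℝ) ≤ N := hN₁.le.trans (by exact_mod_cast (by omega : N₁ ≤ N))
    rw [div_le_iff₀ hδ] at h8
    linarith
  have h9 : |∑ n ∈ range N, (1 : ℝ) * f n * f (n + h)| ≤ δ / 2 * N :=
    h1.trans (by gcongr)
  rw [abs_le] at *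
  constructor <;> linarith [h9.1, h9.2, h5.1, h5.2, h6.1, h6.2]

theorem exc : ∃ E : Set ℕ, LZ E ∧ CorrZero E (fun n => ((mob n : ℤ) : ℂ)) ∧
    CorrZero E (fun n => ((lam n : ℤ) : ℂ)) := by
  have hE1 : ExpoSmall (fun n => (lam n : ℂ)) := fun ε hε A hA => expo_lam ε hε A hA
  have hE2 : ExpoSmall (fun n => (mob n : ℂ)) := fun ε hε A hA => expo_mob ε hε A hA
  have h1 : ∀ p : Bool × ℕ × ℕ, LZ {N | 1 / ((p.2.2 : ℝ) + 1) <
      |Av N (fun n => (1 : ℝ) * (bif p.1 then mob n else lam n : ℤ) *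
        (bif p.1 then mob (n + (p.2.1 + 1)) else lam (n + (p.2.1 + 1)) : ℤ))|} := by
    rintro ⟨b, h, j⟩
    cases b
    · exact two s_avc lam lam_bdd lam_flip hE1 (h + 1) (by omega) 1 le_rfl
        (fun _ => (1 : ℝ)) (by intro n; simp) (by intro n; rfl) _ (by positivity)
    · exact two s_avc mob mob_bdd mob_flip hE2 (h + 1) (by omega) 1 le_rfl
        (fun _ => (1 : ℝ)) (by intro n; simp) (by intro n; rfl) _ (by positivity)
  obtain ⟨E, hE, hE'⟩ := diag' _ h1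
  exact ⟨E, hE, corr_of mob mob_bdd fun h j => hE' (true, h, j), corr_of lam lam_bdd fun h j => hE' (false, h, j)⟩

end Pool.Agent.E8helper86.NS
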