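import Pool.Agent.E8helper86.NS.Main
import Pool.Agent.E8helper86.NS.Sharp
import Pool.Agent.E8helper86.NS.Log
import Pool.Agent.E8helper86.NS.Tw

/-! The theorems in final form. -/

set_option autoImplicit false

open MeasureTheory Topology Filter Finset
open scoped InnerProductSpace ENNReal

namespace Pool.Agent.E8helper86.NS

universe u v

theorem exp_fourier (n : ℕ) (θ : ℝ) : (fourier (n : ℤ) (θ : UnitAddCircle) : ℂ) =
    Complex.exp (2 * Real.pi * Complex.I * n * θ) := by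
  rw [fourier_coe_apply]
  congr 1
  push_cast
  ring

theorem cut_at (c : ℕ → ℂ) (θ : ℝ) {N n : ℕ} (hn : n ∈ Icc 1 N) :
    cut c (θ : UnitAddCircle) N (n : ℤ) = c n * Complex.exp (2 * Real.pi * Complex.I * n * θ) := by
  rw [mem_Icc] at hn
  unfold cut
  rw [if_pos (by rw [mem_Icc]; constructor <;> omega), Int.toNat_natCast, exp_fourier]

/-- the sum of `c n e(nθ) wⁿ a vⁿ` -/
noncomputable def sand {B : Type*} [CStarAlgebra B] (c : ℕ → ℂ) (θ : ℝ) (w v : unitary B) (a : B) (N : ℕ) : B :=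
  ∑ n ∈ Icc 1 N, (c n * Complex.exp (2 * Real.pi * Complex.I * n * θ)) • ((w : B) ^ n * a * (v : B) ^ n)

theorem sand_cut {B : Type*} [CStarAlgebra B] (c : ℕ → ℂ) (θ : ℝ) (w v : unitary B) (a : B) (N : ℕ) :
    ∑ n ∈ Icc (1 : ℤ) N, cut c (θ : UnitAddCircle) N n • (((w ^ n : unitary B) : B) * a * ((v ^ n : unitary B) : B)) =
      sand c θ w v a N := by
  rw [sum_int_nat]
  unfold sand
  refine Finset.sum_congr rfl fun n hn => ?_
  rw [cut_at c θ hn, zpow_natCast, zpow_natCast]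
  rfl

theorem uspec_inv {B : Type*} [CStarAlgebra B] (w : unitary B) : uspec w⁻¹ = -uspec w := by
  ext θ
  rw [Set.mem_neg]
  unfold uspec
  show (fourier 1 θ : ℂ) ∈ spectrum ℂ (star (w : B)) ↔ (fourier 1 (-θ) : ℂ) ∈ spectrum ℂ (w : B)
  rw [spectrum.map_star, Set.mem_star]
  have : star (fourier 1 θ : ℂ) = (fourier 1 (-θ) : ℂ) := by
    rw [Complex.star_def, ← fourier_neg, fourier_apply, fourier_apply]
    simp
  rw [this]

theorem CorrZero.conj {E : Set ℕ} {c : ℕ → ℂ} (h : CorrZero E c) : CorrZero E (fun n => star (c n)) := by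
  intro k hk δ hδ
  obtain ⟨N₀, hN₀⟩ := h k hk δ hδ
  refine ⟨N₀, fun N hN hNE => ?_⟩
  have h1 : ∑ n ∈ Icc 1 N, star (star (c n)) * star (c (n + k)) = star (∑ n ∈ Icc 1 N, star (c n) * c (n + k)) := by
    rw [star_sum]
    refine Finset.sum_congr rfl fun n _ => ?_
    rw [star_mul', star_star]
  rw [h1, norm_star]
  exact hN₀ N hN hNE

theorem vol_neg (K : Set UnitAddCircle) : volume (-K) = volume K := by
  rw [Measure.measure_neg]

/-- (A) the norm theorem, both sides -/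
theorem norm_both (K : Set UnitAddCircle) (hK : IsClosed K) {E : Set ℕ} {c : ℕ → ℂ} (hc : ∀ n, ‖c n‖ ≤ 1)
    (hE : CorrZero E c) (ε : ℝ) (hε : 0 < ε) :
    ∀ᶠ N : ℕ in Lf E, ∀ (B : Type u) [CStarAlgebra B] (w v : unitary B) (a : B) (θ : ℝ),
      uspec w ⊆ K →
      ‖sand c θ w v a N‖ ≤ (√(volume K).toReal + ε) * N * ‖a‖ ∧
      ‖sand c θ v w a N‖ ≤ (√(volume K).toReal + ε) * N * ‖a‖ := by
  have h2 := norm_main.{u} (-K) hK.neg (c := fun n => star (c n)) (fun n => by rw [norm_star]; exact hc n) hE.conj ε hε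
  rw [vol_neg] at h2
  filter_upwards [norm_main.{u} K hK hc hE ε hε, h2] with N hN1 hN2 B _ w v a θ hw
  constructor
  · have := hN1 B w v a (θ : UnitAddCircle) hw
    rwa [sand_cut] at this
  · have h3 := hN2 B w⁻¹ v⁻¹ (star a) ((-θ : ℝ) : UnitAddCircle) (by
      rw [uspec_inv]; exact Set.neg_subset_neg.2 hw)
    rw [sand_cut, norm_star] at h3
    have h4 : sand c θ v w a N = star (sand (fun n => star (c n)) (-θ) w⁻¹ v⁻¹ (star a) N) := by
      unfold sand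
      rw [star_sum]
      refine Finset.sum_congr rfl fun n _ => ?_
      have e1 : star (star (c n) * Complex.exp (2 * Real.pi * Complex.I * n * ((-θ : ℝ) : ℂ))) =
          c n * Complex.exp (2 * Real.pi * Complex.I * n * θ) := by
        rw [star_mul', star_star, Complex.star_def, ← Complex.exp_conj]
        congr 2
        simp [map_ofNat (starRingEnd ℂ) 2]
      have e2 : star (((w⁻¹ : unitary B) : B) ^ n * star a * ((v⁻¹ : unitary B) : B) ^ n) =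
          (v : B) ^ n * a * (w : B) ^ n := by
        rw [star_mul, star_mul, star_star, star_pow, star_pow, ← mul_assoc]
        show star (star (v : B)) ^ n * a * star (star (w : B)) ^ n = _
        rw [star_star, star_star]
      rw [star_smul, e1, e2]
    rw [h4, norm_star]
    exact h3

section vec

variable {H : Type u} [NormedAddCommGroup H] [InnerProductSpace ℂ H] [CompleteSpace H]

/-- `σ` is the spectral measure of `ξ` -/
def SpecMeas (V : unitary (H →L[ℂ] H)) (ξ : H) (σ : Measure UnitAddCircle) : Prop :=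
  ∀ n : ℕ, ⟪ξ, ((V : H →L[ℂ] H) ^ n) ξ⟫_ℂ = ∫ z, (fourier (n : ℤ) z : ℂ) ∂σ

theorem inner_zpow (V : unitary (H →L[ℂ] H)) (ξ η : H) (m n : ℤ) :
    ⟪((V ^ m : unitary (H →L[ℂ] H)) : H →L[ℂ] H) ξ, ((V ^ n : unitary (H →L[ℂ] H)) : H →L[ℂ] H) η⟫_ℂ =
      ⟪ξ, ((V ^ (n - m) : unitary (H →L[ℂ] H)) : H →L[ℂ] H) η⟫_ℂ := by
  rw [← coe_zpow_star_mul]
  rw [ContinuousLinearMap.star_eq_adjoint]
  show _ = ⟪ξ, ContinuousLinearMap.adjoint ((V ^ m : unitary (H →L[ℂ] H)) : H →L[ℂ] H) (((V ^ n : unitary (H →L[ℂ] H)) : H →L[ℂ] H) η)⟫_ℂ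
  rw [ContinuousLinearMap.adjoint_inner_right]

theorem SpecMeas.all {V : unitary (H →L[ℂ] H)} {ξ : H} {σ : Measure UnitAddCircle}
    (h : SpecMeas V ξ σ) (n : ℤ) :
    ⟪ξ, ((V ^ n : unitary (H →L[ℂ] H)) : H →L[ℂ] H) ξ⟫_ℂ = ∫ z, (fourier n z : ℂ) ∂σ := by
  rcases n.eq_nat_or_neg with ⟨k, rfl | rfl⟩
  · rw [zpow_natCast]
    exact h k
  · have h1 := inner_zpow V ξ ξ (k : ℤ) 0
    rw [zero_sub, zpow_zero] at h1
    rw [← h1]
    show ⟪((V ^ (k : ℤ) : unitary (H →L[ℂ] H)) : H →L[ℂ] H) ξ, ξ⟫_ℂ = _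
    rw [← inner_conj_symm, zpow_natCast]
    have h2 : ⟪ξ, ((V ^ k : unitary (H →L[ℂ] H)) : H →L[ℂ] H) ξ⟫_ℂ = ∫ z, (fourier (k : ℤ) z : ℂ) ∂σ := h k
    rw [h2, ← integral_conj]
    refine integral_congr_ae (Eventually.of_forall fun z => ?_)
    show (starRingEnd ℂ) (fourier (k : ℤ) z : ℂ) = _
    rw [← fourier_neg]

/-- reflection of the spectral measure -/
theorem SpecMeas.inv {V : unitary (H →L[ℂ] H)} {ξ : H} {σ : Measure UnitAddCircle}
    (h : SpecMeas V ξ σ) : SpecMeas V⁻¹ ξ (σ.map fun z => -z) := by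
  intro n
  have h1 : ((V⁻¹ : unitary (H →L[ℂ] H)) : H →L[ℂ] H) ^ n = ((V ^ (-(n : ℤ)) : unitary (H →L[ℂ] H)) : H →L[ℂ] H) := by
    rw [zpow_neg, zpow_natCast, ← inv_pow]
    rfl
  rw [h1, h.all]
  rw [integral_map measurable_neg.aemeasurable (by fun_prop)]
  refine integral_congr_ae (Eventually.of_forall fun z => ?_)
  show (fourier (-(n : ℤ)) z : ℂ) = (fourier (n : ℤ) (-z) : ℂ)
  rw [fourier_apply, fourier_apply]
  simp

theorem sing_neg {σ : Measure UnitAddCircle} (h : σ ⟂ₘ volume) : (σ.map fun z => -z) ⟂ₘ volume := by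
  obtain ⟨s, hs, h1, h2⟩ := h
  refine ⟨-s, hs.neg, ?_, ?_⟩
  · rw [Measure.map_apply measurable_neg hs.neg]
    have : (fun z : UnitAddCircle => -z) ⁻¹' (-s) = s := by
      ext z; simp
    rw [this]
    exact h1
  · have : (-s)ᶜ = -(sᶜ) := by
      ext z; simp
    rw [this, vol_neg]
    exact h2

end vec

/-- (B) the vector theorem -/
theorem vec_both (σ : Measure UnitAddCircle) [IsFiniteMeasure σ] (hσ : σ ⟂ₘ volume) {E : Set ℕ} {c : ℕ → ℂ}
    (hc : ∀ n, ‖c n‖ ≤ 1) (hE : CorrZero E c) (ε : ℝ) (hε : 0 < ε) :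
    ∀ᶠ N : ℕ in Lf E, ∀ (H : Type u) [NormedAddCommGroup H] [InnerProductSpace ℂ H] [CompleteSpace H]
      (U V : unitary (H →L[ℂ] H)) (B : H →L[ℂ] H) (ξ : H) (θ : ℝ), SpecMeas V ξ σ →
      ‖∑ n ∈ Icc 1 N, (c n * Complex.exp (2 * Real.pi * Complex.I * n * θ)) •
        ((U : H →L[ℂ] H) ^ n) (B (((V : H →L[ℂ] H) ^ n) ξ))‖ ≤ ε * N * ‖B‖ := by
  filter_upwards [vec_main.{u} σ hσ hc hE ε hε] with N hN H _ _ _ U V B ξ θ hξ
  set T : H := ∑ n ∈ Icc 1 N, (c n * Complex.exp (2 * Real.pi * Complex.I * n * θ)) •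
        ((U : H →L[ℂ] H) ^ n) (B (((V : H →L[ℂ] H) ^ n) ξ)) with hT
  have h1 := hN H (fun n => ((V ^ n : unitary (H →L[ℂ] H)) : H →L[ℂ] H) ξ)
    (fun n => ((U ^ (-n) : unitary (H →L[ℂ] H)) : H →L[ℂ] H) T)
    (fun n => ⟪T, ((U ^ (-n) : unitary (H →L[ℂ] H)) : H →L[ℂ] H) T⟫_ℂ) B (θ : UnitAddCircle)
    (fun m n => by rw [inner_zpow, hξ.all])
    (fun m n => by
      rw [inner_zpow]
      congr 4
      ring)
  have h2 : ∑ n ∈ Icc (1 : ℤ) N, cut c (θ : UnitAddCircle) N n *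
      ⟪((U ^ (-n) : unitary (H →L[ℂ] H)) : H →L[ℂ] H) T, B (((V ^ n : unitary (H →L[ℂ] H)) : H →L[ℂ] H) ξ)⟫_ℂ = ⟪T, T⟫_ℂ := by
    conv_rhs => rw [hT]
    rw [inner_sum, sum_int_nat]
    refine Finset.sum_congr rfl fun n hn => ?_
    rw [cut_at c θ hn, inner_smul_right]
    congr 1
    have h3 := inner_zpow U T (B (((V ^ (n : ℤ) : unitary (H →L[ℂ] H)) : H →L[ℂ] H) ξ)) (-(n : ℤ)) 0
    rw [sub_neg_eq_add, zero_add, zpow_zero] at h3
    have h4 : ((1 : unitary (H →L[ℂ] H)) : H →L[ℂ] H) (B (((V ^ (n : ℤ) : unitary (H →L[ℂ] H)) : H →L[ℂ] H) ξ)) =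
      B (((V ^ (n : ℤ) : unitary (H →L[ℂ] H)) : H →L[ℂ] H) ξ) := rfl
    rw [h4] at h3
    rw [h3, zpow_natCast, zpow_natCast]
    rfl
  simp only [neg_zero, zpow_zero] at h1
  rw [h2] at h1
  have h5 : ((1 : unitary (H →L[ℂ] H)) : H →L[ℂ] H) T = T := rfl
  rw [h5, inner_self_eq_norm_sq_to_K] at h1
  have h6 : ‖T‖ * ‖T‖ ≤ (ε * N * ‖B‖) * ‖T‖ := by
    have e : ‖((‖T‖ : ℂ)) ^ 2‖ = ‖T‖ * ‖T‖ := by
      rw [norm_pow, Complex.norm_real, norm_norm, pow_two]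
    calc ‖T‖ * ‖T‖ = ‖((‖T‖ : ℂ)) ^ 2‖ := e.symm
      _ ≤ ε * N * (‖B‖ * ‖T‖) := h1
      _ = _ := by ring
  rcases eq_or_ne T 0 with h7 | h7
  · rw [h7, norm_zero]
    positivity
  · exact le_of_mul_le_mul_right h6 (norm_pos_iff.2 h7)

end Pool.Agent.E8helper86.NS
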