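import Pool.Agent.E8helper86.NS.Circ

/-! Geometric sums away from the spectrum. -/

set_option autoImplicit false

open Finset MeasureTheory Topology

namespace Pool.Agent.E8helper86.NS

/-- the spectrum of a unitary, as a subset of the additive circle -/
def uspec {B : Type*} [CStarAlgebra B] (u : unitary B) : Set UnitAddCircle :=
  {θ : UnitAddCircle | (fourier 1 θ : ℂ) ∈ spectrum ℂ (u : B)}

theorem fourier_nat (n : ℕ) (x : UnitAddCircle) : (fourier (n : ℤ) x : ℂ) = (fourier 1 x : ℂ) ^ n := by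
  rw [fourier_apply, fourier_one, natCast_zsmul, AddCircle.toCircle_nsmul]
  rfl

theorem norm_fourier (n : ℤ) (x : UnitAddCircle) : ‖(fourier n x : ℂ)‖ = 1 := by
  rw [fourier_apply]
  exact Circle.norm_coe _

/-- sums over `1 ≤ m ≤ N` in the integers -/
theorem sum_Icc_int {M : Type*} [AddCommMonoid M] (N : ℕ) (F : ℤ → M) :
    ∑ m ∈ Icc (1 : ℤ) N, F m = ∑ m ∈ range N, F (m + 1) := by
  symm
  refine Finset.sum_nbij' (fun m : ℕ => (m : ℤ) + 1) (fun m : ℤ => (m - 1).toNat) ?_ ?_ ?_ ?_ ?_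
  · intro m hm
    rw [mem_Icc]
    rw [mem_range] at hm
    constructor <;> omega
  · intro m hm
    rw [mem_Icc] at hm
    rw [mem_range]
    omega
  · intro m _
    omega
  · intro m hm
    rw [mem_Icc] at hm
    omega
  · intro m _
    rfl

/-- the sum over `1 ≤ m ≤ N` of the characters is bounded away from zero -/
theorem geo_scalar {δ : ℝ} (hδ : 0 < δ) : ∃ C : ℝ, 0 ≤ C ∧ ∀ (x : UnitAddCircle), δ ≤ ‖x‖ →
    ∀ N : ℕ, ‖∑ m ∈ Icc (1 : ℤ) N, (fourier m x : ℂ)‖ ≤ C := by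
  have hcomp : IsCompact {x : UnitAddCircle | δ ≤ ‖x‖} :=
    (isClosed_le continuous_const continuous_norm).isCompact
  have hpos : ∀ x : UnitAddCircle, δ ≤ ‖x‖ → 0 < ‖(fourier 1 x : ℂ) - 1‖ := by
    intro x hx
    rw [norm_pos_iff, sub_ne_zero]
    intro h
    have h1 : x = 0 := by
      rw [fourier_one] at h
      have h2 : AddCircle.toCircle x = AddCircle.toCircle (0 : UnitAddCircle) := by
        rw [AddCircle.toCircle_zero]
        exact Subtype.ext h
      exact AddCircle.injective_toCircle one_ne_zero h2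
    rw [h1, norm_zero] at hx
    linarith
  obtain ⟨c, hc, hcb⟩ : ∃ c : ℝ, 0 < c ∧ ∀ x : UnitAddCircle, δ ≤ ‖x‖ → c ≤ ‖(fourier 1 x : ℂ) - 1‖ := by
    rcases Set.eq_empty_or_nonempty {x : UnitAddCircle | δ ≤ ‖x‖} with he | hne
    · exact ⟨1, one_pos, fun x hx => absurd (show x ∈ {x : UnitAddCircle | δ ≤ ‖x‖} from hx) (by rw [he]; simp)⟩
    · obtain ⟨x₀, hx₀, hmin⟩ := hcomp.exists_isMinOn hne
        (f := fun x : UnitAddCircle => ‖(fourier 1 x : ℂ) - 1‖) (by fun_prop)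
      exact ⟨_, hpos x₀ hx₀, fun x hx => hmin hx⟩
  refine ⟨2 / c, by positivity, fun x hx N => ?_⟩
  have h1 : ∑ m ∈ Icc (1 : ℤ) N, (fourier m x : ℂ) = ∑ m ∈ range N, (fourier 1 x : ℂ) ^ (m + 1) := by
    rw [sum_Icc_int]
    refine Finset.sum_congr rfl fun m _ => ?_
    rw [← fourier_nat]
    push_cast
    rfl
  have h2 : ((fourier 1 x : ℂ) - 1) * ∑ m ∈ range N, (fourier 1 x : ℂ) ^ (m + 1) =
      (fourier 1 x : ℂ) * ((fourier 1 x : ℂ) ^ N - 1) := by
    simp_rw [pow_succ, ← Finset.sum_mul]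
    rw [← mul_assoc, mul_geom_sum]
    ring
  have h3 : ‖(fourier 1 x : ℂ) - 1‖ * ‖∑ m ∈ range N, (fourier 1 x : ℂ) ^ (m + 1)‖ ≤ 2 := by
    rw [← norm_mul, h2, norm_mul, norm_fourier, one_mul]
    refine (norm_sub_le _ _).trans ?_
    rw [norm_pow, norm_fourier, one_pow, norm_one]
    norm_num
  rw [h1, le_div_iff₀ hc]
  calc ‖∑ m ∈ range N, (fourier 1 x : ℂ) ^ (m + 1)‖ * c
      ≤ ‖∑ m ∈ range N, (fourier 1 x : ℂ) ^ (m + 1)‖ * ‖(fourier 1 x : ℂ) - 1‖ := by
        gcongr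
        exact hcb x hx
    _ ≤ 2 := by rw [mul_comm]; exact h3

/-- geometric sums of a unitary away from its spectrum -/
theorem geo_unitary {δ : ℝ} (hδ : 0 < δ) : ∃ C : ℝ, 0 ≤ C ∧ ∀ (A : Type*) [CStarAlgebra A] (w : unitary A)
    (x : UnitAddCircle), (∀ y ∈ uspec w, δ ≤ ‖y - x‖) → ∀ N : ℕ,
    ‖∑ m ∈ Icc (1 : ℤ) N, (fourier (-m) x : ℂ) • ((w ^ m : unitary A) : A)‖ ≤ C := by
  obtain ⟨C, hC0, hC⟩ := geo_scalar hδ
  refine ⟨C, hC0, fun A _ w x hx N => ?_⟩
  have hn : IsStarNormal (w : A) := inferInstance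
  set q : Polynomial ℂ := ∑ m ∈ range N, Polynomial.C ((fourier (-((m : ℤ) + 1)) x : ℂ)) * Polynomial.X ^ (m + 1) with hq
  have h1 : ∑ m ∈ Icc (1 : ℤ) N, (fourier (-m) x : ℂ) • ((w ^ m : unitary A) : A) = Polynomial.aeval (w : A) q := by
    rw [sum_Icc_int, hq, map_sum]
    refine Finset.sum_congr rfl fun m _ => ?_
    rw [map_mul, Polynomial.aeval_C, map_pow, Polynomial.aeval_X, Algebra.algebraMap_eq_smul_one, smul_mul_assoc,
      one_mul]
    congr 1
    have : ((m : ℤ) + 1) = ((m + 1 : ℕ) : ℤ) := by push_cast; rfl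
    rw [this, zpow_natCast]
    rfl
  rw [h1, ← cfc_polynomial (R := ℂ) q (w : A) hn]
  apply norm_cfc_le hC0
  intro z hz
  have hz1 : ‖z‖ = 1 := by
    have := Unitary.spectrum_subset_circle (𝕜 := ℂ) w hz
    simpa using this
  obtain ⟨y, hy⟩ : ∃ y : UnitAddCircle, (AddCircle.toCircle y : ℂ) = z := by
    obtain ⟨w', hw'⟩ : ∃ w' : Circle, (w' : ℂ) = z := ⟨⟨z, by simpa [Submonoid.unitSphere] using hz1⟩, rfl⟩
    refine ⟨(AddCircle.homeomorphCircle (one_ne_zero)).symm w', ?_⟩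
    rw [← AddCircle.homeomorphCircle_apply one_ne_zero, Homeomorph.apply_symm_apply, hw']
  have hyK : y ∈ uspec w := by
    show (fourier 1 y : ℂ) ∈ spectrum ℂ (w : A)
    rw [fourier_one, hy]
    exact hz
  have h2 : q.eval z = ∑ m ∈ Icc (1 : ℤ) N, (fourier m (y - x) : ℂ) := by
    rw [sum_Icc_int, hq, Polynomial.eval_finsetSum]
    refine Finset.sum_congr rfl fun m _ => ?_
    rw [Polynomial.eval_mul, Polynomial.eval_C, Polynomial.eval_pow, Polynomial.eval_X, ← hy]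
    have h3 : ((AddCircle.toCircle y : Circle) : ℂ) ^ (m + 1) = (fourier ((m : ℤ) + 1) y : ℂ) := by
      have : ((m : ℤ) + 1) = ((m + 1 : ℕ) : ℤ) := by push_cast; rfl
      rw [this, fourier_nat, fourier_one]
    rw [h3, fourier_apply, fourier_apply, fourier_apply, neg_smul, ← smul_neg, ← Circle.coe_mul,
      ← AddCircle.toCircle_add, ← smul_add]
    congr 3
    abel
  rw [h2]
  exact hC _ (hx y hyK) N

end Pool.Agent.E8helper86.NS
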