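import Pool.Agent.E8helper86.NS.Auto

/-! The last steps: logarithmic means for representations, the characterization of null sets. -/

set_option autoImplicit false

open MeasureTheory Topology Filter Finset
open scoped InnerProductSpace ENNReal

namespace Pool.Agent.E8helper86.NS

open Pool.Agent.TH327.Thin (SpecIn)
open Pool.Agent.Y958.U (LZ)

universe u v

/-- powers of a unitary times an element have spectrum in the spectrum of the unitary -/
theorem specIn_pow_mul {B : Type*} [CStarAlgebra B] {K : Set UnitAddCircle} (w : unitary B) (hw : uspec w ⊆ K) (a : B) :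
    SpecIn K (fun n : ℤ => ((w ^ n : unitary B) : B) * a) := by
  intro f hf hU
  obtain ⟨U, hU1, hU2, hU3⟩ := hU
  have h1 := Pool.Agent.TH327.Thin.specIn_unitary w f hf ⟨U, hU1, hw.trans hU2, hU3⟩
  have hs : Summable fun n : ℤ => f n • ((w ^ n : unitary B) : B) := by
    refine Summable.of_norm_bounded hf fun n => ?_
    rw [norm_smul]
    exact mul_le_of_le_one_right (norm_nonneg _) (norm_zpow_le w n)
  have h2 : ∀ n : ℤ, f n • (((w ^ n : unitary B) : B) * a) = (f n • ((w ^ n : unitary B) : B)) * a := fun n =>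
    (smul_mul_assoc _ _ _).symm
  simp_rw [h2]
  rw [hs.tsum_mul_right, h1, zero_mul]

theorem auto_zpow {A : Type u} [NonUnitalCStarAlgebra A] {B : Type v} [CStarAlgebra B] {α : A ≃⋆ₐ[ℂ] A}
    {ι : A →⋆ₙₐ[ℂ] B} {w : unitary B} (h : ∀ x, ι (α x) = (w : B) * ι x * star (w : B)) (n : ℤ) (x : A) :
    ι ((α ^ n) x) = ((w ^ n : unitary B) : B) * ι x * ((w ^ (-n) : unitary B) : B) := by
  have hpow := auto_pow h
  rcases n with n | n
  · simp only [Int.ofNat_eq_natCast, zpow_natCast, zpow_neg]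
    rw [hpow, ← star_pow]
    rfl
  · simp only [zpow_negSucc]
    have h1 : ι ((α ^ (n + 1)) ((α ^ (n + 1))⁻¹ x)) = ι x := by
      congr 1
      show ((α ^ (n + 1)) * (α ^ (n + 1))⁻¹) x = x
      rw [mul_inv_cancel]
      rfl
    rw [hpow] at h1
    have h2 : star (w : B) ^ (n + 1) * (w : B) ^ (n + 1) = 1 := by
      rw [← star_pow]
      exact Unitary.star_mul_self_of_mem (pow_mem w.2 (n + 1))
    have h3 : ι ((α ^ (n + 1))⁻¹ x) = star (w : B) ^ (n + 1) * ι x * (w : B) ^ (n + 1) := by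
      rw [← h1]
      calc ι ((α ^ (n + 1))⁻¹ x) = 1 * ι ((α ^ (n + 1))⁻¹ x) * 1 := by rw [one_mul, mul_one]
        _ = _ := by rw [← h2]; simp only [mul_assoc]
    rw [h3]
    congr 1
    · congr 1
      rw [← star_pow]
      rfl
    · rw [Int.neg_negSucc, zpow_natCast]
      rfl

/-- an implemented automorphism: all elements have null twisted spectrum -/
theorem specIn_impl {A : Type u} [NonUnitalCStarAlgebra A] {B : Type v} [CStarAlgebra B] {α : A ≃⋆ₐ[ℂ] A}
    {ι : A →⋆ₙₐ[ℂ] B} {w : unitary B} (h : ∀ x, ι (α x) = (w : B) * ι x * star (w : B)) (x : A) :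
    SpecIn (uspec w) (fun n : ℤ => ι ((α ^ n) x) * ((w ^ n : unitary B) : B)) := by
  have h1 := specIn_pow_mul w le_rfl (ι x)
  have h2 : (fun n : ℤ => ι ((α ^ n) x) * ((w ^ n : unitary B) : B)) = fun n : ℤ => ((w ^ n : unitary B) : B) * ι x := by
    funext n
    rw [auto_zpow h, mul_assoc]
    have e1 : ((w ^ (-n) : unitary B) : B) * ((w ^ n : unitary B) : B) = 1 := by
      have : (w ^ (-n) : unitary B) * (w ^ n : unitary B) = 1 := by
        rw [zpow_neg, inv_mul_cancel]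
      exact congrArg (fun z : unitary B => (z : B)) this
    rw [e1, mul_one]
  rw [h2]
  exact h1

/-- elements with null Arveson spectrum -/
theorem specIn_one {A : Type u} [NonUnitalCStarAlgebra A] {B : Type v} [CStarAlgebra B] {α : A ≃⋆ₐ[ℂ] A}
    {ι : A →⋆ₙₐ[ℂ] B} (hι : Function.Injective ι) {K : Set UnitAddCircle} {x : A} (hx : SpecIn K (fun n : ℤ => (α ^ n) x)) :
    SpecIn K (fun n : ℤ => ι ((α ^ n) x) * (((1 : unitary B) ^ n : unitary B) : B)) := by
  intro f hf hU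
  have h1 := hx f hf hU
  have hnz : ∀ n : ℤ, ‖(α ^ n) x‖ = ‖x‖ := fun n => Pool.Agent.TH327.Thin.norm_orb α x n
  have hs : Summable fun n : ℤ => f n • (α ^ n) x := by
    refine Summable.of_norm_bounded (hf.mul_right ‖x‖) fun n => ?_
    rw [norm_smul, hnz]
  have hc : Continuous ι := by
    have h5 : Isometry ι := AddMonoidHomClass.isometry_of_norm ι (fun y => NonUnitalStarAlgHom.norm_map ι hι y)
    exact h5.continuous
  have h2 : ∀ n : ℤ, f n • (ι ((α ^ n) x) * (((1 : unitary B) ^ n : unitary B) : B)) = ι (f n • (α ^ n) x) := by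
    intro n
    rw [map_smul, one_zpow]
    congr 1
    exact mul_one _
  simp_rw [h2]
  rw [← hs.map_tsum ι hc, h1, map_zero]

/-- logarithmic sums for representations -/
theorem rep_log (σ : Measure UnitAddCircle) [IsFiniteMeasure σ] (hσ : σ ⟂ₘ volume) {E : Set ℕ} (hLZ : LZ E)
    {c : ℕ → ℂ} (hc : ∀ n, ‖c n‖ ≤ 1) (hE : CorrZero E c) (ε : ℝ) (hε : 0 < ε) :
    ∀ᶠ X : ℕ in atTop, ∀ (A : Type v) [NonUnitalCStarAlgebra A] (α : A ≃⋆ₐ[ℂ] A)
      (H : Type u) [NormedAddCommGroup H] [InnerProductSpace ℂ H] [CompleteSpace H]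
      (π : A →⋆ₙₐ[ℂ] (H →L[ℂ] H)) (U : unitary (H →L[ℂ] H)) (ξ : H),
      (∀ x, π (α x) = (U : H →L[ℂ] H) * π x * star (U : H →L[ℂ] H)) → SpecMeas U ξ σ → ∀ (x : A) (θ : ℝ),
      ‖π (twl c θ α x X) ξ‖ ≤ ε * Real.log X * ‖x‖ := by
  set R : ℝ := √(σ.real Set.univ) + 1 with hR
  have hR0 : 0 < R := by positivity
  obtain ⟨N₀, hN₀⟩ := ev_Lf.1 (rep_part.{u, v} σ hσ hc hE (ε / 4) (by positivity))
  obtain ⟨X₀, hX₀⟩ := log_unif.{u} hLZ (ε / (4 * R)) (by positivity) N₀
  filter_upwards [eventually_ge_atTop X₀] with X hX A _ α H _ _ _ π U ξ h hξ x θ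
  have hξn : ‖ξ‖ ≤ R := by
    have h1 := hξ 0
    rw [pow_zero] at h1
    have h2 : ⟪ξ, ξ⟫_ℂ = ((σ.real Set.univ : ℝ) : ℂ) := by
      have h3 : ⟪ξ, (1 : H →L[ℂ] H) ξ⟫_ℂ = ⟪ξ, ξ⟫_ℂ := rfl
      rw [← h3, h1]
      simp
    rw [inner_self_eq_norm_sq_to_K] at h2
    have h4 : ‖ξ‖ ^ 2 = σ.real Set.univ := by
      apply Complex.ofReal_injective
      rw [← h2]
      push_cast
      rfl
    have h5 : ‖ξ‖ = √(σ.real Set.univ) := by rw [← h4, Real.sqrt_sq (norm_nonneg _)]
    rw [h5, hR]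
    linarith
  have hterm : ∀ N, π (twa c θ α x N) ξ = ∑ n ∈ Icc 1 N, (c n * Complex.exp (2 * Real.pi * Complex.I * n * θ)) •
      π ((α ^ n) x) ξ := by
    intro N
    unfold twa
    rw [map_sum, _root_.sum_apply]
    refine Finset.sum_congr rfl fun n _ => ?_
    rw [map_smul]
    rfl
  have hlog : π (twl c θ α x X) ξ = ∑ n ∈ Icc 1 X, ((1 / (n : ℝ) : ℝ) : ℂ) •
      ((c n * Complex.exp (2 * Real.pi * Complex.I * n * θ)) • π ((α ^ n) x) ξ) := by
    unfold twl
    rw [map_sum, _root_.sum_apply]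
    refine Finset.sum_congr rfl fun n _ => ?_
    rw [map_smul, smul_smul]
    show (c n * Complex.exp (2 * Real.pi * Complex.I * n * θ) / n) • π ((α ^ n) x) ξ = _
    congr 1
    push_cast
    ring
  have h6 := hX₀ X hX H (fun n => (c n * Complex.exp (2 * Real.pi * Complex.I * n * θ)) • π ((α ^ n) x) ξ) (‖x‖ * R)
    (by positivity) (fun n => by
      rw [norm_smul, norm_mul, norm_exp_one, mul_one]
      calc ‖c n‖ * ‖π ((α ^ n) x) ξ‖ ≤ 1 * (‖x‖ * R) := by
            gcongr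
            · exact hc n
            · calc ‖π ((α ^ n) x) ξ‖ ≤ ‖π ((α ^ n) x)‖ * ‖ξ‖ := ContinuousLinearMap.le_opNorm _ _
                _ ≤ ‖x‖ * R := by
                    gcongr
                    exact (NonUnitalStarAlgHom.norm_apply_le π _).trans (norm_auto α n x).le
        _ = _ := one_mul _) (fun N hN hNE => by
      have h7 := hN₀ N hN hNE A α H π U ξ h hξ x θ
      rw [hterm] at h7
      refine h7.trans (le_of_eq ?_)
      field_simp)
  rw [hlog]
  refine h6.trans (le_of_eq ?_)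
  field_simp

/-- the characterization -/
theorem char_null (K : Set UnitAddCircle) (hK : IsClosed K) : volume K = 0 ↔
    ∀ (H : Type) [NormedAddCommGroup H] [InnerProductSpace ℂ H] [CompleteSpace H] (w : unitary (H →L[ℂ] H)),
      uspec w ⊆ K → ∀ (a : H →L[ℂ] H) (ρ : (H →L[ℂ] H) →L[ℂ] ℂ),
      Tendsto (fun X : ℕ => (1 / (Real.log X : ℂ)) * ∑ n ∈ Icc 1 X, ((ArithmeticFunction.moebius n : ℤ) : ℂ) / n *
        ρ ((w : H →L[ℂ] H) ^ n * a * star (w : H →L[ℂ] H) ^ n)) atTop (𝓝 0) := by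
  have hμ1 : ∀ n : ℕ, ‖((ArithmeticFunction.moebius n : ℤ) : ℂ)‖ ≤ 1 := fun n => by
    have h1 : |ArithmeticFunction.moebius n| ≤ 1 := ArithmeticFunction.abs_moebius_le_one
    rw [Complex.norm_intCast]
    exact_mod_cast h1
  obtain ⟨E, hLZ, hE, -⟩ := exc
  have hE' : CorrZero E (fun n => ((ArithmeticFunction.moebius n : ℤ) : ℂ)) := hE
  constructor
  · intro hK0 H _ _ _ w hw a ρ
    rw [Metric.tendsto_nhds]
    intro ε hε
    set M : ℝ := (‖ρ‖ + 1) * (‖a‖ + 1) with hM
    have hM0 : 0 < M := by positivity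
    obtain ⟨N₀, hN₀⟩ := ev_Lf.1 (norm_both.{0} K hK hμ1 hE' (ε / (8 * M)) (by positivity))
    obtain ⟨X₀, hX₀⟩ := log_unif.{0} hLZ (ε / (8 * M)) (by positivity) N₀
    filter_upwards [eventually_ge_atTop X₀, eventually_ge_atTop 2] with X hX hX2
    have hlog0 : (0 : ℝ) < Real.log X := Real.log_pos (by exact_mod_cast (by omega : 1 < X))
    have hwn : ∀ n : ℕ, ‖(w : H →L[ℂ] H) ^ n‖ ≤ 1 := fun n => by
      have h := norm_zpow_le w (n : ℤ)
      rw [zpow_natCast] at h
      exact h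
    have hwn' : ∀ n : ℕ, ‖star (w : H →L[ℂ] H) ^ n‖ ≤ 1 := fun n => by
      have h := norm_zpow_le w⁻¹ (n : ℤ)
      rw [zpow_natCast] at h
      exact h
    have h1 := hX₀ X hX (H →L[ℂ] H) (fun n => ((ArithmeticFunction.moebius n : ℤ) : ℂ) •
      ((w : H →L[ℂ] H) ^ n * a * star (w : H →L[ℂ] H) ^ n)) (‖a‖ + 1) (by positivity) (fun n => by
        rw [norm_smul]
        have h2 : ‖(w : H →L[ℂ] H) ^ n * a * star (w : H →L[ℂ] H) ^ n‖ ≤ ‖a‖ + 1 := by
          calc ‖(w : H →L[ℂ] H) ^ n * a * star (w : H →L[ℂ] H) ^ n‖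
              ≤ ‖(w : H →L[ℂ] H) ^ n * a‖ * ‖star (w : H →L[ℂ] H) ^ n‖ := norm_mul_le _ _
            _ ≤ (‖(w : H →L[ℂ] H) ^ n‖ * ‖a‖) * 1 := by
                gcongr
                · exact norm_mul_le _ _
                · exact hwn' n
            _ ≤ 1 * ‖a‖ * 1 := by
                gcongr
                exact hwn n
            _ ≤ ‖a‖ + 1 := by linarith
        calc ‖((ArithmeticFunction.moebius n : ℤ) : ℂ)‖ * _ ≤ 1 * (‖a‖ + 1) := by
              gcongr
              exact hμ1 n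
          _ = _ := one_mul _) (fun N hN hNE => by
        have h3 := (hN₀ N hN hNE (H →L[ℂ] H) w w⁻¹ a 0 hw).1
        rw [hK0, ENNReal.toReal_zero, Real.sqrt_zero, zero_add] at h3
        have h4 : sand (fun n => ((ArithmeticFunction.moebius n : ℤ) : ℂ)) 0 w w⁻¹ a N =
            ∑ n ∈ Icc 1 N, ((ArithmeticFunction.moebius n : ℤ) : ℂ) •
              ((w : H →L[ℂ] H) ^ n * a * star (w : H →L[ℂ] H) ^ n) := by
          unfold sand
          refine Finset.sum_congr rfl fun n _ => ?_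
          congr 1
          simp
        rw [← h4]
        refine h3.trans ?_
        gcongr
        linarith)
    have h5 : ∑ n ∈ Icc 1 X, ((ArithmeticFunction.moebius n : ℤ) : ℂ) / n *
        ρ ((w : H →L[ℂ] H) ^ n * a * star (w : H →L[ℂ] H) ^ n) =
        ρ (∑ n ∈ Icc 1 X, ((1 / (n : ℝ) : ℝ) : ℂ) • (((ArithmeticFunction.moebius n : ℤ) : ℂ) •
          ((w : H →L[ℂ] H) ^ n * a * star (w : H →L[ℂ] H) ^ n))) := by
      rw [map_sum]
      refine Finset.sum_congr rfl fun n _ => ?_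
      rw [map_smul, map_smul, smul_eq_mul, smul_eq_mul, ← mul_assoc]
      congr 1
      push_cast
      ring
    rw [dist_zero_right, h5, norm_mul, norm_div, norm_one, Complex.norm_real, Real.norm_of_nonneg hlog0.le]
    calc 1 / Real.log X * ‖ρ _‖ ≤ 1 / Real.log X * (‖ρ‖ * (4 * (ε / (8 * M)) * Real.log X * (‖a‖ + 1))) := by
          gcongr
          exact (ρ.le_opNorm _).trans (mul_le_mul_of_nonneg_left h1 (norm_nonneg _))
      _ = ε / 2 * (‖ρ‖ / (‖ρ‖ + 1)) := by
          rw [hM]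
          have : ‖ρ‖ + 1 ≠ 0 := by positivity
          have : ‖a‖ + 1 ≠ 0 := by positivity
          field_simp
          ring
      _ ≤ ε / 2 * 1 := by
          gcongr
          rw [div_le_one (by positivity)]
          linarith
      _ < ε := by linarith
  · intro h
    by_contra hcon
    have hm : 0 < ν.real K := by
      rw [measureReal_def]
      rw [vol_nu] at hcon
      exact ENNReal.toReal_pos hcon (measure_ne_top _ _)
    obtain ⟨x₀, hx₀⟩ : K.Nonempty := by
      rw [Set.nonempty_iff_ne_empty]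
      rintro rfl
      exact hcon (measure_empty)
    set a : L2T →L[ℂ] L2T := fmul (bb (fun n => ((ArithmeticFunction.moebius n : ℤ) : ℂ))) (bb_le hμ1) with ha
    set ρ : (L2T →L[ℂ] L2T) →L[ℂ] ℂ := (innerSL ℂ (unitInd hK)).comp
      (ContinuousLinearMap.apply ℂ L2T (unitInd hK)) with hρ
    have h1 := h L2T (wop hK x₀) (wop_spec hK hx₀) a ρ
    have h2 := log_fail hK x₀ hm hLZ hE' hμ1
    have h3 := (Metric.tendsto_nhds.1 h1) (ν.real K / 16) (by positivity)
    obtain ⟨X, ⟨hX1, hX2⟩, hX3⟩ := ((h2.and h3).and (eventually_ge_atTop 2)).exists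
    have hlog0 : (0 : ℝ) < Real.log X := Real.log_pos (by exact_mod_cast (by omega : 1 < X))
    rw [dist_zero_right, norm_mul, norm_div, norm_one, Complex.norm_real, Real.norm_of_nonneg hlog0.le] at hX2
    have h4 : ν.real K / 16 ≤ 1 / Real.log X * ‖∑ n ∈ Icc 1 X, ((ArithmeticFunction.moebius n : ℤ) : ℂ) / n *
        ρ ((wop hK x₀ : L2T →L[ℂ] L2T) ^ n * a * star (wop hK x₀ : L2T →L[ℂ] L2T) ^ n)‖ := by
      rw [one_div, ← div_eq_inv_mul, le_div_iff₀ hlog0]
      exact hX1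
    linarith

end Pool.Agent.E8helper86.NS
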