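import Pool.Agent.E8helper86.NS.Sharp
import Pool.Agent.TH327.Thin.Unit

/-! Absolutely summable sequences of small square sum whose Fourier series is one near a closed set;
sequences with spectrum in the closed set are reproduced by them. -/

set_option autoImplicit false

open MeasureTheory Topology Filter Finset
open scoped ENNReal

namespace Pool.Agent.E8helper86.NS

open Pool.Agent.TH327.Thin (W tri SpecIn)

theorem W_le_one (δ : ℝ) (h0 : 0 < δ) (n : ℤ) : Pool.Agent.TH327.Thin.W δ n ≤ 1 := by
  rcases eq_or_ne n 0 with rfl | hn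
  · rw [Pool.Agent.TH327.Thin.W_zero δ h0]
  · rw [Pool.Agent.TH327.Thin.W_formula δ h0 n hn]
    have hn0 : (n : ℝ) ≠ 0 := by exact_mod_cast hn
    have h1 : 0 < (2 * Real.pi * n * δ) ^ 2 := by positivity
    rw [div_le_one h1]
    have := Real.one_sub_sq_div_two_le_cos (x := 2 * Real.pi * n * δ)
    linarith

/-- the local reproducing sequence -/
theorem exists_loc (K : Set UnitAddCircle) (hK : IsClosed K) {ε : ℝ} (hε : 0 < ε) :
    ∃ G : ℤ → ℂ, (Summable fun n => ‖G n‖) ∧ (∀ S : Finset ℤ, ∑ k ∈ S, ‖G k‖ ^ 2 ≤ (volume K).toReal + ε) ∧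
      ∃ U : Set UnitAddCircle, IsOpen U ∧ K ⊆ U ∧ ∀ η ∈ U, ∑' n, G n * (fourier n η : ℂ) = 1 := by
  have hvol : (volume : Measure UnitAddCircle) = ν := by
    rw [AddCircle.volume_eq_smul_haarAddCircle, ENNReal.ofReal_one, one_smul]
  rw [hvol]
  obtain ⟨δ, hδ0, hδ1, hδ⟩ : ∃ δ : ℝ, 0 < δ ∧ δ ≤ 1 / 2 ∧ (ν (Metric.cthickening (2 * δ) K)).toReal ≤ (ν K).toReal + ε := by
    have h1 : Tendsto (fun r : ℝ => ν (Metric.cthickening r K)) (𝓝 0) (𝓝 (ν K)) :=
      tendsto_measure_cthickening_of_isClosed ⟨1, one_pos, measure_ne_top _ _⟩ hK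
    have h2 : Tendsto (fun r : ℝ => (ν (Metric.cthickening r K)).toReal) (𝓝 0) (𝓝 (ν K).toReal) :=
      (ENNReal.tendsto_toReal (measure_ne_top _ _)).comp h1
    have h3 := (tendsto_order.1 h2).2 ((ν K).toReal + ε) (by linarith)
    obtain ⟨r, hr, h4⟩ := Metric.eventually_nhds_iff.1 h3
    refine ⟨min (1 / 2) (r / 4), by positivity, min_le_left _ _, (h4 ?_).le⟩
    have h5 : min (1 / 2) (r / 4) ≤ r / 4 := min_le_right _ _
    have h6 : 0 < min (1 / 2) (r / 4) := by positivity
    rw [dist_zero_right, Real.norm_of_nonneg (by positivity)]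
    linarith
  set F := Metric.cthickening (2 * δ) K with hF
  have hFc : IsClosed F := Metric.isClosed_cthickening
  have hW0 := Pool.Agent.TH327.Thin.W_nonneg δ hδ0
  have hWs := Pool.Agent.TH327.Thin.summable_W δ hδ0
  have hco : ∀ n : ℤ, ‖fourierCoeff (ind hFc) n‖ ≤ 1 := by
    intro n
    have h1 : gam hFc n ≤ ν.real F := by
      have := sum_le_hasSum {n} (fun h _ => by unfold gam; positivity) (gam_sum hFc)
      simpa using this
    have h2 : ν.real F ≤ 1 := by
      rw [measureReal_def]
      exact ENNReal.toReal_le_of_le_ofReal zero_le_one (by simpa using prob_le_one)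
    unfold gam at h1
    nlinarith [norm_nonneg (fourierCoeff (ind hFc) n)]
  refine ⟨fun n => (W δ n : ℂ) * fourierCoeff (ind hFc) n, ?_, ?_, Metric.thickening δ K,
    Metric.isOpen_thickening, Metric.self_subset_thickening hδ0 K, ?_⟩
  · refine Summable.of_nonneg_of_le (fun n => norm_nonneg _) (fun n => ?_) hWs
    rw [norm_mul, Complex.norm_real, Real.norm_of_nonneg (hW0 n)]
    exact mul_le_of_le_one_right (hW0 n) (hco n)
  · intro S
    calc ∑ k ∈ S, ‖(W δ k : ℂ) * fourierCoeff (ind hFc) k‖ ^ 2 ≤ ∑ k ∈ S, gam hFc k := by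
          refine Finset.sum_le_sum fun k _ => ?_
          rw [norm_mul, Complex.norm_real, Real.norm_of_nonneg (hW0 k), mul_pow]
          unfold gam
          exact mul_le_of_le_one_left (by positivity) (pow_le_one₀ (hW0 k) (W_le_one δ hδ0 k))
      _ ≤ ν.real F := sum_le_hasSum S (fun h _ => by unfold gam; positivity) (gam_sum hFc)
      _ ≤ _ := hδ
  · intro η hη
    -- the convolution
    have hterm : ∀ n : ℤ, (W δ n : ℂ) * fourierCoeff (ind hFc) n * (fourier n η : ℂ) =
        ∫ y, F.indicator (fun y => (W δ n : ℂ) * (fourier n (η - y) : ℂ)) y ∂ν := by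
      intro n
      unfold fourierCoeff
      rw [← integral_const_mul, ← integral_mul_const]
      apply integral_congr_ae
      filter_upwards [ind_ae hFc] with y hy
      rw [hy]
      by_cases hyF : y ∈ F
      · rw [Set.indicator_of_mem hyF, Set.indicator_of_mem hyF, smul_eq_mul, mul_one, mul_assoc]
        congr 1
        rw [fourier_apply, fourier_apply, fourier_apply, ← Circle.coe_mul, ← AddCircle.toCircle_add]
        congr 2
        rw [neg_smul, smul_sub]
        abel
      · rw [Set.indicator_of_notMem hyF, Set.indicator_of_notMem hyF]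
        simp
    have hsum : HasSum (fun n : ℤ => ∫ y, F.indicator (fun y => (W δ n : ℂ) * (fourier n (η - y) : ℂ)) y ∂ν)
        (∫ y, ∑' n : ℤ, F.indicator (fun y => (W δ n : ℂ) * (fourier n (η - y) : ℂ)) y ∂ν) := by
      apply hasSum_integral_of_summable_integral_norm
      · intro n
        apply Integrable.indicator _ hFc.measurableSet
        apply Continuous.integrable_of_hasCompactSupport
        · fun_prop
        · exact HasCompactSupport.of_compactSpace _
      · refine Summable.of_nonneg_of_le (fun n => integral_nonneg fun _ => norm_nonneg _) (fun n => ?_) hWs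
        calc ∫ y, ‖F.indicator (fun y => (W δ n : ℂ) * (fourier n (η - y) : ℂ)) y‖ ∂ν ≤ ∫ y, W δ n ∂ν := by
              apply integral_mono_of_nonneg (Eventually.of_forall fun _ => norm_nonneg _) (integrable_const _)
              refine Eventually.of_forall fun y => ?_
              refine (norm_indicator_le_norm_self _ _).trans ?_
              rw [norm_mul, norm_fourier, mul_one, Complex.norm_real, Real.norm_of_nonneg (hW0 n)]
          _ = W δ n := by simp
    have h1 : ∫ y, ∑' n : ℤ, F.indicator (fun y => (W δ n : ℂ) * (fourier n (η - y) : ℂ)) y ∂ν =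
        ∫ y, tri δ (η - y) ∂ν := by
      apply integral_congr_ae
      refine Eventually.of_forall fun y => ?_
      show ∑' n : ℤ, F.indicator (fun y => (W δ n : ℂ) * (fourier n (η - y) : ℂ)) y = tri δ (η - y)
      by_cases hyF : y ∈ F
      · simp_rw [Set.indicator_of_mem hyF]
        exact (Pool.Agent.TH327.Thin.hasSum_W δ hδ0 hδ1 (η - y)).tsum_eq
      · simp_rw [Set.indicator_of_notMem hyF]
        rw [tsum_zero]
        symm
        apply Pool.Agent.TH327.Thin.tri_eq_zero δ hδ0
        by_contra hcon
        apply hyF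
        rw [Metric.mem_thickening_iff] at hη
        obtain ⟨z, hz, hz1⟩ := hη
        apply Metric.mem_cthickening_of_dist_le y z (2 * δ) K hz
        have h3 : dist y η < δ := by
          rw [dist_comm, dist_eq_norm]; exact not_le.1 hcon
        have := dist_triangle y η z
        linarith
    have h2 : ∫ y, tri δ (η - y) ∂ν = 1 := by
      rw [integral_sub_left_eq_self (fun y => tri δ y) ν η]
      have h3 := Pool.Agent.TH327.Thin.coeff_tri δ hδ0 hδ1 0
      rw [Pool.Agent.TH327.Thin.W_zero δ hδ0] at h3
      unfold fourierCoeff at h3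
      simpa using h3
    rw [← h2, ← h1, ← hsum.tsum_eq]
    exact tsum_congr hterm

/-- reproduction -/
theorem specIn_rep {E : Type*} [NormedAddCommGroup E] [NormedSpace ℂ E] [CompleteSpace E] {K : Set UnitAddCircle}
    {f : ℤ → E} (hf : SpecIn K f) {M : ℝ} (hM : ∀ n, ‖f n‖ ≤ M) {G : ℤ → ℂ} (hG : Summable fun n => ‖G n‖)
    (hU : ∃ U : Set UnitAddCircle, IsOpen U ∧ K ⊆ U ∧ ∀ η ∈ U, ∑' n, G n * (fourier n η : ℂ) = 1) (m : ℤ) :
    ∑' k, G k • f (m + k) = f m := by
  classical
  obtain ⟨U, hU1, hU2, hU3⟩ := hU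
  have hG' : Summable fun n : ℤ => ‖G (n - m)‖ := by
    have := (Equiv.subRight m).summable_iff.2 hG
    exact this
  have hs : Summable fun n : ℤ => ‖(if n = m then (1 : ℂ) else 0) - G (n - m)‖ := by
    have h1 : Summable fun n : ℤ => ‖(if n = m then (1 : ℂ) else 0)‖ := by
      apply summable_of_ne_finset_zero (s := {m})
      intro n hn
      rw [Finset.mem_singleton] at hn
      rw [if_neg hn, norm_zero]
    exact Summable.of_nonneg_of_le (fun n => norm_nonneg _) (fun n => norm_sub_le _ _) (h1.add hG')
  have hz := hf (fun n => (if n = m then (1 : ℂ) else 0) - G (n - m)) hs ⟨U, hU1, hU2, fun η hη => by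
    have h2 : Summable fun n : ℤ => (if n = m then (1 : ℂ) else 0) * (fourier n η : ℂ) := by
      apply summable_of_ne_finset_zero (s := {m})
      intro n hn
      rw [Finset.mem_singleton] at hn
      rw [if_neg hn, zero_mul]
    have h3 : Summable fun n : ℤ => G (n - m) * (fourier n η : ℂ) := by
      refine Summable.of_norm ?_
      simpa only [norm_mul, norm_fourier, mul_one] using hG'
    simp_rw [sub_mul]
    rw [h2.tsum_sub h3, tsum_eq_single m (fun n hn => by rw [if_neg hn, zero_mul]), if_pos rfl, one_mul]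
    have h4 : ∑' n : ℤ, G (n - m) * (fourier n η : ℂ) = (fourier m η : ℂ) * ∑' n : ℤ, G n * (fourier n η : ℂ) := by
      rw [← (Equiv.addRight m).tsum_eq, ← tsum_mul_left]
      refine tsum_congr fun k => ?_
      rw [Equiv.coe_addRight, add_sub_cancel_right, fourier_add]
      ring
    rw [h4, hU3 η hη, mul_one, sub_self]⟩
  have h5 : Summable fun n : ℤ => (if n = m then (1 : ℂ) else 0) • f n := by
    apply summable_of_ne_finset_zero (s := {m})
    intro n hn
    rw [Finset.mem_singleton] at hn
    rw [if_neg hn, zero_smul]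
  have h6 : Summable fun n : ℤ => G (n - m) • f n := by
    refine Summable.of_norm_bounded (hG'.mul_right M) fun n => ?_
    rw [norm_smul]
    exact mul_le_mul_of_nonneg_left (hM n) (norm_nonneg _)
  simp_rw [sub_smul] at hz
  rw [h5.tsum_sub h6, tsum_eq_single m (fun n hn => by rw [if_neg hn, zero_smul]), if_pos rfl, one_smul,
    sub_eq_zero] at hz
  rw [hz, ← (Equiv.addRight m).tsum_eq (fun n => G (n - m) • f n)]
  refine tsum_congr fun k => ?_
  rw [Equiv.coe_addRight, add_sub_cancel_right, add_comm]

end Pool.Agent.E8helper86.NS
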