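import Pool.Agent.E8helper86.NS.Vec
import Pool.Agent.E8helper86.NS.Corr

/-! The norm theorem for unitaries with small spectrum and the vector theorem for singular spectral
measures, for sequences with vanishing self correlations. -/

set_option autoImplicit false

open Finset Filter Topology MeasureTheory

namespace Pool.Agent.E8helper86.NS

universe u

theorem norm_main (K : Set UnitAddCircle) (hK : IsClosed K) {E : Set ℕ} {c : ℕ → ℂ} (hc : ∀ n, ‖c n‖ ≤ 1)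
    (hE : CorrZero E c) (ε : ℝ) (hε : 0 < ε) :
    ∀ᶠ N : ℕ in Lf E, ∀ (A : Type u) [CStarAlgebra A] (w v : unitary A) (a : A) (θ : UnitAddCircle),
      uspec w ⊆ K →
      ‖∑ n ∈ Icc (1 : ℤ) N, cut c θ N n • (((w ^ n : unitary A) : A) * a * ((v ^ n : unitary A) : A))‖ ≤
        (√(volume K).toReal + ε) * N * ‖a‖ := by
  set m := (volume K).toReal with hm
  have hm0 : 0 ≤ m := ENNReal.toReal_nonneg
  set η : ℝ := (ε / 2) ^ 2 / 2 with hη
  have hη0 : 0 < η := by positivity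
  obtain ⟨S, l, δ, hδ, hSl, hnear⟩ := exists_near K hK hη0
  obtain ⟨C, hC0, hC⟩ := geo_unitary.{u} hδ
  have h1 : ∀ᶠ N : ℕ in Lf E, C * √N ≤ ε / 2 * N := by
    rw [ev_Lf]
    obtain ⟨N₁, hN₁⟩ := exists_nat_gt ((2 * C / ε) ^ 2)
    refine ⟨N₁, fun N hN _ => ?_⟩
    have h2 : (2 * C / ε) ^ 2 ≤ N := hN₁.le.trans (by exact_mod_cast hN)
    have h3 : 2 * C / ε ≤ √N := Real.le_sqrt_of_sq_le h2
    rw [div_le_iff₀ hε] at h3
    have h4 : √(N : ℝ) * √N = N := Real.mul_self_sqrt (by positivity)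
    nlinarith [Real.sqrt_nonneg (N : ℝ)]
  filter_upwards [h1, Gam_ev hc hE S l η hη0] with N hN1 hN2 A _ w v a θ hw
  let _ := CStarAlgebra.spectralOrder A
  let _ := CStarAlgebra.spectralOrderedRing A
  have h5 := det w v a N (cut c θ N) (cut_out c θ N) (cut_le hc θ N) S l C hC0 (fun x hx => by
    apply hC A w x
    intro y hy
    by_contra hcon
    have := hnear x y (hw hy) (by rw [norm_sub_rev]; exact not_le.1 hcon)
    linarith)
  refine h5.trans ?_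
  have h6 : √(Gam S l (cut c θ N) N) ≤ (√m + ε / 2) * √N := by
    have h7 : Gam S l (cut c θ N) N ≤ (m + (ε / 2) ^ 2) * N := by
      refine (hN2 θ).trans (mul_le_mul_of_nonneg_right ?_ (Nat.cast_nonneg N))
      rw [show (ε / 2) ^ 2 = η + η by rw [hη]; ring]
      linarith
    calc √(Gam S l (cut c θ N) N) ≤ √((m + (ε / 2) ^ 2) * N) := Real.sqrt_le_sqrt h7
      _ = √(m + (ε / 2) ^ 2) * √N := Real.sqrt_mul (by positivity) _
      _ ≤ (√m + ε / 2) * √N := by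
          gcongr
          rw [Real.sqrt_le_left (by positivity)]
          nlinarith [Real.sq_sqrt hm0, mul_nonneg (Real.sqrt_nonneg m) hε.le]
  have h8 : √(N : ℝ) * √N = N := Real.mul_self_sqrt (by positivity)
  calc ‖a‖ * (C * √N + √N * √(Gam S l (cut c θ N) N)) ≤ ‖a‖ * (ε / 2 * N + √N * ((√m + ε / 2) * √N)) := by
        gcongr
    _ = (√m + ε) * N * ‖a‖ := by
        rw [show √(N : ℝ) * ((√m + ε / 2) * √N) = (√m + ε / 2) * (√N * √N) by ring, h8]
        ring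

open scoped InnerProductSpace

theorem vec_main (σ : Measure UnitAddCircle) [IsFiniteMeasure σ] (hσ : σ ⟂ₘ volume) {E : Set ℕ} {c : ℕ → ℂ}
    (hc : ∀ n, ‖c n‖ ≤ 1) (hE : CorrZero E c) (ε : ℝ) (hε : 0 < ε) :
    ∀ᶠ N : ℕ in Lf E, ∀ (H : Type u) [NormedAddCommGroup H] [InnerProductSpace ℂ H] (x y : ℤ → H) (β : ℤ → ℂ)
      (B : H →L[ℂ] H) (θ : UnitAddCircle),
      (∀ m n, ⟪x m, x n⟫_ℂ = ∫ z, (fourier (n - m) z : ℂ) ∂σ) → (∀ m n, ⟪y m, y n⟫_ℂ = β (n - m)) →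
      ‖∑ n ∈ Icc (1 : ℤ) N, cut c θ N n * ⟪y n, B (x n)⟫_ℂ‖ ≤ ε * N * (‖B‖ * ‖y 0‖) := by
  obtain ⟨s, hs, hs1, hs2⟩ := hσ
  set M : ℝ := σ.real Set.univ with hM
  have hM0 : 0 ≤ M := measureReal_nonneg
  -- a closed null set which carries almost all of `σ`
  obtain ⟨K, hKs, hK, hKσ⟩ := hs.compl.exists_isClosed_sdiff_lt (μ := σ) (measure_ne_top _ _)
    (ε := ENNReal.ofReal ((ε / 4) ^ 2)) (by simp; positivity)
  have hKc : σ.real Kᶜ ≤ (ε / 4) ^ 2 := by
    have h1 : Kᶜ ⊆ s ∪ (sᶜ \ K) := by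
      intro z hz
      by_cases h : z ∈ s
      · exact Or.inl h
      · exact Or.inr ⟨h, hz⟩
    have h2 : σ Kᶜ ≤ ENNReal.ofReal ((ε / 4) ^ 2) := by
      calc σ Kᶜ ≤ σ s + σ (sᶜ \ K) := (measure_mono h1).trans (measure_union_le _ _)
        _ ≤ 0 + ENNReal.ofReal ((ε / 4) ^ 2) := by
            gcongr
            exact hs1.le
        _ = _ := zero_add _
    exact ENNReal.toReal_le_of_le_ofReal (by positivity) h2
  have hK0 : volume (-K) = 0 := by
    have h1 : volume K = 0 := measure_mono_null hKs hs2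
    rw [Measure.measure_neg]
    exact h1
  set η : ℝ := (ε / (4 * (√M + 1))) ^ 2 / 2 with hη
  have hη0 : 0 < η := by positivity
  obtain ⟨S, l, δ, hδ, hSl, hnear⟩ := exists_near (-K) hK.neg hη0
  rw [hK0, ENNReal.toReal_zero, zero_add] at hSl
  obtain ⟨C, hC0, hC⟩ := geo_scalar hδ
  have h1 : ∀ᶠ N : ℕ in Lf E, C ^ 2 * M ≤ (ε / 4) ^ 2 * N := by
    rw [ev_Lf]
    obtain ⟨N₁, hN₁⟩ := exists_nat_gt (C ^ 2 * M / (ε / 4) ^ 2)
    refine ⟨N₁, fun N hN _ => ?_⟩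
    have h2 : C ^ 2 * M / (ε / 4) ^ 2 ≤ N := hN₁.le.trans (by exact_mod_cast hN)
    rw [div_le_iff₀ (by positivity)] at h2
    linarith
  filter_upwards [h1, Gam_ev hc hE S l η hη0] with N hN1 hN2 H _ _ x y β B θ hx hy
  have h5 := det_vec σ K hK.measurableSet x y β hx hy B N (cut c θ N) (cut_out c θ N) (cut_le hc θ N) S l C
    (fun t ht z hz => by
      apply hC
      by_contra hcon
      have := hnear t (-z) (by simpa using hz) (by
        rw [sub_neg_eq_add, add_comm]; exact not_le.1 hcon)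
      linarith)
  refine h5.trans ?_
  have hx0 : ‖x 0‖ = √M := by
    have h6 := hx 0 0
    rw [inner_self_eq_norm_sq_to_K] at h6
    simp only [sub_self, fourier_zero, integral_const] at h6
    have h7 : ‖x 0‖ ^ 2 = M := by
      have h8 : ((‖x 0‖ ^ 2 : ℝ) : ℂ) = ((M : ℝ) : ℂ) := by
        rw [hM]
        push_cast
        rw [← mul_one ((σ.real Set.univ : ℝ) : ℂ)]
        simpa using h6
      exact_mod_cast h8
    rw [← h7, Real.sqrt_sq (norm_nonneg _)]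
  have hs0 : √(N : ℝ) * √N = N := Real.mul_self_sqrt (by positivity)
  have h6 : √(C ^ 2 * M + N * σ.real Kᶜ) ≤ ε / 2 * √N := by
    have h7 : C ^ 2 * M + N * σ.real Kᶜ ≤ (ε / 2) ^ 2 * N := by
      have : (N : ℝ) * σ.real Kᶜ ≤ N * (ε / 4) ^ 2 := by gcongr
      nlinarith [mul_nonneg (sq_nonneg ε) (Nat.cast_nonneg (α := ℝ) N)]
    calc √(C ^ 2 * M + N * σ.real Kᶜ) ≤ √((ε / 2) ^ 2 * N) := Real.sqrt_le_sqrt h7
      _ = ε / 2 * √N := by rw [Real.sqrt_mul (by positivity), Real.sqrt_sq (by positivity)]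
  have h7 : √(Gam S l (cut c θ N) N) ≤ ε / (4 * (√M + 1)) * √N := by
    have h8 : Gam S l (cut c θ N) N ≤ (ε / (4 * (√M + 1))) ^ 2 * N := by
      refine (hN2 θ).trans (mul_le_mul_of_nonneg_right ?_ (Nat.cast_nonneg N))
      rw [show (ε / (4 * (√M + 1))) ^ 2 = η + η by rw [hη]; ring]
      linarith
    calc √(Gam S l (cut c θ N) N) ≤ √((ε / (4 * (√M + 1))) ^ 2 * N) := Real.sqrt_le_sqrt h8
      _ = _ := by rw [Real.sqrt_mul (by positivity), Real.sqrt_sq (by positivity)]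
  have hM1 : √M * (ε / (4 * (√M + 1))) ≤ ε / 4 := by
    have h9 : 0 < √M + 1 := by positivity
    have h10 : √M * (ε / (4 * (√M + 1))) = ε / 4 * (√M / (√M + 1)) := by field_simp
    rw [h10]
    have h11 : √M / (√M + 1) ≤ 1 := by rw [div_le_one h9]; linarith
    nlinarith
  calc ‖B‖ * ‖y 0‖ * (√(C ^ 2 * M + N * σ.real Kᶜ) * √N + √N * ‖x 0‖ * √(Gam S l (cut c θ N) N))
      ≤ ‖B‖ * ‖y 0‖ * ((ε / 2 * √N) * √N + √N * √M * (ε / (4 * (√M + 1)) * √N)) := by
        rw [hx0]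
        gcongr
    _ = ‖B‖ * ‖y 0‖ * (ε / 2 * (√N * √N) + (√M * (ε / (4 * (√M + 1)))) * (√N * √N)) := by ring
    _ ≤ ‖B‖ * ‖y 0‖ * (ε / 2 * (√N * √N) + ε / 4 * (√N * √N)) := by gcongr
    _ ≤ ε * N * (‖B‖ * ‖y 0‖) := by
        rw [hs0]
        have : 0 ≤ ‖B‖ * ‖y 0‖ * (ε * N) := by positivity
        linarith

end Pool.Agent.E8helper86.NS
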