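import Pool.Agent.E8helper86.NS.Geo

/-! Multiplication operators and diagonal operators on the square integrable functions of the circle. -/

set_option autoImplicit false

open MeasureTheory Topology Filter
open scoped InnerProductSpace ENNReal

namespace Pool.Agent.E8helper86.NS

/-- Haar measure of the circle -/
noncomputable abbrev ν : Measure UnitAddCircle := AddCircle.haarAddCircle (T := 1)

/-- the Hilbert space of the square integrable functions -/
noncomputable abbrev L2T : Type := Lp ℂ 2 ν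

open Classical in
/-- multiplication by a bounded measurable function -/
noncomputable def mulOp (g : UnitAddCircle → ℂ) : L2T →L[ℂ] L2T :=
  if hg : MemLp g ⊤ ν then (ContinuousLinearMap.mul ℂ ℂ).holderL ν ⊤ 2 2 (hg.toLp g) else 0

theorem mulOp_ae {g : UnitAddCircle → ℂ} (hg : MemLp g ⊤ ν) (f : L2T) :
    mulOp g f =ᵐ[ν] fun x => g x * f x := by
  unfold mulOp
  rw [dif_pos hg]
  have h1 := (ContinuousLinearMap.mul ℂ ℂ).coeFn_holder (r := 2) (hg.toLp g) f
  have h2 := hg.coeFn_toLp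
  rw [ContinuousLinearMap.holderL_apply_apply]
  filter_upwards [h1, h2] with x hx1 hx2
  rw [hx1, hx2]
  rfl

/-- bounded measurable functions -/
theorem memTop {g : UnitAddCircle → ℂ} (hg : Measurable g) (C : ℝ) (hC : ∀ x, ‖g x‖ ≤ C) : MemLp g ⊤ ν :=
  memLp_top_of_bound hg.aestronglyMeasurable C (Eventually.of_forall hC)

theorem mulOp_mul {g h : UnitAddCircle → ℂ} (hg : MemLp g ⊤ ν) (hh : MemLp h ⊤ ν)
    (hgh : MemLp (fun x => g x * h x) ⊤ ν) : mulOp g * mulOp h = mulOp (fun x => g x * h x) := by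
  ext1 f
  apply Lp.ext
  have h1 := mulOp_ae hg (mulOp h f)
  have h2 := mulOp_ae hh f
  have h3 := mulOp_ae hgh f
  show mulOp g (mulOp h f) =ᵐ[ν] mulOp (fun x => g x * h x) f
  filter_upwards [h1, h2, h3] with x hx1 hx2 hx3
  rw [hx1, hx2, hx3]
  ring

theorem mulOp_const (z : ℂ) : mulOp (fun _ => z) = z • (1 : L2T →L[ℂ] L2T) := by
  ext1 f
  apply Lp.ext
  have h1 := mulOp_ae (memTop measurable_const ‖z‖ fun _ => le_rfl : MemLp (fun _ => z) ⊤ ν) f
  have h2 := Lp.coeFn_smul z f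
  show mulOp (fun _ => z) f =ᵐ[ν] (z • f : L2T)
  filter_upwards [h1, h2] with x hx1 hx2
  rw [hx1, hx2]
  rfl

theorem mulOp_sub {g h : UnitAddCircle → ℂ} (hg : MemLp g ⊤ ν) (hh : MemLp h ⊤ ν) :
    mulOp g - mulOp h = mulOp (fun x => g x - h x) := by
  ext1 f
  apply Lp.ext
  have h1 := mulOp_ae hg f
  have h2 := mulOp_ae hh f
  have h3 := mulOp_ae (hg.sub hh) f
  have h4 := Lp.coeFn_sub (mulOp g f) (mulOp h f)
  show (mulOp g f - mulOp h f : L2T) =ᵐ[ν] mulOp (fun x => g x - h x) f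
  filter_upwards [h1, h2, h3, h4] with x hx1 hx2 hx3 hx4
  rw [hx4]
  show mulOp g f x - mulOp h f x = _
  rw [hx1, hx2]
  rw [show (mulOp (fun x => g x - h x) f : UnitAddCircle → ℂ) x = (g - h) x * f x from hx3]
  show g x * f x - h x * f x = (g x - h x) * f x
  ring

theorem mulOp_star {g : UnitAddCircle → ℂ} (hg : MemLp g ⊤ ν) (hg' : MemLp (fun x => star (g x)) ⊤ ν) :
    star (mulOp g) = mulOp (fun x => star (g x)) := by
  ext1 f
  apply ext_inner_left ℂ
  intro h
  rw [ContinuousLinearMap.star_eq_adjoint, ContinuousLinearMap.adjoint_inner_right, L2.inner_def, L2.inner_def]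
  apply integral_congr_ae
  filter_upwards [mulOp_ae hg h, mulOp_ae hg' f] with x hx1 hx2
  rw [hx1, hx2]
  simp only [RCLike.inner_apply, map_mul, Complex.star_def]
  ring

/-- unimodular functions give unitaries -/
theorem mulOp_unitary {g : UnitAddCircle → ℂ} (hg : Measurable g) (hg1 : ∀ x, ‖g x‖ = 1) :
    mulOp g ∈ unitary (L2T →L[ℂ] L2T) := by
  have h1 : MemLp g ⊤ ν := memTop hg 1 fun x => (hg1 x).le
  have h2 : MemLp (fun x => star (g x)) ⊤ ν := memTop (continuous_star.measurable.comp hg) 1 fun x => by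
    rw [norm_star]; exact (hg1 x).le
  have h3 : ∀ x, star (g x) * g x = 1 := fun x => by
    rw [Complex.star_def, ← Complex.normSq_eq_conj_mul_self, Complex.normSq_eq_norm_sq, hg1]
    simp
  have h5 : MemLp (fun _ : UnitAddCircle => (1 : ℂ)) ⊤ ν := memTop measurable_const 1 fun _ => by simp
  rw [Unitary.mem_iff, mulOp_star h1 h2]
  have e1 : (fun x => star (g x) * g x) = fun _ => (1 : ℂ) := funext h3
  have e2 : (fun x => g x * star (g x)) = fun _ => (1 : ℂ) := funext fun x => by rw [mul_comm]; exact h3 x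
  constructor
  · rw [mulOp_mul h2 h1 (by rw [e1]; exact h5), e1, mulOp_const, one_smul]
  · rw [mulOp_mul h1 h2 (by rw [e2]; exact h5), e2, mulOp_const, one_smul]

/-- the spectrum of a multiplication operator -/
theorem mulOp_spectrum {g : UnitAddCircle → ℂ} (hg : Measurable g) (hg1 : ∀ x, ‖g x‖ = 1) {z : ℂ} {c : ℝ}
    (hc : 0 < c) (hz : ∀ x, c ≤ ‖g x - z‖) : z ∉ spectrum ℂ (mulOp g) := by
  have h1 : MemLp g ⊤ ν := memTop hg 1 fun x => (hg1 x).le
  have h2 : MemLp (fun x => g x - z) ⊤ ν := memTop (hg.sub_const z) (1 + ‖z‖) fun x => by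
    refine (norm_sub_le _ _).trans ?_
    rw [hg1]
  have h3 : MemLp (fun x => (g x - z)⁻¹) ⊤ ν := memTop (hg.sub_const z).inv c⁻¹ fun x => by
    rw [norm_inv]
    exact inv_anti₀ hc (hz x)
  have h5 : MemLp (fun _ : UnitAddCircle => (1 : ℂ)) ⊤ ν := memTop measurable_const 1 fun _ => by simp
  have h0 : ∀ x, g x - z ≠ 0 := fun x h => by
    have := hz x
    rw [h, norm_zero] at this
    linarith
  have e1 : (fun x => (g x - z) * (g x - z)⁻¹) = fun _ => (1 : ℂ) := funext fun x => mul_inv_cancel₀ (h0 x)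
  have e2 : (fun x => (g x - z)⁻¹ * (g x - z)) = fun _ => (1 : ℂ) := funext fun x => inv_mul_cancel₀ (h0 x)
  rw [spectrum.notMem_iff]
  have h6 : algebraMap ℂ (L2T →L[ℂ] L2T) z - mulOp g = -(mulOp fun x => g x - z) := by
    rw [← mulOp_sub h1 (memTop measurable_const ‖z‖ fun _ => le_rfl), mulOp_const, Algebra.algebraMap_eq_smul_one]
    abel
  rw [h6, IsUnit.neg_iff]
  refine ⟨⟨mulOp fun x => g x - z, mulOp fun x => (g x - z)⁻¹, ?_, ?_⟩, rfl⟩
  · rw [mulOp_mul h2 h3 (by rw [e1]; exact h5), e1, mulOp_const, one_smul]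
  · rw [mulOp_mul h3 h2 (by rw [e2]; exact h5), e2, mulOp_const, one_smul]

/-- the powers -/
theorem mulOp_pow {g : UnitAddCircle → ℂ} (hg : Measurable g) (hg1 : ∀ x, ‖g x‖ = 1) (n : ℕ) :
    (mulOp g) ^ n = mulOp fun x => g x ^ n := by
  have hm : ∀ k : ℕ, MemLp (fun x => g x ^ k) ⊤ ν := fun k => memTop (hg.pow_const k) 1 fun x => by
    rw [norm_pow, hg1, one_pow]
  induction n with
  | zero =>
    simp only [pow_zero]
    rw [mulOp_const, one_smul]
  | succ n ih =>
    have e : (fun x => g x ^ (n + 1)) = fun x => g x ^ n * g x := funext fun x => pow_succ _ _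
    have h1 : MemLp g ⊤ ν := memTop hg 1 fun x => (hg1 x).le
    rw [pow_succ, ih, e, mulOp_mul (hm n) h1 (by rw [← e]; exact hm (n + 1))]

/-- the diagonal operator with bounded entries on the square summable sequences -/
noncomputable def diagOp (b : ℤ → ℂ) (hb : ∀ n, ‖b n‖ ≤ 1) :
    lp (fun _ : ℤ => ℂ) 2 →L[ℂ] lp (fun _ : ℤ => ℂ) 2 :=
  LinearMap.mkContinuous
    { toFun := fun f => ⟨fun n => b n * f n, by
        have h := lp.memℓp f
        show Memℓp (fun n => b n * f n) 2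
        rw [memℓp_gen_iff (by norm_num)] at h ⊢
        refine Summable.of_nonneg_of_le (fun n => by positivity) (fun n => ?_) h
        rw [norm_mul]
        have : ‖b n‖ * ‖f n‖ ≤ ‖f n‖ := mul_le_of_le_one_left (norm_nonneg _) (hb n)
        exact Real.rpow_le_rpow (by positivity) this (by norm_num)⟩
      map_add' := fun f g => by
        ext n
        show b n * (f n + g n) = b n * f n + b n * g n
        ring
      map_smul' := fun z f => by
        ext n
        show b n * (z * f n) = z * (b n * f n)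
        ring } 1 (fun f => by
      rw [one_mul]
      apply lp.norm_le_of_forall_sum_le (by norm_num) (norm_nonneg _)
      intro s
      refine le_trans (Finset.sum_le_sum fun n _ => ?_) (lp.sum_rpow_le_norm_rpow (by norm_num) f s)
      show ‖b n * f n‖ ^ (2 : ℝ≥0∞).toReal ≤ ‖f n‖ ^ (2 : ℝ≥0∞).toReal
      rw [norm_mul]
      have : ‖b n‖ * ‖f n‖ ≤ ‖f n‖ := mul_le_of_le_one_left (norm_nonneg _) (hb n)
      exact Real.rpow_le_rpow (by positivity) this (by norm_num))

theorem diagOp_apply (b : ℤ → ℂ) (hb : ∀ n, ‖b n‖ ≤ 1) (f : lp (fun _ : ℤ => ℂ) 2) (n : ℤ) :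
    diagOp b hb f n = b n * f n := rfl

theorem diagOp_norm (b : ℤ → ℂ) (hb : ∀ n, ‖b n‖ ≤ 1) : ‖diagOp b hb‖ ≤ 1 :=
  LinearMap.mkContinuous_norm_le _ zero_le_one _

/-- the Fourier multiplier -/
noncomputable def fmul (b : ℤ → ℂ) (hb : ∀ n, ‖b n‖ ≤ 1) : L2T →L[ℂ] L2T :=
  ((fourierBasis (T := 1)).repr.symm.toContinuousLinearEquiv : lp (fun _ : ℤ => ℂ) 2 →L[ℂ] L2T).comp
    ((diagOp b hb).comp ((fourierBasis (T := 1)).repr.toContinuousLinearEquiv : L2T →L[ℂ] lp (fun _ : ℤ => ℂ) 2))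

theorem fmul_norm (b : ℤ → ℂ) (hb : ∀ n, ‖b n‖ ≤ 1) : ‖fmul b hb‖ ≤ 1 := by
  apply ContinuousLinearMap.opNorm_le_bound _ zero_le_one
  intro f
  rw [one_mul]
  show ‖(fourierBasis (T := 1)).repr.symm (diagOp b hb ((fourierBasis (T := 1)).repr f))‖ ≤ ‖f‖
  rw [LinearIsometryEquiv.norm_map]
  refine ((diagOp b hb).le_opNorm _).trans ?_
  rw [LinearIsometryEquiv.norm_map]
  exact mul_le_of_le_one_left (norm_nonneg _) (diagOp_norm b hb)

/-- the quadratic form of the Fourier multiplier -/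
theorem fmul_form (b : ℤ → ℂ) (hb : ∀ n, ‖b n‖ ≤ 1) (f : L2T) :
    ⟪f, fmul b hb f⟫_ℂ = ∑' k : ℤ, b k * ((‖fourierCoeff f k‖ ^ 2 : ℝ) : ℂ) := by
  have h1 : ⟪f, fmul b hb f⟫_ℂ = ⟪(fourierBasis (T := 1)).repr f, diagOp b hb ((fourierBasis (T := 1)).repr f)⟫_ℂ := by
    rw [← LinearIsometryEquiv.inner_map_map (fourierBasis (T := 1)).repr f (fmul b hb f)]
    congr 1
    show (fourierBasis (T := 1)).repr ((fourierBasis (T := 1)).repr.symm (diagOp b hb ((fourierBasis (T := 1)).repr f))) = _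
    rw [LinearIsometryEquiv.apply_symm_apply]
  rw [h1, lp.inner_eq_tsum]
  refine tsum_congr fun k => ?_
  rw [diagOp_apply, fourierBasis_repr, RCLike.inner_apply, mul_assoc, Complex.mul_conj, Complex.normSq_eq_norm_sq]

/-- the Fourier multiplier on a character -/
theorem fmul_char (b : ℤ → ℂ) (hb : ∀ n, ‖b n‖ ≤ 1) (k : ℤ) :
    fmul b hb (fourierLp 2 k) = b k • (fourierLp 2 k : L2T) := by
  have h0 : (fourierBasis (T := 1)).repr (fourierLp 2 k) = lp.single 2 k (1 : ℂ) := by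
    rw [← coe_fourierBasis, HilbertBasis.repr_self]
  show (fourierBasis (T := 1)).repr.symm (diagOp b hb ((fourierBasis (T := 1)).repr (fourierLp 2 k))) = _
  rw [h0]
  have h1 : diagOp b hb (lp.single 2 k (1 : ℂ)) = b k • lp.single 2 k (1 : ℂ) := by
    ext n
    rw [diagOp_apply]
    show b n * (lp.single 2 k (1 : ℂ) : lp (fun _ : ℤ => ℂ) 2) n = b k * (lp.single 2 k (1 : ℂ) : lp (fun _ : ℤ => ℂ) 2) n
    by_cases hn : n = k
    · subst hn; rfl
    · rw [lp.single_apply_ne _ _ _ hn, mul_zero, mul_zero]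
  rw [h1, map_smul]
  congr 1
  rw [LinearIsometryEquiv.symm_apply_eq, h0]

end Pool.Agent.E8helper86.NS
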