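import Pool.Agent.E8helper86.NS.Last

/-! The cyclic representation of a measure on the circle, and the failure of disjointness for measures
which are not singular. -/

set_option autoImplicit false

open MeasureTheory Topology Filter Finset
open scoped InnerProductSpace ENNReal NNReal

namespace Pool.Agent.E8helper86.NS

open Pool.Agent.Y958.U (LZ)

section

variable (σ : Measure UnitAddCircle) [IsFiniteMeasure σ]

open Classical in
/-- multiplication by a bounded measurable function -/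
noncomputable def mulS (g : UnitAddCircle → ℂ) : Lp ℂ 2 σ →L[ℂ] Lp ℂ 2 σ :=
  if hg : MemLp g ⊤ σ then (ContinuousLinearMap.mul ℂ ℂ).holderL σ ⊤ 2 2 (hg.toLp g) else 0

variable {σ}

theorem mulS_ae {g : UnitAddCircle → ℂ} (hg : MemLp g ⊤ σ) (f : Lp ℂ 2 σ) :
    mulS σ g f =ᵐ[σ] fun x => g x * f x := by
  unfold mulS
  rw [dif_pos hg]
  have h1 := (ContinuousLinearMap.mul ℂ ℂ).coeFn_holder (r := 2) (hg.toLp g) f
  have h2 := hg.coeFn_toLp
  rw [ContinuousLinearMap.holderL_apply_apply]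
  filter_upwards [h1, h2] with x hx1 hx2
  rw [hx1, hx2]
  rfl

/-- bounded measurable functions -/
theorem memTopS {g : UnitAddCircle → ℂ} (hg : Measurable g) (C : ℝ) (hC : ∀ x, ‖g x‖ ≤ C) : MemLp g ⊤ σ :=
  memLp_top_of_bound hg.aestronglyMeasurable C (Eventually.of_forall hC)

theorem mulS_mul {g h : UnitAddCircle → ℂ} (hg : MemLp g ⊤ σ) (hh : MemLp h ⊤ σ)
    (hgh : MemLp (fun x => g x * h x) ⊤ σ) : mulS σ g * mulS σ h = mulS σ (fun x => g x * h x) := by
  ext1 f
  apply Lp.ext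
  have h1 := mulS_ae hg (mulS σ h f)
  have h2 := mulS_ae hh f
  have h3 := mulS_ae hgh f
  show mulS σ g (mulS σ h f) =ᵐ[σ] mulS σ (fun x => g x * h x) f
  filter_upwards [h1, h2, h3] with x hx1 hx2 hx3
  rw [hx1, hx2, hx3]
  ring

theorem mulS_const (z : ℂ) : mulS σ (fun _ => z) = z • (1 : Lp ℂ 2 σ →L[ℂ] Lp ℂ 2 σ) := by
  ext1 f
  apply Lp.ext
  have h1 := mulS_ae (memTopS measurable_const ‖z‖ fun _ => le_rfl : MemLp (fun _ => z) ⊤ σ) f
  have h2 := Lp.coeFn_smul z f
  show mulS σ (fun _ => z) f =ᵐ[σ] (z • f : Lp ℂ 2 σ)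
  filter_upwards [h1, h2] with x hx1 hx2
  rw [hx1, hx2]
  rfl

theorem mulS_star {g : UnitAddCircle → ℂ} (hg : MemLp g ⊤ σ) (hg' : MemLp (fun x => star (g x)) ⊤ σ) :
    star (mulS σ g) = mulS σ (fun x => star (g x)) := by
  ext1 f
  apply ext_inner_left ℂ
  intro h
  rw [ContinuousLinearMap.star_eq_adjoint, ContinuousLinearMap.adjoint_inner_right, L2.inner_def, L2.inner_def]
  apply integral_congr_ae
  filter_upwards [mulS_ae hg h, mulS_ae hg' f] with x hx1 hx2
  rw [hx1, hx2]
  simp only [RCLike.inner_apply, map_mul, Complex.star_def]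
  ring

/-- unimodular functions give unitaries -/
theorem mulS_unitary {g : UnitAddCircle → ℂ} (hg : Measurable g) (hg1 : ∀ x, ‖g x‖ = 1) :
    mulS σ g ∈ unitary (Lp ℂ 2 σ →L[ℂ] Lp ℂ 2 σ) := by
  have h1 : MemLp g ⊤ σ := memTopS hg 1 fun x => (hg1 x).le
  have h2 : MemLp (fun x => star (g x)) ⊤ σ := memTopS (continuous_star.measurable.comp hg) 1 fun x => by
    rw [norm_star]; exact (hg1 x).le
  have h3 : ∀ x, star (g x) * g x = 1 := fun x => by
    rw [Complex.star_def, ← Complex.normSq_eq_conj_mul_self, Complex.normSq_eq_norm_sq, hg1]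
    simp
  have h5 : MemLp (fun _ : UnitAddCircle => (1 : ℂ)) ⊤ σ := memTopS measurable_const 1 fun _ => by simp
  rw [Unitary.mem_iff, mulS_star h1 h2]
  have e1 : (fun x => star (g x) * g x) = fun _ => (1 : ℂ) := funext h3
  have e2 : (fun x => g x * star (g x)) = fun _ => (1 : ℂ) := funext fun x => by rw [mul_comm]; exact h3 x
  constructor
  · rw [mulS_mul h2 h1 (by rw [e1]; exact h5), e1, mulS_const, one_smul]
  · rw [mulS_mul h1 h2 (by rw [e2]; exact h5), e2, mulS_const, one_smul]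

/-- the powers -/
theorem mulS_pow {g : UnitAddCircle → ℂ} (hg : Measurable g) (hg1 : ∀ x, ‖g x‖ = 1) (n : ℕ) :
    (mulS σ g) ^ n = mulS σ fun x => g x ^ n := by
  have hm : ∀ k : ℕ, MemLp (fun x => g x ^ k) ⊤ σ := fun k => memTopS (hg.pow_const k) 1 fun x => by
    rw [norm_pow, hg1, one_pow]
  induction n with
  | zero =>
    simp only [pow_zero]
    rw [mulS_const, one_smul]
  | succ n ih =>
    have e : (fun x => g x ^ (n + 1)) = fun x => g x ^ n * g x := funext fun x => pow_succ _ _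
    have h1 : MemLp g ⊤ σ := memTopS hg 1 fun x => (hg1 x).le
    rw [pow_succ, ih, e, mulS_mul (hm n) h1 (by rw [← e]; exact hm (n + 1))]

variable (σ)

/-- multiplication by the identity character -/
noncomputable def cyc : unitary (Lp ℂ 2 σ →L[ℂ] Lp ℂ 2 σ) :=
  ⟨mulS σ (fun x => (fourier 1 x : ℂ)), mulS_unitary (fourier 1).continuous.measurable (fun _ => norm_fourier _ _)⟩

/-- the constant function -/
noncomputable def one' : Lp ℂ 2 σ := (memLp_const (1 : ℂ)).toLp fun _ => (1 : ℂ)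

variable {σ}

theorem one'_ae : (one' σ) =ᵐ[σ] fun _ => (1 : ℂ) := (memLp_const (1 : ℂ)).coeFn_toLp

/-- the constant function has the spectral measure `σ` -/
theorem cyc_spec : SpecMeas (cyc σ) (one' σ) σ := by
  intro n
  rw [L2.inner_def]
  apply integral_congr_ae
  have h : ((cyc σ : unitary (Lp ℂ 2 σ →L[ℂ] Lp ℂ 2 σ)) : Lp ℂ 2 σ →L[ℂ] Lp ℂ 2 σ) ^ n =
      mulS σ fun x => (fourier 1 x : ℂ) ^ n :=
    mulS_pow (fourier 1).continuous.measurable (fun x => norm_fourier _ _) n
  rw [h]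
  filter_upwards [mulS_ae (memTopS ((fourier 1).continuous.measurable.pow_const n) 1 fun x => by
    rw [norm_pow, norm_fourier, one_pow]) (one' σ), one'_ae (σ := σ)] with x hx1 hx2
  rw [hx1, hx2, ← fourier_nat]
  simp

end

end Pool.Agent.E8helper86.NS
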