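import Pool.Agent.E8helper86.NS.Loc
import Pool.Agent.E8helper86.NS.Ch

/-! Sequences with spectrum in a closed set, sandwiched with the powers of a unitary. -/

set_option autoImplicit false

open MeasureTheory Topology Filter Finset
open scoped ENNReal

namespace Pool.Agent.E8helper86.NS

open Pool.Agent.TH327.Thin (SpecIn)

universe u

/-- truncation of the reproducing formula -/
theorem rep_trunc {E : Type*} [NormedAddCommGroup E] [NormedSpace ℂ E] [CompleteSpace E] {f : ℤ → E} {M : ℝ}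
    (hM : ∀ n, ‖f n‖ ≤ M) {G : ℤ → ℂ} (hG : Summable fun n => ‖G n‖)
    (hrep : ∀ m, ∑' k, G k • f (m + k) = f m) (S : Finset ℤ) {τ : ℝ}
    (hS : ∑' k : {k : ℤ // k ∉ S}, ‖G k‖ ≤ τ) (m : ℤ) : ‖f m - ∑ k ∈ S, G k • f (m + k)‖ ≤ τ * M := by
  have hM0 : 0 ≤ M := (norm_nonneg _).trans (hM 0)
  have hs : Summable fun k : ℤ => G k • f (m + k) := by
    refine Summable.of_norm_bounded (hG.mul_right M) fun n => ?_
    rw [norm_smul]
    exact mul_le_mul_of_nonneg_left (hM _) (norm_nonneg _)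
  have h1 := hs.sum_add_tsum_subtype_compl S
  rw [hrep] at h1
  rw [← h1, add_sub_cancel_left]
  have hs1 : Summable fun k : {k : ℤ // k ∉ S} => ‖G k‖ * M := (hG.subtype _).mul_right _
  calc ‖∑' k : {k : ℤ // k ∉ S}, G k • f (m + k)‖ ≤ ∑' k : {k : ℤ // k ∉ S}, ‖G k‖ * M := by
        apply tsum_of_norm_bounded hs1.hasSum
        intro k
        rw [norm_smul]
        exact mul_le_mul_of_nonneg_left (hM _) (norm_nonneg _)
    _ = (∑' k : {k : ℤ // k ∉ S}, ‖G k‖) * M := tsum_mul_right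
    _ ≤ τ * M := by gcongr

/-- the deterministic inequality for sequences with values in a C*-algebra -/
theorem seq_det {A : Type*} [CStarAlgebra A] [PartialOrder A] [StarOrderedRing A] {f : ℤ → A}
    (hM : ∀ n, ‖f n‖ ≤ 1) (v : unitary A) {G : ℤ → ℂ} (hG : Summable fun n => ‖G n‖)
    (hrep : ∀ m, ∑' k, G k • f (m + k) = f m) (S : Finset ℤ) {τ : ℝ}
    (hS : ∑' k : {k : ℤ // k ∉ S}, ‖G k‖ ≤ τ) {D : ℕ} (hD : ∀ k ∈ S, |k| ≤ (D : ℤ)) (N : ℕ) (c : ℤ → ℂ)
    (hc0 : ∀ n, n ∉ Icc (1 : ℤ) N → c n = 0) (hc1 : ∀ n, ‖c n‖ ≤ 1) :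
    ‖∑ n ∈ Icc (1 : ℤ) N, c n • (f n * ((v ^ n : unitary A) : A))‖ ≤
      τ * N + √((N : ℝ) + 2 * D + 1) * √(Gam S G c N) := by
  set I : Finset ℤ := Icc (-(D : ℤ)) (N + D) with hI
  set d : ℤ → A := fun m => ∑ k ∈ S, G k • (c (m - k) • ((v ^ (m - k) : unitary A) : A)) with hd
  have h1 : ∑ n ∈ Icc (1 : ℤ) N, c n • ((∑ k ∈ S, G k • f (n + k)) * ((v ^ n : unitary A) : A)) =
      ∑ m ∈ I, f m * d m := by
    have h2 : ∀ m, f m * d m = ∑ k ∈ S, G k • (c (m - k) • (f m * ((v ^ (m - k) : unitary A) : A))) := by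
      intro m
      rw [hd]
      simp only
      rw [Finset.mul_sum]
      refine Finset.sum_congr rfl fun k _ => ?_
      rw [mul_smul_comm, mul_smul_comm]
    simp_rw [h2]
    rw [Finset.sum_comm]
    have h3 : ∀ n, c n • ((∑ k ∈ S, G k • f (n + k)) * ((v ^ n : unitary A) : A)) =
        ∑ k ∈ S, G k • (c n • (f (n + k) * ((v ^ n : unitary A) : A))) := by
      intro n
      rw [Finset.sum_mul, Finset.smul_sum]
      refine Finset.sum_congr rfl fun k _ => ?_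
      rw [smul_mul_assoc, smul_comm]
    simp_rw [h3]
    rw [Finset.sum_comm]
    refine Finset.sum_congr rfl fun k hk => ?_
    rw [← Finset.smul_sum, ← Finset.smul_sum]
    congr 1
    rw [← sum_shift (fun n => c n • (f (n + k) * ((v ^ n : unitary A) : A))) N D k (hD k hk)
      (fun n hn => by rw [hc0 n hn, zero_smul])]
    refine Finset.sum_congr rfl fun m _ => ?_
    rw [sub_add_cancel]
  have h4 : ‖∑ m ∈ I, f m * d m‖ ≤ √((N : ℝ) + 2 * D + 1) * √(Gam S G c N) := by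
    refine (cs_finset I f d).trans ?_
    gcongr
    · calc ‖∑ m ∈ I, f m * star (f m)‖ ≤ ∑ m ∈ I, (1 : ℝ) := by
            refine (norm_sum_le _ _).trans (Finset.sum_le_sum fun m _ => ?_)
            rw [CStarRing.norm_self_mul_star]
            exact mul_le_one₀ (hM m) (norm_nonneg _) (hM m)
        _ = (N : ℝ) + 2 * D + 1 := by
            rw [Finset.sum_const, hI, Int.card_Icc, nsmul_eq_mul, mul_one]
            have : ((N : ℤ) + D + 1 - (-(D : ℤ))).toNat = N + 2 * D + 1 := by omega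
            rw [this]
            push_cast
            ring
    · exact sq_conv v hc0 S G hD
  have h5 : ∑ n ∈ Icc (1 : ℤ) N, c n • (f n * ((v ^ n : unitary A) : A)) =
      ∑ n ∈ Icc (1 : ℤ) N, c n • ((f n - ∑ k ∈ S, G k • f (n + k)) * ((v ^ n : unitary A) : A)) + ∑ m ∈ I, f m * d m := by
    rw [← h1, ← Finset.sum_add_distrib]
    refine Finset.sum_congr rfl fun n _ => ?_
    rw [← smul_add, ← add_mul, sub_add_cancel]
  rw [h5]
  refine (norm_add_le _ _).trans (add_le_add ?_ h4)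
  calc ‖∑ n ∈ Icc (1 : ℤ) N, c n • ((f n - ∑ k ∈ S, G k • f (n + k)) * ((v ^ n : unitary A) : A))‖
      ≤ ∑ n ∈ Icc (1 : ℤ) N, τ := by
        refine (norm_sum_le _ _).trans (Finset.sum_le_sum fun n _ => ?_)
        rw [norm_smul]
        have h6 := rep_trunc hM hG hrep S hS n
        rw [mul_one] at h6
        have h7 : ‖(f n - ∑ k ∈ S, G k • f (n + k)) * ((v ^ n : unitary A) : A)‖ ≤ τ := by
          refine (norm_mul_le _ _).trans ?_
          calc ‖f n - ∑ k ∈ S, G k • f (n + k)‖ * ‖((v ^ n : unitary A) : A)‖ ≤ τ * 1 := by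
                apply mul_le_mul h6 (norm_zpow_le v n) (norm_nonneg _) ((norm_nonneg _).trans h6)
            _ = τ := mul_one _
        calc ‖c n‖ * _ ≤ 1 * τ := mul_le_mul (hc1 n) h7 (norm_nonneg _) zero_le_one
          _ = τ := one_mul _
    _ = τ * N := by simp; ring

/-- the deterministic inequality in a Banach space -/
theorem seq_det_banach {E : Type*} [NormedAddCommGroup E] [NormedSpace ℂ E] [CompleteSpace E] {f : ℤ → E}
    (hM : ∀ n, ‖f n‖ ≤ 1) {G : ℤ → ℂ} (hG : Summable fun n => ‖G n‖)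
    (hrep : ∀ m, ∑' k, G k • f (m + k) = f m) (S : Finset ℤ) {τ : ℝ}
    (hS : ∑' k : {k : ℤ // k ∉ S}, ‖G k‖ ≤ τ) {D : ℕ} (hD : ∀ k ∈ S, |k| ≤ (D : ℤ)) (N : ℕ) (c : ℤ → ℂ)
    (hc0 : ∀ n, n ∉ Icc (1 : ℤ) N → c n = 0) (hc1 : ∀ n, ‖c n‖ ≤ 1) :
    ‖∑ n ∈ Icc (1 : ℤ) N, c n • f n‖ ≤ τ * N + √((N : ℝ) + 2 * D + 1) * √(Gam S G c N) := by
  set I : Finset ℤ := Icc (-(D : ℤ)) (N + D) with hI
  set d : ℤ → ℂ := fun m => ∑ k ∈ S, G k • (c (m - k) • (((1 : unitary ℂ) ^ (m - k) : unitary ℂ) : ℂ)) with hd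
  have h1 : ∑ n ∈ Icc (1 : ℤ) N, c n • (∑ k ∈ S, G k • f (n + k)) = ∑ m ∈ I, d m • f m := by
    have h2 : ∀ m, d m • f m = ∑ k ∈ S, G k • (c (m - k) • f m) := by
      intro m
      rw [hd]
      simp only
      rw [Finset.sum_smul]
      refine Finset.sum_congr rfl fun k _ => ?_
      rw [one_zpow]
      simp [smul_smul]
    simp_rw [h2]
    rw [Finset.sum_comm]
    have h3 : ∀ n, c n • (∑ k ∈ S, G k • f (n + k)) = ∑ k ∈ S, G k • (c n • f (n + k)) := by
      intro n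
      rw [Finset.smul_sum]
      refine Finset.sum_congr rfl fun k _ => ?_
      rw [smul_comm]
    simp_rw [h3]
    rw [Finset.sum_comm]
    refine Finset.sum_congr rfl fun k hk => ?_
    rw [← Finset.smul_sum, ← Finset.smul_sum]
    congr 1
    rw [← sum_shift (fun n => c n • f (n + k)) N D k (hD k hk)
      (fun n hn => by rw [hc0 n hn, zero_smul])]
    refine Finset.sum_congr rfl fun m _ => ?_
    rw [sub_add_cancel]
  have hd2 : ∑ m ∈ I, ‖d m‖ ^ 2 ≤ Gam S G c N := by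
    have h6 := sq_conv (1 : unitary ℂ) hc0 S G hD
    have h7 : ∑ m ∈ I, star (d m) * d m = ((∑ m ∈ I, ‖d m‖ ^ 2 : ℝ) : ℂ) := by
      push_cast
      refine Finset.sum_congr rfl fun m _ => ?_
      rw [Complex.star_def, ← Complex.normSq_eq_conj_mul_self, Complex.normSq_eq_norm_sq]
      push_cast
      rfl
    rw [h7, Complex.norm_real, Real.norm_of_nonneg (Finset.sum_nonneg fun _ _ => by positivity)] at h6
    exact h6
  have h4 : ‖∑ m ∈ I, d m • f m‖ ≤ √((N : ℝ) + 2 * D + 1) * √(Gam S G c N) := by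
    calc ‖∑ m ∈ I, d m • f m‖ ≤ ∑ m ∈ I, (1 : ℝ) * ‖d m‖ := by
          refine (norm_sum_le _ _).trans (Finset.sum_le_sum fun m _ => ?_)
          rw [norm_smul, one_mul]
          exact mul_le_of_le_one_right (norm_nonneg _) (hM m)
      _ ≤ √(∑ m ∈ I, (1 : ℝ) ^ 2) * √(∑ m ∈ I, ‖d m‖ ^ 2) := Real.sum_mul_le_sqrt_mul_sqrt _ _ _
      _ ≤ √((N : ℝ) + 2 * D + 1) * √(Gam S G c N) := by
          gcongr
          rw [Finset.sum_const, hI, Int.card_Icc, nsmul_eq_mul, one_pow, mul_one]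
          have : ((N : ℤ) + D + 1 - (-(D : ℤ))).toNat = N + 2 * D + 1 := by omega
          rw [this]
          push_cast
          linarith
  have h5 : ∑ n ∈ Icc (1 : ℤ) N, c n • f n =
      ∑ n ∈ Icc (1 : ℤ) N, c n • (f n - ∑ k ∈ S, G k • f (n + k)) + ∑ m ∈ I, d m • f m := by
    rw [← h1, ← Finset.sum_add_distrib]
    refine Finset.sum_congr rfl fun n _ => ?_
    rw [← smul_add, sub_add_cancel]
  rw [h5]
  refine (norm_add_le _ _).trans (add_le_add ?_ h4)
  calc ‖∑ n ∈ Icc (1 : ℤ) N, c n • (f n - ∑ k ∈ S, G k • f (n + k))‖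
      ≤ ∑ n ∈ Icc (1 : ℤ) N, τ := by
        refine (norm_sum_le _ _).trans (Finset.sum_le_sum fun n _ => ?_)
        rw [norm_smul]
        have h6 := rep_trunc hM hG hrep S hS n
        rw [mul_one] at h6
        calc ‖c n‖ * _ ≤ 1 * τ := mul_le_mul (hc1 n) h6 (norm_nonneg _) zero_le_one
          _ = τ := one_mul _
    _ = τ * N := by simp; ring

/-- small tails -/
theorem exists_tail {G : ℤ → ℂ} (hG : Summable fun n => ‖G n‖) {τ : ℝ} (hτ : 0 < τ) :
    ∃ S : Finset ℤ, ∑' k : {k : ℤ // k ∉ S}, ‖G k‖ ≤ τ := by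
  obtain ⟨S, hS⟩ := (summable_iff_vanishing_norm.1 hG) τ hτ
  refine ⟨S, Real.tsum_le_of_sum_le (fun h => norm_nonneg (G h)) fun s => ?_⟩
  have h1 := hS (s.map (Function.Embedding.subtype _)) (by
    rw [Finset.disjoint_left]
    intro a ha haT
    rw [Finset.mem_map] at ha
    obtain ⟨b, _, rfl⟩ := ha
    exact b.2 haT)
  rw [Finset.sum_map, Real.norm_of_nonneg (Finset.sum_nonneg fun k _ => norm_nonneg (G _))] at h1
  exact h1.le

/-- the numerical part -/
theorem num_part {m ε : ℝ} (hm : 0 ≤ m) (hε : 0 < ε) (D : ℕ) :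
    ∃ N₁ : ℕ, ∀ N : ℕ, N₁ ≤ N → ∀ g : ℝ, g ≤ (m + (ε / 4) ^ 2) * N →
      ε / 4 * N + √((N : ℝ) + 2 * D + 1) * √g ≤ (√m + ε) * N := by
  set T : ℝ := √m + ε / 4 with hT
  have hT0 : 0 < T := by positivity
  have hε4 : 0 < ε / 4 := by positivity
  obtain ⟨N₁, hN₁⟩ := exists_nat_gt ((2 * D + 1) * T ^ 2 / (ε / 4) ^ 2)
  refine ⟨N₁ + 1, fun N hN g hg => ?_⟩
  have hN0 : (0 : ℝ) < N := by exact_mod_cast (by omega : 0 < N)
  have h1 : √g ≤ T * √N := by
    calc √g ≤ √((m + (ε / 4) ^ 2) * N) := Real.sqrt_le_sqrt hg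
      _ = √(m + (ε / 4) ^ 2) * √N := Real.sqrt_mul (by positivity) _
      _ ≤ T * √N := by
          gcongr
          rw [Real.sqrt_le_left hT0.le, hT]
          nlinarith [Real.sq_sqrt hm, mul_nonneg (Real.sqrt_nonneg m) hε.le]
  have h2 : √((N : ℝ) + 2 * D + 1) ≤ √N + √(2 * D + 1) := by
    rw [Real.sqrt_le_left (by positivity)]
    nlinarith [Real.sq_sqrt hN0.le, Real.sq_sqrt (show (0 : ℝ) ≤ 2 * D + 1 by positivity),
      mul_nonneg (Real.sqrt_nonneg (N : ℝ)) (Real.sqrt_nonneg (2 * (D : ℝ) + 1))]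
  have h3 : T * √(2 * D + 1) ≤ ε / 4 * √N := by
    have h4 : (2 * D + 1) * T ^ 2 ≤ (ε / 4) ^ 2 * N := by
      have h5 : (2 * D + 1) * T ^ 2 / (ε / 4) ^ 2 ≤ N := hN₁.le.trans (by exact_mod_cast (by omega : N₁ ≤ N))
      rw [div_le_iff₀ (by positivity)] at h5
      linarith
    have h6 : √((2 * D + 1) * T ^ 2) ≤ √((ε / 4) ^ 2 * N) := Real.sqrt_le_sqrt h4
    rw [Real.sqrt_mul (by positivity), Real.sqrt_mul (by positivity), Real.sqrt_sq hT0.le, Real.sqrt_sq hε4.le] at h6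
    linarith
  have hs : √(N : ℝ) * √N = N := Real.mul_self_sqrt hN0.le
  calc ε / 4 * N + √((N : ℝ) + 2 * D + 1) * √g ≤ ε / 4 * N + (√N + √(2 * D + 1)) * (T * √N) := by
        gcongr
    _ = ε / 4 * N + T * (√N * √N) + (T * √(2 * D + 1)) * √N := by ring
    _ ≤ ε / 4 * N + T * (√N * √N) + (ε / 4 * √N) * √N := by gcongr
    _ = (√m + 3 * (ε / 4)) * N := by
        rw [show (ε / 4 * √(N : ℝ)) * √N = ε / 4 * (√N * √N) by ring, hs, hT]
        ring
    _ ≤ (√m + ε) * N := by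
        gcongr
        linarith

theorem seq_main (K : Set UnitAddCircle) (hK : IsClosed K) {E : Set ℕ} {c : ℕ → ℂ} (hc : ∀ n, ‖c n‖ ≤ 1)
    (hE : CorrZero E c) (ε : ℝ) (hε : 0 < ε) :
    ∀ᶠ N : ℕ in Lf E, ∀ (A : Type u) [CStarAlgebra A] (f : ℤ → A) (v : unitary A) (θ : UnitAddCircle),
      (∀ n, ‖f n‖ ≤ 1) → SpecIn K f →
      ‖∑ n ∈ Icc (1 : ℤ) N, cut c θ N n • (f n * ((v ^ n : unitary A) : A))‖ ≤ (√(volume K).toReal + ε) * N ∧
      ‖∑ n ∈ Icc (1 : ℤ) N, cut c θ N n • (((v ^ n : unitary A) : A) * f n)‖ ≤ (√(volume K).toReal + ε) * N := by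
  set m := (volume K).toReal with hm
  have hm0 : 0 ≤ m := ENNReal.toReal_nonneg
  set η : ℝ := (ε / 4) ^ 2 / 2 with hη
  have hη0 : 0 < η := by positivity
  obtain ⟨G, hG, hG2, hU⟩ := exists_loc K hK hη0
  obtain ⟨S, hS⟩ := exists_tail hG (τ := ε / 4) (by positivity)
  obtain ⟨D, hD⟩ := exists_D S
  obtain ⟨N₁, hN₁⟩ := num_part hm0 hε D
  have hev : ∀ᶠ N : ℕ in Lf E, N₁ ≤ N := (eventually_ge_atTop N₁).filter_mono inf_le_left
  have hcc : ∀ n, ‖star (c n)‖ ≤ 1 := fun n => by rw [norm_star]; exact hc n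
  filter_upwards [Gam_ev hc hE S G η hη0, Gam_ev hcc hE.conj S (fun k => star (G k)) η hη0, hev] with
    N hN1 hN2 hN3 A _ f v θ hf hfK
  let _ := CStarAlgebra.spectralOrder A
  let _ := CStarAlgebra.spectralOrderedRing A
  have hsq : ∀ g : ℝ, g ≤ (∑ k ∈ S, ‖G k‖ ^ 2 + η) * N → g ≤ (m + (ε / 4) ^ 2) * N := by
    intro g hg
    refine hg.trans (mul_le_mul_of_nonneg_right ?_ (Nat.cast_nonneg N))
    have := hG2 S
    rw [show (ε / 4) ^ 2 = η + η by rw [hη]; ring]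
    linarith
  have hrep := specIn_rep hfK hf hG hU
  constructor
  · refine (seq_det hf v hG hrep S hS hD N (cut c θ N) (cut_out c θ N) (cut_le hc θ N)).trans ?_
    exact hN₁ N hN3 _ (hsq _ (hN1 θ))
  · have hG' : Summable fun n => ‖star (G n)‖ := by simpa only [norm_star] using hG
    have hrep' : ∀ m, ∑' k, star (G k) • star (f (m + k)) = star (f m) := by
      intro m
      rw [← hrep m, tsum_star]
      exact tsum_congr fun k => (star_smul _ _).symm
    have h1 := seq_det (f := fun n => star (f n)) (fun n => by rw [norm_star]; exact hf n) v⁻¹ hG' hrep' S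
      (by simpa only [norm_star] using hS) hD N (cut (fun n => star (c n)) (-θ) N) (cut_out _ _ N) (cut_le hcc _ N)
    have h2 := h1.trans (hN₁ N hN3 _ (hsq _ (by
      have := hN2 (-θ)
      simpa only [norm_star] using this)))
    have h3 : ∑ n ∈ Icc (1 : ℤ) N, cut c θ N n • (((v ^ n : unitary A) : A) * f n) =
        star (∑ n ∈ Icc (1 : ℤ) N, cut (fun n => star (c n)) (-θ) N n • (star (f n) * (((v⁻¹) ^ n : unitary A) : A))) := by
      rw [star_sum]
      refine Finset.sum_congr rfl fun n _ => ?_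
      have e1 : star (((v⁻¹ : unitary A) ^ n : unitary A) : A) = ((v ^ n : unitary A) : A) := by
        have : ((v⁻¹ : unitary A) ^ n : unitary A) = (v ^ n)⁻¹ := inv_zpow v n
        rw [this]
        show star (star ((v ^ n : unitary A) : A)) = _
        rw [star_star]
      have e2 : star (cut (fun n => star (c n)) (-θ) N n) = cut c θ N n := by
        unfold cut
        by_cases hn : n ∈ Icc (1 : ℤ) N
        · rw [if_pos hn, if_pos hn, star_mul', star_star, Complex.star_def, ← fourier_neg, fourier_apply, fourier_apply]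
          simp
        · rw [if_neg hn, if_neg hn, star_zero]
      rw [star_smul, star_mul, star_star, e1, e2]
    rw [h3, norm_star]
    exact h2

theorem seq_main_banach (K : Set UnitAddCircle) (hK : IsClosed K) {E : Set ℕ} {c : ℕ → ℂ} (hc : ∀ n, ‖c n‖ ≤ 1)
    (hE : CorrZero E c) (ε : ℝ) (hε : 0 < ε) :
    ∀ᶠ N : ℕ in Lf E, ∀ (Y : Type u) [NormedAddCommGroup Y] [NormedSpace ℂ Y] [CompleteSpace Y] (f : ℤ → Y)
      (θ : UnitAddCircle), (∀ n, ‖f n‖ ≤ 1) → SpecIn K f →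
      ‖∑ n ∈ Icc (1 : ℤ) N, cut c θ N n • f n‖ ≤ (√(volume K).toReal + ε) * N := by
  set m := (volume K).toReal with hm
  have hm0 : 0 ≤ m := ENNReal.toReal_nonneg
  set η : ℝ := (ε / 4) ^ 2 / 2 with hη
  have hη0 : 0 < η := by positivity
  obtain ⟨G, hG, hG2, hU⟩ := exists_loc K hK hη0
  obtain ⟨S, hS⟩ := exists_tail hG (τ := ε / 4) (by positivity)
  obtain ⟨D, hD⟩ := exists_D S
  obtain ⟨N₁, hN₁⟩ := num_part hm0 hε D
  have hev : ∀ᶠ N : ℕ in Lf E, N₁ ≤ N := (eventually_ge_atTop N₁).filter_mono inf_le_left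
  filter_upwards [Gam_ev hc hE S G η hη0, hev] with N hN1 hN3 Y _ _ _ f θ hf hfK
  have hrep := specIn_rep hfK hf hG hU
  refine (seq_det_banach hf hG hrep S hS hD N (cut c θ N) (cut_out c θ N) (cut_le hc θ N)).trans ?_
  refine hN₁ N hN3 _ ((hN1 θ).trans (mul_le_mul_of_nonneg_right ?_ (Nat.cast_nonneg N)))
  have := hG2 S
  rw [show (ε / 4) ^ 2 = η + η by rw [hη]; ring]
  linarith

end Pool.Agent.E8helper86.NS
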