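import Pool.Agent.E8helper86.NS.Dom

/-! The converse for vector states. -/

set_option autoImplicit false

open MeasureTheory Topology Filter Finset
open scoped InnerProductSpace ENNReal NNReal

namespace Pool.Agent.E8helper86.NS

open Pool.Agent.Y958.U (LZ)

theorem exists_dom {σ : Measure UnitAddCircle} [IsFiniteMeasure σ] (h : ¬ σ ⟂ₘ volume) :
    ∃ (K : Set UnitAddCircle) (δ : ℝ), IsClosed K ∧ 0 < δ ∧ 0 < ν.real K ∧ ν.restrict K ≤ ENNReal.ofReal δ⁻¹ • σ := by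
  rw [vol_nu] at h
  obtain ⟨ε, hε, E, hE, hE0, hEd⟩ := Measure.exists_positive_of_not_mutuallySingular σ ν h
  obtain ⟨K, hKE, hK, hK0⟩ := hE.exists_lt_isClosed_of_ne_top (measure_ne_top ν E) hE0
  refine ⟨K, ε, hK, by exact_mod_cast hε, ?_, ?_⟩
  · rw [measureReal_def]
    exact ENNReal.toReal_pos hK0.ne' (measure_ne_top _ _)
  · rw [Measure.le_iff]
    intro A hA
    rw [Measure.restrict_apply hA, Measure.smul_apply, smul_eq_mul]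
    have h1 : A ∩ K = (A ∩ K) ∩ E :=
      (Set.inter_eq_left.2 (Set.inter_subset_right.trans hKE)).symm
    have h2 := hEd (A ∩ K) (hA.inter hK.measurableSet)
    rw [← h1] at h2
    have h3 : σ (A ∩ K) ≤ σ A := measure_mono Set.inter_subset_left
    have h4 : (ε : ℝ≥0∞) ≠ 0 := by exact_mod_cast hε.ne'
    have h5 : ENNReal.ofReal ((ε : ℝ))⁻¹ = (ε : ℝ≥0∞)⁻¹ := by
      rw [ENNReal.ofReal_inv_of_pos (by exact_mod_cast hε), ENNReal.ofReal_coe_nnreal]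
    rw [h5]
    calc ν (A ∩ K) = (ε : ℝ≥0∞)⁻¹ * (ε * ν (A ∩ K)) := by
          rw [← mul_assoc, ENNReal.inv_mul_cancel h4 ENNReal.coe_ne_top, one_mul]
      _ ≤ (ε : ℝ≥0∞)⁻¹ * σ A := by gcongr; exact h2.trans h3

variable {H : Type} [NormedAddCommGroup H] [InnerProductSpace ℂ H] [CompleteSpace H]

/-- the vector `U⁻ⁿ ξ` -/
noncomputable def bk (U : unitary (H →L[ℂ] H)) (ξ : H) (n : ℕ) : H := ((star (U : H →L[ℂ] H)) ^ n) ξ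

/-- sharpness -/
theorem sing_sharp {σ : Measure UnitAddCircle} [IsFiniteMeasure σ] (h : ¬ σ ⟂ₘ volume) :
    ∃ (H : Type) (_ : NormedAddCommGroup H) (_ : InnerProductSpace ℂ H) (_ : CompleteSpace H)
      (U : unitary (H →L[ℂ] H)) (ξ : H) (κ : ℝ), 0 < κ ∧ SpecMeas U ξ σ ∧
      (∀ (E : Set ℕ) (c : ℕ → ℂ), (∀ n, ‖c n‖ ≤ 1) → CorrZero E c → ∃ B : H →L[ℂ] H, ‖B‖ ≤ 1 ∧
        ∀ ε : ℝ, 0 < ε → ∀ᶠ N : ℕ in Lf E, ‖∑ n ∈ Icc 1 N, c n * ⟪bk U ξ n, B (bk U ξ n)⟫_ℂ -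
          ((κ * ∑ n ∈ Icc 1 N, ‖c n‖ ^ 2 : ℝ) : ℂ)‖ ≤ ε * N) ∧
      ∃ B : H →L[ℂ] H, ∀ᶠ X : ℕ in atTop, κ / 16 * Real.log X ≤
        ‖∑ n ∈ Icc 1 X, ((ArithmeticFunction.moebius n : ℤ) : ℂ) / n * ⟪bk U ξ n, B (bk U ξ n)⟫_ℂ‖ := by
  obtain ⟨K, δ, hK, hδ, hm, hd⟩ := exists_dom h
  have hμ1 : ∀ n : ℕ, ‖((ArithmeticFunction.moebius n : ℤ) : ℂ)‖ ≤ 1 := fun n => by
    have h1 : |ArithmeticFunction.moebius n| ≤ 1 := ArithmeticFunction.abs_moebius_le_one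
    rw [Complex.norm_intCast]
    exact_mod_cast h1
  have hκ : 0 < δ * ν.real K := by positivity
  refine ⟨Lp ℂ 2 σ, inferInstance, inferInstance, inferInstance, cyc σ, one' σ, δ * ν.real K * ν.real K, by positivity,
    cyc_spec, fun E c hc hE => ⟨bop hK hd hc, bop_norm hK hd hδ hc, fun ε hε => ?_⟩, bop hK hd hμ1, ?_⟩
  · filter_upwards [sharp_asym hK 0 hm hc hE (ε / (δ * ν.real K)) (by positivity)] with N hN
    have e : ∑ n ∈ Icc 1 N, c n * ⟪bk (cyc σ) (one' σ) n, bop hK hd hc (bk (cyc σ) (one' σ) n)⟫_ℂ -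
        ((δ * ν.real K * ν.real K * ∑ n ∈ Icc 1 N, ‖c n‖ ^ 2 : ℝ) : ℂ) = ((δ * ν.real K : ℝ) : ℂ) *
        (∑ n ∈ Icc 1 N, c n * ⟪unitInd hK, ((wop hK 0 : L2T →L[ℂ] L2T) ^ n *
          fmul (bb c) (bb_le hc) * (star (wop hK 0 : L2T →L[ℂ] L2T)) ^ n) (unitInd hK)⟫_ℂ -
          ((ν.real K * ∑ n ∈ Icc 1 N, ‖c n‖ ^ 2 : ℝ) : ℂ)) := by
      have e0 : ((δ * ν.real K * ν.real K * ∑ n ∈ Icc 1 N, ‖c n‖ ^ 2 : ℝ) : ℂ) = ((δ * ν.real K : ℝ) : ℂ) *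
          ((ν.real K * ∑ n ∈ Icc 1 N, ‖c n‖ ^ 2 : ℝ) : ℂ) := by
        rw [← Complex.ofReal_mul]
        congr 1
        ring
      rw [mul_sub, e0, Finset.mul_sum (Icc 1 N) (fun n => c n * ⟪unitInd hK, ((wop hK 0 : L2T →L[ℂ] L2T) ^ n *
          fmul (bb c) (bb_le hc) * (star (wop hK 0 : L2T →L[ℂ] L2T)) ^ n) (unitInd hK)⟫_ℂ)]
      congr 1
      · refine Finset.sum_congr rfl fun n _ => ?_
        have h1 := bop_coeff hK hd 0 hc hm n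
        show c n * ⟪((star ((cyc σ : unitary (Lp ℂ 2 σ →L[ℂ] Lp ℂ 2 σ)) : Lp ℂ 2 σ →L[ℂ] Lp ℂ 2 σ)) ^ n) (one' σ),
          bop hK hd hc (((star ((cyc σ : unitary (Lp ℂ 2 σ →L[ℂ] Lp ℂ 2 σ)) : Lp ℂ 2 σ →L[ℂ] Lp ℂ 2 σ)) ^ n) (one' σ))⟫_ℂ = _
        rw [h1]
        ring
    rw [e, norm_mul, Complex.norm_real, Real.norm_of_nonneg hκ.le]
    calc δ * ν.real K * _ ≤ δ * ν.real K * (ε / (δ * ν.real K) * N) := by gcongr
      _ = ε * N := by field_simp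
  · obtain ⟨E, hLZ, hE, -⟩ := exc
    filter_upwards [log_fail hK 0 hm hLZ hE hμ1] with X hX
    have e : ∑ n ∈ Icc 1 X, ((ArithmeticFunction.moebius n : ℤ) : ℂ) / n *
        ⟪bk (cyc σ) (one' σ) n, bop hK hd hμ1 (bk (cyc σ) (one' σ) n)⟫_ℂ = ((δ * ν.real K : ℝ) : ℂ) *
        ∑ n ∈ Icc 1 X, ((ArithmeticFunction.moebius n : ℤ) : ℂ) / n * ⟪unitInd hK, ((wop hK 0 : L2T →L[ℂ] L2T) ^ n *
          fmul (bb (fun n => ((ArithmeticFunction.moebius n : ℤ) : ℂ))) (bb_le hμ1) *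
          (star (wop hK 0 : L2T →L[ℂ] L2T)) ^ n) (unitInd hK)⟫_ℂ := by
      rw [Finset.mul_sum]
      refine Finset.sum_congr rfl fun n _ => ?_
      have h1 := bop_coeff hK hd 0 hμ1 hm n
      show ((ArithmeticFunction.moebius n : ℤ) : ℂ) / n * ⟪((star ((cyc σ : unitary (Lp ℂ 2 σ →L[ℂ] Lp ℂ 2 σ)) : Lp ℂ 2 σ →L[ℂ] Lp ℂ 2 σ)) ^ n) (one' σ),
          bop hK hd hμ1 (((star ((cyc σ : unitary (Lp ℂ 2 σ →L[ℂ] Lp ℂ 2 σ)) : Lp ℂ 2 σ →L[ℂ] Lp ℂ 2 σ)) ^ n) (one' σ))⟫_ℂ = _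
      rw [h1]
      ring
    rw [e, norm_mul, Complex.norm_real, Real.norm_of_nonneg hκ.le]
    calc δ * ν.real K * ν.real K / 16 * Real.log X = δ * ν.real K * (ν.real K / 16 * Real.log X) := by ring
      _ ≤ _ := by gcongr

end Pool.Agent.E8helper86.NS
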