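import Pool.Agent.E8helper86.NS.Geo

/-! The deterministic inequality for vectors: one of the two stationary sequences has a spectral
measure, and only the geometric sums on a large part of that measure matter. -/

set_option autoImplicit false

open Finset MeasureTheory Topology

namespace Pool.Agent.E8helper86.NS

open scoped InnerProductSpace

section
variable {H : Type*} [NormedAddCommGroup H] [InnerProductSpace ℂ H]

theorem cs_sum {ι : Type*} (s : Finset ι) (r p : ι → H) (B : H →L[ℂ] H) :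
    ‖∑ j ∈ s, ⟪r j, B (p j)⟫_ℂ‖ ≤ ‖B‖ * (√(∑ j ∈ s, ‖r j‖ ^ 2) * √(∑ j ∈ s, ‖p j‖ ^ 2)) := by
  calc ‖∑ j ∈ s, ⟪r j, B (p j)⟫_ℂ‖ ≤ ∑ j ∈ s, ‖B‖ * (‖r j‖ * ‖p j‖) := by
        refine (norm_sum_le _ _).trans (Finset.sum_le_sum fun j _ => ?_)
        calc ‖⟪r j, B (p j)⟫_ℂ‖ ≤ ‖r j‖ * ‖B (p j)‖ := norm_inner_le_norm _ _
          _ ≤ ‖r j‖ * (‖B‖ * ‖p j‖) := by gcongr; exact B.le_opNorm _
          _ = _ := by ring
    _ = ‖B‖ * ∑ j ∈ s, ‖r j‖ * ‖p j‖ := (Finset.mul_sum _ _ _).symm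
    _ ≤ _ := by
        gcongr
        exact Real.sum_mul_le_sqrt_mul_sqrt s (fun j => ‖r j‖) (fun j => ‖p j‖)

/-- the sum of squares of the convolution, for a stationary sequence -/
theorem sq_conv_vec (y : ℤ → H) (β : ℤ → ℂ) (hy : ∀ m n, ⟪y m, y n⟫_ℂ = β (n - m)) {N D : ℕ} {c : ℤ → ℂ}
    (hc0 : ∀ n, n ∉ Icc (1 : ℤ) N → c n = 0) (S : Finset ℤ) (l : ℤ → ℂ) (hD : ∀ k ∈ S, |k| ≤ (D : ℤ)) :
    ∑ m ∈ Icc (-(D : ℤ)) (N + D), ‖∑ k ∈ S, l k • (star (c (m - k)) • y (m - k))‖ ^ 2 ≤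
      ‖y 0‖ ^ 2 * Gam S l c N := by
  have hyn : ∀ n, ‖y n‖ = ‖y 0‖ := by
    intro n
    have h1 : ⟪y n, y n⟫_ℂ = ⟪y 0, y 0⟫_ℂ := by rw [hy, hy]; simp
    rw [inner_self_eq_norm_sq_to_K, inner_self_eq_norm_sq_to_K] at h1
    have h2 : ‖y n‖ ^ 2 = ‖y 0‖ ^ 2 := by exact_mod_cast h1
    exact (pow_left_inj₀ (norm_nonneg _) (norm_nonneg _) two_ne_zero).1 h2
  have hβ : ∀ n, ‖β n‖ ≤ ‖y 0‖ ^ 2 := by
    intro n
    have h1 := norm_inner_le_norm (𝕜 := ℂ) (y 0) (y n)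
    rw [hy, hyn n, sub_zero] at h1
    rw [pow_two]
    exact h1
  have h1 : ∀ m : ℤ, ((‖∑ k ∈ S, l k • (star (c (m - k)) • y (m - k))‖ ^ 2 : ℝ) : ℂ) =
      ∑ k ∈ S, ∑ k' ∈ S, (star (l k) * l k' * β (k - k')) * star (star (c (m - k)) * c (m - k')) := by
    intro m
    have h2 := inner_self_eq_norm_sq_to_K (𝕜 := ℂ) (∑ k ∈ S, l k • (star (c (m - k)) • y (m - k)))
    have h3 : ((‖∑ k ∈ S, l k • (star (c (m - k)) • y (m - k))‖ ^ 2 : ℝ) : ℂ) =
      ⟪∑ k ∈ S, l k • (star (c (m - k)) • y (m - k)), ∑ k ∈ S, l k • (star (c (m - k)) • y (m - k))⟫_ℂ := by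
      rw [h2]; push_cast; rfl
    rw [h3, sum_inner]
    refine Finset.sum_congr rfl fun k _ => ?_
    rw [inner_sum]
    refine Finset.sum_congr rfl fun k' _ => ?_
    rw [inner_smul_left, inner_smul_left, inner_smul_right, inner_smul_right, hy,
      show m - k' - (m - k) = k - k' by ring]
    simp only [Complex.star_def, map_mul, Complex.conj_conj]
    ring
  have h4 : ((∑ m ∈ Icc (-(D : ℤ)) (N + D), ‖∑ k ∈ S, l k • (star (c (m - k)) • y (m - k))‖ ^ 2 : ℝ) : ℂ) =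
      ∑ k ∈ S, ∑ k' ∈ S, (star (l k) * l k' * β (k - k')) * star (cor c N (k - k')) := by
    rw [Complex.ofReal_sum]
    simp_rw [h1]
    rw [Finset.sum_comm]
    refine Finset.sum_congr rfl fun k hk => ?_
    rw [Finset.sum_comm]
    refine Finset.sum_congr rfl fun k' _ => ?_
    rw [← Finset.mul_sum, ← star_sum, cor_eq hc0 (hD k hk) k']
  have h0 : (0 : ℝ) ≤ ∑ m ∈ Icc (-(D : ℤ)) (N + D), ‖∑ k ∈ S, l k • (star (c (m - k)) • y (m - k))‖ ^ 2 :=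
    Finset.sum_nonneg fun _ _ => by positivity
  calc ∑ m ∈ Icc (-(D : ℤ)) (N + D), ‖∑ k ∈ S, l k • (star (c (m - k)) • y (m - k))‖ ^ 2
      = ‖((∑ m ∈ Icc (-(D : ℤ)) (N + D), ‖∑ k ∈ S, l k • (star (c (m - k)) • y (m - k))‖ ^ 2 : ℝ) : ℂ)‖ := by
        rw [Complex.norm_real, Real.norm_of_nonneg h0]
    _ ≤ ∑ k ∈ S, ∑ k' ∈ S, ‖y 0‖ ^ 2 * (‖l k‖ * ‖l k'‖ * ‖cor c N (k - k')‖) := by
        rw [h4]
        refine (norm_sum_le _ _).trans (Finset.sum_le_sum fun k _ => ?_)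
        refine (norm_sum_le _ _).trans (Finset.sum_le_sum fun k' _ => ?_)
        rw [norm_mul, norm_mul, norm_mul, norm_star, norm_star]
        calc ‖l k‖ * ‖l k'‖ * ‖β (k - k')‖ * ‖cor c N (k - k')‖
            ≤ ‖l k‖ * ‖l k'‖ * ‖y 0‖ ^ 2 * ‖cor c N (k - k')‖ := by
              gcongr
              exact hβ _
          _ = _ := by ring
    _ = _ := by
        unfold Gam
        simp_rw [← Finset.mul_sum]

/-- the norms of the sums of a stationary sequence, by its spectral measure -/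
theorem norm_stat (σ : Measure UnitAddCircle) [IsFiniteMeasure σ] (x : ℤ → H)
    (hx : ∀ m n, ⟪x m, x n⟫_ℂ = ∫ z, (fourier (n - m) z : ℂ) ∂σ) (N : ℕ) (t : UnitAddCircle) :
    ‖∑ m ∈ Icc (1 : ℤ) N, (fourier m t : ℂ) • x m‖ ^ 2 =
      ∫ z, ‖∑ m ∈ Icc (1 : ℤ) N, (fourier m (z + t) : ℂ)‖ ^ 2 ∂σ := by
  have hint : ∀ m n : ℤ, Integrable (fun z : UnitAddCircle => (fourier (n - m) t : ℂ) * (fourier (n - m) z : ℂ)) σ := by
    intro m n
    apply Continuous.integrable_of_hasCompactSupport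
    · fun_prop
    · exact HasCompactSupport.of_compactSpace _
  have h1 : ((‖∑ m ∈ Icc (1 : ℤ) N, (fourier m t : ℂ) • x m‖ ^ 2 : ℝ) : ℂ) =
      ∑ m ∈ Icc (1 : ℤ) N, ∑ n ∈ Icc (1 : ℤ) N, ∫ z, (fourier (n - m) t : ℂ) * (fourier (n - m) z : ℂ) ∂σ := by
    have h2 := inner_self_eq_norm_sq_to_K (𝕜 := ℂ) (∑ m ∈ Icc (1 : ℤ) N, (fourier m t : ℂ) • x m)
    have h3 : ((‖∑ m ∈ Icc (1 : ℤ) N, (fourier m t : ℂ) • x m‖ ^ 2 : ℝ) : ℂ) =
      ⟪∑ m ∈ Icc (1 : ℤ) N, (fourier m t : ℂ) • x m, ∑ m ∈ Icc (1 : ℤ) N, (fourier m t : ℂ) • x m⟫_ℂ := by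
      rw [h2]; push_cast; rfl
    rw [h3, sum_inner]
    refine Finset.sum_congr rfl fun m _ => ?_
    rw [inner_sum]
    refine Finset.sum_congr rfl fun n _ => ?_
    rw [inner_smul_left, inner_smul_right, ← mul_assoc, ← fourier_neg, ← fourier_add, neg_add_eq_sub, hx,
      integral_const_mul]
  have h4 : ∀ z : UnitAddCircle, ((‖∑ m ∈ Icc (1 : ℤ) N, (fourier m (z + t) : ℂ)‖ ^ 2 : ℝ) : ℂ) =
      ∑ m ∈ Icc (1 : ℤ) N, ∑ n ∈ Icc (1 : ℤ) N, (fourier (n - m) t : ℂ) * (fourier (n - m) z : ℂ) := by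
    intro z
    rw [← Complex.normSq_eq_norm_sq, Complex.normSq_eq_conj_mul_self, map_sum, Finset.sum_mul_sum]
    refine Finset.sum_congr rfl fun m _ => Finset.sum_congr rfl fun n _ => ?_
    rw [← fourier_neg, ← fourier_add, neg_add_eq_sub, fourier_apply, fourier_apply, fourier_apply,
      ← Circle.coe_mul, ← AddCircle.toCircle_add, smul_add, add_comm]
  have h5 : ((∫ z, ‖∑ m ∈ Icc (1 : ℤ) N, (fourier m (z + t) : ℂ)‖ ^ 2 ∂σ : ℝ) : ℂ) =
      ∑ m ∈ Icc (1 : ℤ) N, ∑ n ∈ Icc (1 : ℤ) N, ∫ z, (fourier (n - m) t : ℂ) * (fourier (n - m) z : ℂ) ∂σ := by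
    rw [← integral_complex_ofReal]
    simp_rw [h4]
    rw [integral_finsetSum _ fun m _ => integrable_finsetSum _ fun n _ => hint m n]
    refine Finset.sum_congr rfl fun m _ => ?_
    rw [integral_finsetSum _ fun n _ => hint m n]
  rw [← h5] at h1
  exact_mod_cast h1

theorem card_geo {Q N : ℕ} (hQ : 0 < Q) (hNQ : N < Q) (z : UnitAddCircle) :
    ∑ j ∈ range Q, ‖∑ m ∈ Icc (1 : ℤ) N, (fourier m (z + pt Q j) : ℂ)‖ ^ 2 = Q * N := by
  have hI : ∀ m ∈ Icc (1 : ℤ) N, ∀ n ∈ Icc (1 : ℤ) N, |n - m| < (Q : ℤ) := by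
    intro m hm n hn
    rw [mem_Icc] at hm hn
    rw [abs_lt]
    constructor <;> omega
  have h := parseval_norm hQ hI (fun m => (fourier m z : ℂ))
  simp only [norm_fourier, one_pow, Finset.sum_const, nsmul_eq_mul, mul_one, smul_eq_mul] at h
  have hc : ((Icc (1 : ℤ) N).card : ℝ) = N := by simp
  rw [hc] at h
  rw [← h]
  refine Finset.sum_congr rfl fun j _ => ?_
  congr 2
  refine Finset.sum_congr rfl fun m _ => ?_
  rw [fourier_apply, fourier_apply, fourier_apply, ← Circle.coe_mul, ← AddCircle.toCircle_add, smul_add, add_comm]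

theorem det_vec (σ : Measure UnitAddCircle) [IsFiniteMeasure σ] (K : Set UnitAddCircle) (hK : MeasurableSet K)
    (x y : ℤ → H) (β : ℤ → ℂ) (hx : ∀ m n, ⟪x m, x n⟫_ℂ = ∫ z, (fourier (n - m) z : ℂ) ∂σ)
    (hy : ∀ m n, ⟪y m, y n⟫_ℂ = β (n - m)) (B : H →L[ℂ] H) (N : ℕ) (c : ℤ → ℂ)
    (hc0 : ∀ n, n ∉ Icc (1 : ℤ) N → c n = 0) (hc1 : ∀ n, ‖c n‖ ≤ 1) (S : Finset ℤ) (l : ℤ → ℂ)
    (C : ℝ) (hC : ∀ t : UnitAddCircle, ‖trig S l t‖ < 1 → ∀ z ∈ K,
      ‖∑ m ∈ Icc (1 : ℤ) N, (fourier m (z + t) : ℂ)‖ ≤ C) :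
    ‖∑ n ∈ Icc (1 : ℤ) N, c n * ⟪y n, B (x n)⟫_ℂ‖ ≤
      ‖B‖ * ‖y 0‖ * (√(C ^ 2 * σ.real Set.univ + N * σ.real Kᶜ) * √N + √N * ‖x 0‖ * √(Gam S l c N)) := by
  obtain ⟨D, hD⟩ := exists_D S
  set I : Finset ℤ := Icc (-(D : ℤ)) (N + D) with hI
  set Q : ℕ := N + 2 * D + 1 with hQ
  have hQ0 : 0 < Q := by omega
  have hQR : (0 : ℝ) < Q := by exact_mod_cast hQ0
  have hIQ : ∀ m ∈ I, ∀ n ∈ I, |n - m| < Q := by
    intro m hm n hn
    rw [hI, mem_Icc] at hm hn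
    rw [abs_lt, hQ]
    push_cast
    constructor <;> omega
  have hJQ : ∀ m ∈ Icc (1 : ℤ) N, ∀ n ∈ Icc (1 : ℤ) N, |n - m| < Q := by
    intro m hm n hn
    rw [mem_Icc] at hm hn
    rw [abs_lt, hQ]
    push_cast
    constructor <;> omega
  have hyn : ∀ n, ‖y n‖ = ‖y 0‖ := by
    intro n
    have h1 : ⟪y n, y n⟫_ℂ = ⟪y 0, y 0⟫_ℂ := by rw [hy, hy]; simp
    rw [inner_self_eq_norm_sq_to_K, inner_self_eq_norm_sq_to_K] at h1
    have h2 : ‖y n‖ ^ 2 = ‖y 0‖ ^ 2 := by exact_mod_cast h1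
    exact (pow_left_inj₀ (norm_nonneg _) (norm_nonneg _) two_ne_zero).1 h2
  have hxn : ∀ n, ‖x n‖ = ‖x 0‖ := by
    intro n
    have h1 : ⟪x n, x n⟫_ℂ = ⟪x 0, x 0⟫_ℂ := by rw [hx, hx]; simp
    rw [inner_self_eq_norm_sq_to_K, inner_self_eq_norm_sq_to_K] at h1
    have h2 : ‖x n‖ ^ 2 = ‖x 0‖ ^ 2 := by exact_mod_cast h1
    exact (pow_left_inj₀ (norm_nonneg _) (norm_nonneg _) two_ne_zero).1 h2
  set g : ℤ → H := fun n => star (c n) • y n with hg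
  have hg0 : ∀ n, n ∉ Icc (1 : ℤ) N → g n = 0 := fun n hn => by
    rw [hg]; simp only [hc0 n hn, star_zero, zero_smul]
  set R : ℕ → H := fun j => ∑ n ∈ Icc (1 : ℤ) N, (fourier n (pt Q j) : ℂ) • g n with hR
  set P : ℕ → H := fun j => ∑ n ∈ Icc (1 : ℤ) N, (fourier n (pt Q j) : ℂ) • x n with hP
  have htot : ∑ j ∈ range Q, ⟪R j, B (P j)⟫_ℂ = Q * ∑ n ∈ Icc (1 : ℤ) N, c n * ⟪y n, B (x n)⟫_ℂ := by
    have h1 := parseval_inner hQ0 hJQ g (fun n => B (x n))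
    have h2 : ∀ j, ∑ n ∈ Icc (1 : ℤ) N, (fourier n (pt Q j) : ℂ) • B (x n) = B (P j) := by
      intro j
      rw [hP]
      simp only
      rw [map_sum]
      exact Finset.sum_congr rfl fun n _ => by rw [map_smul]
    simp_rw [h2] at h1
    rw [h1]
    congr 1
    refine Finset.sum_congr rfl fun n _ => ?_
    rw [hg]
    simp only
    rw [inner_smul_left]
    simp
  have hRR : ∑ j ∈ range Q, ‖R j‖ ^ 2 ≤ Q * (‖y 0‖ ^ 2 * N) := by
    rw [parseval_norm hQ0 hJQ g]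
    gcongr
    calc ∑ m ∈ Icc (1 : ℤ) N, ‖g m‖ ^ 2 ≤ ∑ m ∈ Icc (1 : ℤ) N, ‖y 0‖ ^ 2 := by
          refine Finset.sum_le_sum fun m _ => ?_
          rw [hg]
          simp only
          rw [norm_smul, norm_star, hyn]
          have h3 : ‖c m‖ * ‖y 0‖ ≤ ‖y 0‖ := mul_le_of_le_one_left (norm_nonneg _) (hc1 m)
          exact pow_le_pow_left₀ (by positivity) h3 2
      _ = ‖y 0‖ ^ 2 * N := by simp; ring
  have hPP : ∑ j ∈ range Q, ‖P j‖ ^ 2 = Q * (‖x 0‖ ^ 2 * N) := by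
    rw [parseval_norm hQ0 hJQ x]
    congr 1
    simp_rw [hxn]
    simp
    ring
  set near : Finset ℕ := (range Q).filter fun j => 1 ≤ ‖trig S l (pt Q j)‖ with hnear
  set far : Finset ℕ := (range Q).filter fun j => ¬ 1 ≤ ‖trig S l (pt Q j)‖ with hfar
  have hsplit : ∑ j ∈ range Q, ⟪R j, B (P j)⟫_ℂ = ∑ j ∈ near, ⟪R j, B (P j)⟫_ℂ + ∑ j ∈ far, ⟪R j, B (P j)⟫_ℂ :=
    (Finset.sum_filter_add_sum_filter_not (range Q) _ _).symm
  have hnearR : ∑ j ∈ near, ‖R j‖ ^ 2 ≤ Q * (‖y 0‖ ^ 2 * Gam S l c N) := by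
    calc ∑ j ∈ near, ‖R j‖ ^ 2 ≤ ∑ j ∈ near, ‖trig S l (pt Q j) • R j‖ ^ 2 := by
          refine Finset.sum_le_sum fun j hj => ?_
          rw [hnear, mem_filter] at hj
          rw [norm_smul]
          exact pow_le_pow_left₀ (norm_nonneg _) (le_mul_of_one_le_left (norm_nonneg _) hj.2) 2
      _ ≤ ∑ j ∈ range Q, ‖trig S l (pt Q j) • R j‖ ^ 2 :=
          Finset.sum_le_sum_of_subset_of_nonneg (Finset.filter_subset _ _) fun _ _ _ => by positivity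
      _ = Q * ∑ m ∈ I, ‖∑ k ∈ S, l k • g (m - k)‖ ^ 2 := by
          rw [← parseval_norm hQ0 hIQ (fun m => ∑ k ∈ S, l k • g (m - k))]
          refine Finset.sum_congr rfl fun j _ => ?_
          rw [hR]
          simp only
          rw [trig_smul S l N D hD g hg0]
      _ ≤ _ := by
          gcongr
          exact sq_conv_vec y β hy hc0 S l hD
  have hfarP : ∑ j ∈ far, ‖P j‖ ^ 2 ≤ Q * (C ^ 2 * σ.real Set.univ + N * σ.real Kᶜ) := by
    have hint : ∀ j, Integrable (fun z : UnitAddCircle => ‖∑ m ∈ Icc (1 : ℤ) N, (fourier m (z + pt Q j) : ℂ)‖ ^ 2) σ := by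
      intro j
      apply Continuous.integrable_of_hasCompactSupport
      · fun_prop
      · exact HasCompactSupport.of_compactSpace _
    have h1 : ∑ j ∈ far, ‖P j‖ ^ 2 = ∫ z, ∑ j ∈ far, ‖∑ m ∈ Icc (1 : ℤ) N, (fourier m (z + pt Q j) : ℂ)‖ ^ 2 ∂σ := by
      rw [integral_finsetSum _ fun j _ => hint j]
      refine Finset.sum_congr rfl fun j _ => ?_
      exact norm_stat σ x hx N (pt Q j)
    rw [h1]
    have h2 : ∀ z : UnitAddCircle, ∑ j ∈ far, ‖∑ m ∈ Icc (1 : ℤ) N, (fourier m (z + pt Q j) : ℂ)‖ ^ 2 ≤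
        Q * C ^ 2 + Kᶜ.indicator (fun _ => (Q : ℝ) * N) z := by
      intro z
      by_cases hz : z ∈ K
      · rw [Set.indicator_of_notMem (by simpa using hz), add_zero]
        calc ∑ j ∈ far, ‖∑ m ∈ Icc (1 : ℤ) N, (fourier m (z + pt Q j) : ℂ)‖ ^ 2 ≤ ∑ j ∈ far, C ^ 2 := by
              refine Finset.sum_le_sum fun j hj => ?_
              rw [hfar, mem_filter] at hj
              exact pow_le_pow_left₀ (norm_nonneg _) (hC _ (not_le.1 hj.2) z hz) 2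
          _ ≤ Q * C ^ 2 := by
              rw [Finset.sum_const, nsmul_eq_mul]
              have : (far.card : ℝ) ≤ Q := by
                have h5 := Finset.card_le_card (Finset.filter_subset (fun j => ¬ 1 ≤ ‖trig S l (pt Q j)‖) (range Q))
                rw [card_range] at h5
                exact_mod_cast h5
              gcongr
      · rw [Set.indicator_of_mem (by simpa using hz)]
        have h3 := card_geo (N := N) hQ0 (by omega) z
        calc ∑ j ∈ far, ‖∑ m ∈ Icc (1 : ℤ) N, (fourier m (z + pt Q j) : ℂ)‖ ^ 2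
            ≤ ∑ j ∈ range Q, ‖∑ m ∈ Icc (1 : ℤ) N, (fourier m (z + pt Q j) : ℂ)‖ ^ 2 :=
              Finset.sum_le_sum_of_subset_of_nonneg (Finset.filter_subset _ _) fun _ _ _ => by positivity
          _ = Q * N := h3
          _ ≤ _ := by
              have : 0 ≤ (Q : ℝ) * C ^ 2 := by positivity
              linarith
    calc ∫ z, ∑ j ∈ far, ‖∑ m ∈ Icc (1 : ℤ) N, (fourier m (z + pt Q j) : ℂ)‖ ^ 2 ∂σ
        ≤ ∫ z, (Q * C ^ 2 + Kᶜ.indicator (fun _ => (Q : ℝ) * N) z) ∂σ := by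
          apply integral_mono
          · exact integrable_finsetSum _ fun j _ => hint j
          · exact (integrable_const _).add ((integrable_const _).indicator hK.compl)
          · exact h2
      _ = Q * (C ^ 2 * σ.real Set.univ + N * σ.real Kᶜ) := by
          rw [integral_add (integrable_const _) ((integrable_const _).indicator hK.compl),
            integral_indicator hK.compl]
          simp only [integral_const, smul_eq_mul, measureReal_def, Measure.restrict_apply_univ]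
          ring
  have hG := Gam_nonneg S l c N
  have hN0 : (0 : ℝ) ≤ N := by positivity
  have hσ1 : 0 ≤ σ.real Set.univ := measureReal_nonneg
  have hσ2 : 0 ≤ σ.real Kᶜ := measureReal_nonneg
  have hmain : (Q : ℝ) * ‖∑ n ∈ Icc (1 : ℤ) N, c n * ⟪y n, B (x n)⟫_ℂ‖ ≤
      Q * (‖B‖ * ‖y 0‖ * (√(C ^ 2 * σ.real Set.univ + N * σ.real Kᶜ) * √N + √N * ‖x 0‖ * √(Gam S l c N))) := by
    have e : (Q : ℝ) * ‖∑ n ∈ Icc (1 : ℤ) N, c n * ⟪y n, B (x n)⟫_ℂ‖ = ‖∑ j ∈ range Q, ⟪R j, B (P j)⟫_ℂ‖ := by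
      rw [htot, norm_mul, Complex.norm_natCast]
    rw [e, hsplit]
    have h1 := cs_sum near R P B
    have h2 := cs_sum far R P B
    have h3 : √(∑ j ∈ near, ‖R j‖ ^ 2) * √(∑ j ∈ near, ‖P j‖ ^ 2) ≤ Q * (‖y 0‖ * (√N * ‖x 0‖ * √(Gam S l c N))) := by
      calc _ ≤ √((Q : ℝ) * (‖y 0‖ ^ 2 * Gam S l c N)) * √(Q * (‖x 0‖ ^ 2 * N)) := by
            gcongr
            rw [← hPP]
            exact Finset.sum_le_sum_of_subset_of_nonneg (Finset.filter_subset _ _) fun _ _ _ => by positivity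
        _ = (√Q * √Q) * (‖y 0‖ * (√N * ‖x 0‖ * √(Gam S l c N))) := by
            rw [Real.sqrt_mul hQR.le, Real.sqrt_mul hQR.le, Real.sqrt_mul (by positivity),
              Real.sqrt_mul (by positivity), Real.sqrt_sq (norm_nonneg _), Real.sqrt_sq (norm_nonneg _)]
            ring
        _ = _ := by rw [Real.mul_self_sqrt hQR.le]
    have h4 : √(∑ j ∈ far, ‖R j‖ ^ 2) * √(∑ j ∈ far, ‖P j‖ ^ 2) ≤
        Q * (‖y 0‖ * (√(C ^ 2 * σ.real Set.univ + N * σ.real Kᶜ) * √N)) := by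
      calc _ ≤ √((Q : ℝ) * (‖y 0‖ ^ 2 * N)) * √(Q * (C ^ 2 * σ.real Set.univ + N * σ.real Kᶜ)) := by
            gcongr
            refine le_trans ?_ hRR
            exact Finset.sum_le_sum_of_subset_of_nonneg (Finset.filter_subset _ _) fun _ _ _ => by positivity
        _ = (√Q * √Q) * (‖y 0‖ * (√(C ^ 2 * σ.real Set.univ + N * σ.real Kᶜ) * √N)) := by
            rw [Real.sqrt_mul hQR.le, Real.sqrt_mul hQR.le, Real.sqrt_mul (by positivity),
              Real.sqrt_sq (norm_nonneg _)]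
            ring
        _ = _ := by rw [Real.mul_self_sqrt hQR.le]
    calc ‖∑ j ∈ near, ⟪R j, B (P j)⟫_ℂ + ∑ j ∈ far, ⟪R j, B (P j)⟫_ℂ‖
        ≤ ‖B‖ * (Q * (‖y 0‖ * (√N * ‖x 0‖ * √(Gam S l c N)))) +
          ‖B‖ * (Q * (‖y 0‖ * (√(C ^ 2 * σ.real Set.univ + N * σ.real Kᶜ) * √N))) :=
          (norm_add_le _ _).trans (add_le_add
            (h1.trans (mul_le_mul_of_nonneg_left h3 (norm_nonneg _)))
            (h2.trans (mul_le_mul_of_nonneg_left h4 (norm_nonneg _))))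
      _ = _ := by ring
  exact le_of_mul_le_mul_left hmain hQR

end

end Pool.Agent.E8helper86.NS
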